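import Mathlib

/-!
# H69B/Avg: averaging

Module `H69B/Avg`. Double counting: `∑ a < A, #{b < B | bad (a + A * b)} = #{x < A * B | bad x}` (for `A > 0` the
map `(a, b) ↦ a + A * b` is a bijection), so `B * #{a | ...} ≤ t * #{x | bad x}`.
-/

set_option autoImplicit false

namespace LSA

open Classical in
theorem avg {A B c t : ℕ} (hB : 0 < B) (bad : ℕ → Prop)
    (h : c * t * ((Finset.range (A * B)).filter fun x => bad x).card ≤ A * B) :
    c * ((Finset.range A).filter fun a =>
      B ≤ t * ((Finset.range B).filter fun b => bad (a + A * b)).card).card ≤ A := by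
  rcases Nat.eq_zero_or_pos A with rfl | hA
  · simp
  set S := (Finset.range (A * B)).filter fun x => bad x with hS
  set G := (Finset.range A).filter fun a =>
      B ≤ t * ((Finset.range B).filter fun b => bad (a + A * b)).card with hG
  have h1 : S.card = ∑ a ∈ Finset.range A, (S.filter fun x => x % A = a).card :=
    Finset.card_eq_sum_card_fiberwise fun x _ => by
      simp only [Finset.coe_range, Set.mem_Iio]
      exact Nat.mod_lt _ hA
  have h2 : ∀ a ∈ Finset.range A, ((Finset.range B).filter fun b => bad (a + A * b)).card ≤
      (S.filter fun x => x % A = a).card := by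
    intro a ha
    rw [Finset.mem_range] at ha
    refine Finset.card_le_card_of_injOn (fun b => a + A * b) ?_ ?_
    · intro b hb
      simp only [Finset.coe_filter, Finset.mem_range, Set.mem_setOf_eq] at hb
      simp only [hS, Finset.coe_filter, Finset.mem_filter, Finset.mem_range, Set.mem_setOf_eq]
      refine ⟨⟨?_, hb.2⟩, ?_⟩
      · calc a + A * b < A + A * b := by omega
          _ = A * (b + 1) := by ring
          _ ≤ A * B := Nat.mul_le_mul_left _ hb.1
      · rw [Nat.add_mul_mod_self_left, Nat.mod_eq_of_lt ha]
    · intro b _ b' _ hbb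
      have : A * b = A * b' := by
        have := hbb
        simp only at this
        omega
      exact Nat.eq_of_mul_eq_mul_left hA this
  have h3 : B * G.card ≤ t * S.card := by
    calc B * G.card = ∑ _a ∈ G, B := by simp [mul_comm]
      _ ≤ ∑ a ∈ G, t * ((Finset.range B).filter fun b => bad (a + A * b)).card := by
          refine Finset.sum_le_sum fun a ha => ?_
          rw [hG, Finset.mem_filter] at ha
          exact ha.2
      _ ≤ ∑ a ∈ Finset.range A, t * ((Finset.range B).filter fun b => bad (a + A * b)).card :=
          Finset.sum_le_sum_of_subset (Finset.filter_subset _ _)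
      _ ≤ ∑ a ∈ Finset.range A, t * (S.filter fun x => x % A = a).card :=
          Finset.sum_le_sum fun a ha => Nat.mul_le_mul_left _ (h2 a ha)
      _ = t * S.card := by rw [h1, Finset.mul_sum]
  have h4 : B * (c * G.card) ≤ B * A := by
    calc B * (c * G.card) = c * (B * G.card) := by ring
      _ ≤ c * (t * S.card) := Nat.mul_le_mul_left _ h3
      _ = c * t * S.card := by ring
      _ ≤ A * B := h
      _ = B * A := by ring
  exact Nat.le_of_mul_le_mul_left h4 hB

open Classical in
/-- In every class of `x < 2 ^ n` with the same quotient by `B` (a padding) there are `B` words; a good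
padding exists. Suppose not: every full class `J < 2 ^ n / B` has `2 * h * a_J < (h + 1) * B`, the rest has fewer
than `B` elements, so `2 * h * #G < (h + 1) * 2 ^ n + 2 * h * B ≤ (h + 2) * 2 ^ n`. -/
theorem junk {n B h : ℕ} (hB : 0 < B) (hh : 0 < h) (hn : 2 * h * B ≤ 2 ^ n) (G : ℕ → Prop)
    (hG : (h + 2) * 2 ^ n ≤ 2 * h * ((Finset.range (2 ^ n)).filter fun x => G x).card) :
    ∃ J, B * (J + 1) ≤ 2 ^ n ∧
      (h + 1) * B ≤ 2 * h * ((Finset.range B).filter fun X => G (X + B * J)).card := by
  by_contra hcon
  push Not at hcon
  set N := 2 ^ n with hN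
  set Q := N / B with hQ
  set S := (Finset.range N).filter fun x => G x with hS
  have hBQ : B * Q ≤ N := Nat.mul_div_le N B
  have hBQ' : N < B * Q + B := by
    have := Nat.div_add_mod N B
    have h2 := Nat.mod_lt N hB
    rw [hQ]
    omega
  have h1 : S.card = ∑ J ∈ Finset.range (Q + 1), (S.filter fun x => x / B = J).card :=
    Finset.card_eq_sum_card_fiberwise fun x hx => by
      simp only [hS, Finset.coe_filter, Finset.mem_range, Set.mem_setOf_eq] at hx
      simp only [Finset.coe_range, Set.mem_Iio]
      have : x / B ≤ N / B := Nat.div_le_div_right hx.1.le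
      omega
  have h2 : ∀ J ∈ Finset.range Q, 2 * h * (S.filter fun x => x / B = J).card ≤ (h + 1) * B := by
    intro J hJ
    rw [Finset.mem_range] at hJ
    have hle : B * (J + 1) ≤ N := (Nat.mul_le_mul_left B (Nat.succ_le_of_lt hJ)).trans hBQ
    have h3 := hcon J hle
    have h4 : (S.filter fun x => x / B = J).card ≤
        ((Finset.range B).filter fun X => G (X + B * J)).card := by
      refine Finset.card_le_card_of_injOn (fun x => x % B) ?_ ?_
      · intro x hx
        simp only [hS, Finset.coe_filter, Finset.mem_filter, Finset.mem_range,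
          Set.mem_setOf_eq] at hx
        simp only [Finset.coe_filter, Finset.mem_range, Set.mem_setOf_eq]
        refine ⟨Nat.mod_lt _ hB, ?_⟩
        have : x % B + B * J = x := by
          rw [← hx.2]
          exact Nat.mod_add_div x B
        rw [this]
        exact hx.1.2
      · intro x hx y hy hxy
        simp only [hS, Finset.coe_filter, Finset.mem_filter, Finset.mem_range,
          Set.mem_setOf_eq] at hx hy
        simp only at hxy
        rw [← Nat.mod_add_div x B, ← Nat.mod_add_div y B, hxy, hx.2, hy.2]
    exact (Nat.mul_le_mul_left _ h4).trans h3.le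
  have h5 : (S.filter fun x => x / B = Q).card < B := by
    have h6 : (S.filter fun x => x / B = Q) ⊆ Finset.Ico (B * Q) N := by
      intro x hx
      simp only [hS, Finset.mem_filter, Finset.mem_range] at hx
      rw [Finset.mem_Ico]
      refine ⟨?_, hx.1.1⟩
      rw [← hx.2]
      exact Nat.mul_div_le x B
    have h7 := Finset.card_le_card h6
    rw [Nat.card_Ico] at h7
    omega
  have h8 : 2 * h * S.card < (h + 2) * N := by
    rw [h1, Finset.sum_range_succ, mul_add, Finset.mul_sum]
    calc ∑ J ∈ Finset.range Q, 2 * h * (S.filter fun x => x / B = J).card +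
          2 * h * (S.filter fun x => x / B = Q).card
        < ∑ _J ∈ Finset.range Q, (h + 1) * B + 2 * h * B := by
          refine add_lt_add_of_le_of_lt (Finset.sum_le_sum h2) ?_
          exact Nat.mul_lt_mul_of_pos_left h5 (by omega)
      _ = (h + 1) * (B * Q) + 2 * h * B := by
          rw [Finset.sum_const, Finset.card_range, smul_eq_mul]; ring
      _ ≤ (h + 1) * N + N := add_le_add (Nat.mul_le_mul_left _ hBQ) hn
      _ = (h + 2) * N := by ring
  exact absurd hG (not_le.mpr h8)

end LSA
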