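import Pool.Agent.H69B.Defs
import Pool.Agent.H69A.Par

/-!
# H69B/ParB: the parameters

Module `H69B/ParB`. `mm e s ≤ 2 ^ e * 4 ^ s` (for `s ≥ 1`, `e ≥ 2`, see `H69A/Par`), `2 ^ (3 * s + e) ≤ pp e s`
(`pp_spec`), so `16 * mm ≤ 2 ^ s * mm ≤ pp` for `s ≥ 4`. `pp e s < 2 ^ b0 e s`. With `t = s1 s = Nat.size s + 5`:
`2 ^ t = 32 * 2 ^ Nat.size s`, between `32 * (s + 1)` and `64 * s` (for `s ≥ 1`; `LSC.pow_size_le`,
`Nat.lt_size_self`).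

* `msg2`: the number is smaller than `2 ^ (ww e s + b0 e s) = 2 ^ (4 * s + 2 * e + 1)`, and
  `4 * s + 2 * e + 1 ≤ e * 32 * s ≤ e * 2 ^ t ≤ t * dd e t` (`msg_le`).
* `dpp_le`: `dd e s * (3 * s + e + 1) ≤ (s * dd e s) * (3 + e + 1) ≤ c * 2 ^ s` (`sdd_le`, for `s ≥ 1`; for `s = 0` it is
  one number) and `Nat.size (pp e s) ≤ 3 * s + e + 1` (for `s = 0` one number).
* `ll_le`: `ll ≤ (3 * t + e + 1) * 2 ^ (3 * t + e + 1)`, a polynomial in `2 ^ t ≤ 64 * s`, so a polynomial of degree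
  `4` in `s`, which is at most a constant times `2 ^ s` (any proof that
  `s ^ 4 ≤ c * 2 ^ s` for all `s`, e.g. `Nat.choose`/induction from a threshold, or
  `s ≤ 8 * 2 ^ (s / 8) ...`; `(s / 4 + 1) ≤ 2 ^ (s / 4)` gives `s ^ 4 ≤ 4 ^ 4 * (s / 4 + 1) ^ 4 ≤ 256 * 2 ^ s`).
* `MM_le`: `P0 e s ^ 2 ≤ 2 ^ (2 * dd * b0)`, `P1` is `P0 e t` with `2 ^ t ≤ 64 * s ≤ 64 * 2 ^ s`.
-/

set_option autoImplicit false

namespace LSA

open LSC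

theorem pp_ge {e s : ℕ} (he : 2 ≤ e) (hs : 5 ≤ s) : 16 * mm e s ≤ pp e s := by
  refine le_trans ?_ pp_spec.2.1
  have h4 : (4 : ℕ) ^ s = 2 ^ (2 * s) := by rw [pow_mul]; norm_num
  calc 16 * mm e s ≤ 2 ^ 4 * (2 ^ e * 4 ^ s) := Nat.mul_le_mul (by norm_num) (mm_le (by omega))
    _ = 2 ^ (4 + (e + 2 * s)) := by rw [h4, pow_add 2 4, pow_add 2 e]
    _ ≤ 2 ^ (3 * s + e) := Nat.pow_le_pow_right (by norm_num) (by omega)

theorem pp_lt {e s : ℕ} (hs : 1 ≤ s) : pp e s < 2 ^ b0 e s := pp_spec.2.2 (by omega)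

private theorem two_pow_s1_ge (s : ℕ) : 32 * (s + 1) ≤ 2 ^ s1 s := by
  unfold s1
  have h : s < 2 ^ Nat.size s := Nat.lt_size_self s
  rw [pow_add]
  omega

private theorem two_pow_s1_le (s : ℕ) : 2 ^ s1 s ≤ 64 * (s + 1) := by
  unfold s1
  have h : 2 ^ Nat.size s ≤ 2 * (s + 1) := by
    rcases Nat.eq_zero_or_pos (Nat.size s) with h0 | h0
    · rw [h0, pow_zero]
      omega
    · obtain ⟨k, hk⟩ : ∃ k, Nat.size s = k + 1 := ⟨Nat.size s - 1, by omega⟩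
      have h1 : 2 ^ k ≤ s := Nat.lt_size.1 (by omega)
      rw [hk, pow_succ]
      omega
  rw [pow_add]
  omega

theorem msg2 {e s i τ : ℕ} (he : 2 ≤ e) (hs : 5 ≤ s) (hi : i < b0 e s) (hτ : τ < pp e s) :
    i + 2 ^ ww e s * τ < 2 ^ (s1 s * dd e (s1 s)) := by
  have h1 : b0 e s ≤ 2 ^ ww e s := bits_le he (by omega)
  have h2 : pp e s < 2 ^ b0 e s := pp_lt (by omega)
  have h3 : 2 ^ ww e s * (τ + 1) ≤ 2 ^ ww e s * 2 ^ b0 e s := Nat.mul_le_mul_left _ (by omega)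
  have h4 : ww e s + b0 e s ≤ s1 s * dd e (s1 s) := by
    have h5 : e * 2 ^ s1 s ≤ s1 s * dd e (s1 s) := msg_le (by unfold s1; omega)
    have h6 : e * (32 * (s + 1)) ≤ e * 2 ^ s1 s := Nat.mul_le_mul_left _ (two_pow_s1_ge s)
    have h7 : 2 * s ≤ e * s := Nat.mul_le_mul_right _ he
    have h8 : e * (32 * (s + 1)) = 32 * (e * s) + 32 * e := by ring
    have h9 : ww e s + b0 e s = 4 * s + 2 * e + 1 := by unfold ww b0; ring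
    omega
  calc i + 2 ^ ww e s * τ < 2 ^ ww e s * (τ + 1) := by
        rw [Nat.mul_add, mul_one]
        omega
    _ ≤ 2 ^ ww e s * 2 ^ b0 e s := h3
    _ = 2 ^ (ww e s + b0 e s) := (pow_add _ _ _).symm
    _ ≤ _ := Nat.pow_le_pow_right (by norm_num) h4

private theorem dd_mul_le (e s : ℕ) :
    dd e s * (3 * s + e + 2) ≤ (3 * (e + 1) + (e + 2) * 2 ^ e) * 2 ^ s := by
  have h1 := sdd_le' e s
  have h2 := dd_le e s
  have h3 : s ≤ 2 ^ s := Nat.lt_two_pow_self.le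
  calc dd e s * (3 * s + e + 2) = 3 * (s * dd e s) + (e + 2) * dd e s := by ring
    _ ≤ 3 * (e * 2 ^ s + s) + (e + 2) * (2 ^ e * 2 ^ s) := by gcongr
    _ ≤ 3 * (e * 2 ^ s + 2 ^ s) + (e + 2) * (2 ^ e * 2 ^ s) := by gcongr
    _ = _ := by ring

theorem dpp_le (e : ℕ) : ∃ c, ∀ s, dd e s * Nat.size (pp e s) ≤ c * 2 ^ s := by
  refine ⟨3 * (e + 1) + (e + 2) * 2 ^ e, fun s => le_trans ?_ (dd_mul_le e s)⟩
  refine Nat.mul_le_mul_left _ (Nat.size_le.2 ?_)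
  exact lt_of_le_of_lt pp_aux (Nat.pow_lt_pow_right (by norm_num) (by omega))

theorem two_pow_s1 (s : ℕ) : 2 ^ s1 s ≤ 64 * 2 ^ s := by
  have h1 : s + 1 ≤ 2 ^ s := Nat.lt_two_pow_self
  exact (two_pow_s1_le s).trans (Nat.mul_le_mul_left _ h1)

private theorem six_pow_le (s : ℕ) : (s + 1) ^ 6 ≤ 6 ^ 6 * 2 ^ s := by
  have h1 : s / 6 + 1 ≤ 2 ^ (s / 6) := Nat.lt_two_pow_self
  have h2 : s + 1 ≤ 6 * (s / 6 + 1) := by omega
  calc (s + 1) ^ 6 ≤ (6 * (s / 6 + 1)) ^ 6 := Nat.pow_le_pow_left h2 6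
    _ = 6 ^ 6 * (s / 6 + 1) ^ 6 := mul_pow _ _ _
    _ ≤ 6 ^ 6 * (2 ^ (s / 6)) ^ 6 := Nat.mul_le_mul_left _ (Nat.pow_le_pow_left h1 6)
    _ = 6 ^ 6 * 2 ^ (s / 6 * 6) := by rw [← pow_mul]
    _ ≤ 6 ^ 6 * 2 ^ s := Nat.mul_le_mul_left _ (Nat.pow_le_pow_right (by norm_num) (by omega))

theorem ll_le (e : ℕ) : ∃ c, ∀ s, ll e s ≤ c * 2 ^ s := by
  refine ⟨2 ^ (2 * e + 2) * (64 ^ 6 * 6 ^ 6), fun s => ?_⟩
  unfold ll b0
  have h1 : 3 * s1 s + e + 1 ≤ 2 ^ (3 * s1 s + e + 1) := Nat.lt_two_pow_self.le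
  calc (3 * s1 s + e + 1) * pp e (s1 s) ≤ 2 ^ (3 * s1 s + e + 1) * 2 ^ (3 * s1 s + e + 1) :=
        Nat.mul_le_mul h1 pp_aux
    _ = 2 ^ (2 * e + 2) * (2 ^ s1 s) ^ 6 := by
        rw [← pow_add, ← pow_mul, ← pow_add]
        congr 1
        ring
    _ ≤ 2 ^ (2 * e + 2) * (64 * (s + 1)) ^ 6 :=
        Nat.mul_le_mul_left _ (Nat.pow_le_pow_left (two_pow_s1_le s) 6)
    _ = 2 ^ (2 * e + 2) * (64 ^ 6 * (s + 1) ^ 6) := by rw [mul_pow]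
    _ ≤ 2 ^ (2 * e + 2) * (64 ^ 6 * (6 ^ 6 * 2 ^ s)) :=
        Nat.mul_le_mul_left _ (Nat.mul_le_mul_left _ (six_pow_le s))
    _ = _ := by ring

private theorem P0_pos (e s : ℕ) : 0 < P0 e s := pow_pos pp_spec.1.pos _

theorem MM_pos (e s : ℕ) : 0 < MM e s := by
  unfold MM P1
  have h0 := P0_pos e s
  have h1 := P0_pos e (s1 s)
  positivity

private theorem P0_le (e : ℕ) : ∃ c, ∀ s, P0 e s ≤ 2 ^ (c * 2 ^ s) := by
  refine ⟨3 * (e + 1) + (e + 2) * 2 ^ e, fun s => ?_⟩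
  unfold P0
  calc pp e s ^ dd e s ≤ (2 ^ (3 * s + e + 2)) ^ dd e s := by
        refine Nat.pow_le_pow_left (pp_aux.trans ?_) _
        exact Nat.pow_le_pow_right (by norm_num) (by omega)
    _ = 2 ^ (dd e s * (3 * s + e + 2)) := by rw [← pow_mul, mul_comm]
    _ ≤ _ := Nat.pow_le_pow_right (by norm_num) (dd_mul_le e s)

theorem MM_le (e : ℕ) : ∃ c, ∀ s, MM e s ≤ 2 ^ (c * 2 ^ s) := by
  obtain ⟨c, hc⟩ := P0_le e
  obtain ⟨c', hc'⟩ := ll_le e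
  refine ⟨2 * c + 128 * c + c', fun s => ?_⟩
  have h1 := hc s
  have h2 : P1 e s ≤ 2 ^ (64 * c * 2 ^ s) := by
    refine (hc (s1 s)).trans (Nat.pow_le_pow_right (by norm_num) ?_)
    calc c * 2 ^ s1 s ≤ c * (64 * 2 ^ s) := Nat.mul_le_mul_left _ (two_pow_s1 s)
      _ = _ := by ring
  have h3 : 2 ^ ll e s ≤ 2 ^ (c' * 2 ^ s) := Nat.pow_le_pow_right (by norm_num) (hc' s)
  unfold MM
  calc P0 e s * P0 e s * (P1 e s * P1 e s) * 2 ^ ll e s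
      ≤ 2 ^ (c * 2 ^ s) * 2 ^ (c * 2 ^ s) * (2 ^ (64 * c * 2 ^ s) * 2 ^ (64 * c * 2 ^ s)) *
        2 ^ (c' * 2 ^ s) := by gcongr
    _ = _ := by
        rw [← pow_add, ← pow_add, ← pow_add, ← pow_add]
        congr 1
        ring

end LSA
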