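import Pool.Agent.H69B.XorN
import Pool.Agent.H69B.Avg
import Pool.Agent.H69B.ParB
import Pool.Agent.H69A.Num

/-!
# H69B/Find: the advice exists

Module `H69B/Find`. Choose `k ≥ 1` with `h * (127 / 128) ^ k ≤ 1`, `K₀` with `(256 * (128 / 127) ^ k) ^ 2 ≤ K₀`, and `K ≥ 1`
with `2 * h * MM e s ^ k ≤ 2 ^ (K * 2 ^ s)` for all `s` (`MM_le`; `2 * h ≤ 2 ^ (2 * h)`), `W = c * (K + 1) + K + k + 1`. Let
`s ≥ 5`, `n = K * 2 ^ s`, `B = MM e s ^ k`. For `x < 2 ^ n`: `Nat.size (2 ^ n + x) = n + 1` and `sB K (2 ^ n + x) = s`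
(`LSC.mu_eq`; `s < n + 1`, and `K * 2 ^ s' = K * 2 ^ s` only for `s' = s`), so
`LX K k e f (2 ^ n + x) ↔ xl k (MM e s) (L1 e s (f s)) x`. For `x = X + B * J`, `X < B`: the first `k` digits of `x` in base
`MM e s` are those of `X`, so `xl ... x ↔ xl ... X`. `junk` gives `J`, and `xor_pred` with
`C X = Q (2 ^ n + (X + B * J), A n)` gives `j`, `u`, `b` (the hypothesis: `(h + 1) * B ≤ 2 * h * #` and
`(127 / 128) ^ k ≤ 1 / h`). Pack: the digits in base `2 ^ (W * 2 ^ s)` are `A n`, `J`, `j`, then `u 0, ..., u (K₀ - 1)`, then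
`b 0, ..., b (K₀ - 1)` (`dsum_lt`, `dgt_dsum`; all are smaller than `2 ^ (W * 2 ^ s)`: `A n < 2 ^ Nat.size (A n)`,
`J ≤ 2 ^ n`, `j < k`, `u i < B ≤ 2 ^ n`, `b i < 2`). `Nat.size_le` for the size of the sum; for `i < K₀` only the values
with `i < K₀` matter in `mj K₀`.
-/

set_option autoImplicit false

namespace LSA

open LSC

private theorem size_pow_add {n x : ℕ} (hx : x < 2 ^ n) : Nat.size (2 ^ n + x) = n + 1 := by
  apply le_antisymm
  · rw [Nat.size_le, pow_succ]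
    omega
  · exact Nat.lt_size.mpr (by omega)

private theorem sB_eq {K s x : ℕ} (hK : 1 ≤ K) (hs : 5 ≤ s) (hx : x < 2 ^ (K * 2 ^ s)) :
    sB K (2 ^ (K * 2 ^ s) + x) = s := by
  have hsz := size_pow_add hx
  have h1 : s < 2 ^ s := Nat.lt_two_pow_self
  have h2 : 2 ^ s ≤ K * 2 ^ s := Nat.le_mul_of_pos_left _ hK
  apply mu_eq
  · rw [hsz]
    omega
  · exact ⟨hs, hsz.symm⟩
  · rintro j hj ⟨_, h3⟩
    rw [hsz] at h3
    have h4 : K * 2 ^ j = K * 2 ^ s := by omega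
    have h5 : 2 ^ j = 2 ^ s := Nat.eq_of_mul_eq_mul_left hK h4
    have h6 := Nat.pow_right_injective (le_refl 2) h5
    omega

private theorem LX_iff {K k e s x : ℕ} (f : ℕ → ℕ → Prop) (hK : 1 ≤ K) (hs : 5 ≤ s)
    (hx : x < 2 ^ (K * 2 ^ s)) :
    LX K k e f (2 ^ (K * 2 ^ s) + x) ↔ xl k (MM e s) (L1 e s (f s)) x := by
  unfold LX
  rw [sB_eq hK hs hx, size_pow_add hx, Nat.add_sub_cancel_left]
  have h1 : s < 2 ^ s := Nat.lt_two_pow_self
  have h2 : 2 ^ s ≤ K * 2 ^ s := Nat.le_mul_of_pos_left _ hK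
  constructor
  · exact fun h => h.2
  · exact fun h => ⟨by omega, h⟩

private theorem xl_add {k M : ℕ} (hM : 0 < M) (L : ℕ → Prop) (X J : ℕ) :
    xl k M L (X + M ^ k * J) ↔ xl k M L X := by
  classical
  unfold xl
  have h1 : ((Finset.range k).filter fun i => L ((X + M ^ k * J) / M ^ i % M)) =
      (Finset.range k).filter fun i => L (X / M ^ i % M) := by
    apply Finset.filter_congr
    intro i hi
    rw [Finset.mem_range] at hi
    obtain ⟨t, rfl⟩ : ∃ t, k = i + 1 + t := ⟨k - i - 1, by omega⟩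
    have h2 : M ^ (i + 1 + t) * J = M ^ i * (M * (M ^ t * J)) := by
      rw [pow_add, pow_succ]
      ring
    rw [h2, Nat.add_mul_div_left _ _ (pow_pos hM i), Nat.add_mul_mod_self_left]
  rw [h1]

private theorem mj_congr {K : ℕ} {φ ψ : ℕ → Prop} (h : ∀ i < K, (φ i ↔ ψ i)) : mj K φ ↔ mj K ψ := by
  classical
  unfold mj
  have h1 : ((Finset.range K).filter fun i => φ i) = (Finset.range K).filter fun i => ψ i := by
    apply Finset.filter_congr
    intro i hi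
    exact h i (Finset.mem_range.mp hi)
  rw [h1]

open Classical in
theorem find_adv {h : ℕ} (hh : 0 < h) (e : ℕ) : ∃ k K K₀, 1 ≤ K ∧ ∀ (f : ℕ → ℕ → Prop)
    (Q : ℕ × ℕ → Prop) (A : ℕ → ℕ) (c : ℕ), (∀ n, Nat.size (A n) ≤ c * (n + 1)) →
    (∀ n, (h + 2) * 2 ^ n ≤ 2 * h * ((Finset.range (2 ^ n)).filter fun x =>
      LX K k e f (2 ^ n + x) ↔ Q (2 ^ n + x, A n)).card) →
    ∃ W, ∀ s, 5 ≤ s → ∃ u, Nat.size u ≤ W * 2 ^ s * (3 + 2 * K₀) ∧
      64 * ((Finset.range (MM e s)).filter fun x =>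
        ¬ (L1 e s (f s) x ↔ QU K k K₀ W e s Q u x)).card ≤ MM e s := by
  have hhR : (0 : ℝ) < h := by exact_mod_cast hh
  obtain ⟨k', hk'⟩ := exists_pow_lt_of_lt_one (show (0 : ℝ) < 1 / h by positivity)
    (show (127 / 128 : ℝ) < 1 by norm_num)
  obtain ⟨k, hk1, hkh⟩ : ∃ k : ℕ, 1 ≤ k ∧ (127 / 128 : ℝ) ^ k ≤ 1 / h := by
    refine ⟨k' + 1, by omega, ?_⟩
    calc (127 / 128 : ℝ) ^ (k' + 1) ≤ (127 / 128 : ℝ) ^ k' :=
          pow_le_pow_of_le_one (by norm_num) (by norm_num) (by omega)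
      _ ≤ 1 / h := hk'.le
  obtain ⟨c₁, hc₁⟩ := MM_le e
  set K₀ : ℕ := ⌈(256 * (128 / 127 : ℝ) ^ k) ^ 2⌉₊ with hK₀
  set K : ℕ := c₁ * k + 2 * h + 1 with hKdef
  have hK1 : 1 ≤ K := by omega
  refine ⟨k, K, K₀, hK1, fun f Q A c hA hQ => ⟨c * (K + 1) + K + k + 1, fun s hs => ?_⟩⟩
  set W : ℕ := c * (K + 1) + K + k + 1 with hW
  set M : ℕ := MM e s with hMdef
  have hM : 0 < M := MM_pos e s
  have h2s : 1 ≤ 2 ^ s := Nat.one_le_two_pow
  have hB : 0 < M ^ k := pow_pos hM k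
  set n : ℕ := K * 2 ^ s with hn
  have hBn : 2 * h * M ^ k ≤ 2 ^ n := by
    have e1 : 2 * h ≤ 2 ^ (2 * h * 2 ^ s) := by
      calc 2 * h ≤ 2 ^ (2 * h) := Nat.lt_two_pow_self.le
        _ ≤ 2 ^ (2 * h * 2 ^ s) := Nat.pow_le_pow_right (by norm_num) (Nat.le_mul_of_pos_right _ h2s)
    have e2 : M ^ k ≤ 2 ^ (c₁ * k * 2 ^ s) := by
      calc M ^ k ≤ (2 ^ (c₁ * 2 ^ s)) ^ k := Nat.pow_le_pow_left (hc₁ s) k
        _ = 2 ^ (c₁ * k * 2 ^ s) := by rw [← pow_mul]; congr 1; ring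
    calc 2 * h * M ^ k ≤ 2 ^ (2 * h * 2 ^ s) * 2 ^ (c₁ * k * 2 ^ s) := Nat.mul_le_mul e1 e2
      _ = 2 ^ (2 * h * 2 ^ s + c₁ * k * 2 ^ s) := by rw [pow_add]
      _ ≤ 2 ^ n := by
          apply Nat.pow_le_pow_right (by norm_num)
          rw [hn, hKdef]
          nlinarith
  obtain ⟨G, hG⟩ : ∃ G : ℕ → Prop, ∀ x, G x ↔ (LX K k e f (2 ^ n + x) ↔ Q (2 ^ n + x, A n)) :=
    ⟨fun x => LX K k e f (2 ^ n + x) ↔ Q (2 ^ n + x, A n), fun x => Iff.rfl⟩
  have hGn : (h + 2) * 2 ^ n ≤ 2 * h * ((Finset.range (2 ^ n)).filter fun x => G x).card := by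
    have e0 : ((Finset.range (2 ^ n)).filter fun x => G x) = (Finset.range (2 ^ n)).filter fun x =>
        (LX K k e f (2 ^ n + x) ↔ Q (2 ^ n + x, A n)) := Finset.filter_congr fun x _ => hG x
    rw [e0]
    exact hQ n
  obtain ⟨J, hJ1, hJ2⟩ := junk hB hh hBn G hGn
  set L : ℕ → Prop := L1 e s (f s) with hL
  set C : ℕ → Prop := fun X => Q (2 ^ n + (X + M ^ k * J), A n) with hC
  have hset : ((Finset.range (M ^ k)).filter fun X => G (X + M ^ k * J)) =
      (Finset.range (M ^ k)).filter fun X => (C X ↔ xl k M L X) := by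
    apply Finset.filter_congr
    intro X hX
    rw [Finset.mem_range] at hX
    have hlt : X + M ^ k * J < 2 ^ (K * 2 ^ s) := by
      have h3 : M ^ k * (J + 1) = M ^ k * J + M ^ k := by ring
      rw [← hn]
      calc X + M ^ k * J < M ^ k + M ^ k * J := Nat.add_lt_add_right hX _
        _ = M ^ k * (J + 1) := by ring
        _ ≤ 2 ^ n := hJ1
    rw [hG, LX_iff f hK1 hs hlt, xl_add hM]
    exact Iff.comm
  rw [hset] at hJ2
  have hCr : ((1 : ℝ) + (127 / 128) ^ k) * (M : ℝ) ^ k ≤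
      2 * ((Finset.range (M ^ k)).filter fun X => C X ↔ xl k M L X).card := by
    set N : ℕ := ((Finset.range (M ^ k)).filter fun X => C X ↔ xl k M L X).card with hN
    have e1 : ((h : ℝ) + 1) * (M : ℝ) ^ k ≤ 2 * h * N := by exact_mod_cast hJ2
    have e2 : (0 : ℝ) ≤ (M : ℝ) ^ k := by positivity
    calc ((1 : ℝ) + (127 / 128) ^ k) * (M : ℝ) ^ k ≤ (1 + 1 / h) * (M : ℝ) ^ k := by gcongr
      _ = ((h : ℝ) + 1) * (M : ℝ) ^ k / h := by field_simp
      _ ≤ 2 * h * N / h := by gcongr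
      _ = 2 * N := by field_simp
  have hK₀r : (256 * (128 / 127 : ℝ) ^ k) ^ 2 ≤ K₀ := Nat.le_ceil _
  obtain ⟨j, hj, u, b, hu, hb, hfin⟩ := xor_pred hk1 hM hK₀r L C hCr
  -- the packed advice
  set w : ℕ := W * 2 ^ s with hw
  have hBle : M ^ k ≤ 2 ^ n := le_trans (Nat.le_mul_of_pos_right _ (by omega)) hJ1
  have hnw : n ≤ w := by
    rw [hn, hw, hW]
    apply Nat.mul_le_mul_right
    omega
  have hnw' : 2 ^ n ≤ 2 ^ w := Nat.pow_le_pow_right (by norm_num) hnw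
  have hkw : k < 2 ^ w := by
    calc k < 2 ^ k := Nat.lt_two_pow_self
      _ ≤ 2 ^ w := by
        apply Nat.pow_le_pow_right (by norm_num)
        rw [hw, hW]
        calc k ≤ c * (K + 1) + K + k + 1 := by omega
          _ ≤ _ := Nat.le_mul_of_pos_right _ h2s
  have hw1 : 1 ≤ w := by
    rw [hw, hW]
    calc 1 ≤ c * (K + 1) + K + k + 1 := by omega
      _ ≤ _ := Nat.le_mul_of_pos_right _ h2s
  have h2w : 2 ≤ 2 ^ w := by
    calc 2 = 2 ^ 1 := by norm_num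
      _ ≤ 2 ^ w := Nat.pow_le_pow_right (by norm_num) hw1
  have hAw : A n < 2 ^ w := by
    calc A n < 2 ^ Nat.size (A n) := Nat.lt_size_self _
      _ ≤ 2 ^ w := by
        apply Nat.pow_le_pow_right (by norm_num)
        calc Nat.size (A n) ≤ c * (n + 1) := hA n
          _ ≤ c * ((K + 1) * 2 ^ s) := by
              apply Nat.mul_le_mul_left
              rw [hn]
              nlinarith
          _ = c * (K + 1) * 2 ^ s := by ring
          _ ≤ w := by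
              rw [hw, hW]
              apply Nat.mul_le_mul_right
              omega
  have hJw : J < 2 ^ w := by
    have : J + 1 ≤ M ^ k * (J + 1) := Nat.le_mul_of_pos_left _ hB
    omega
  set v : ℕ → ℕ := fun t => if t = 0 then A n else if t = 1 then J else if t = 2 then j else
    if t < 3 + K₀ then u (t - 3) else b (t - 3 - K₀) with hv
  have hvlt : ∀ t < 3 + 2 * K₀, v t < 2 ^ w := by
    intro t _
    simp only [hv]
    split_ifs
    · exact hAw
    · exact hJw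
    · omega
    · exact lt_of_lt_of_le (hu _) (hBle.trans hnw')
    · exact lt_of_lt_of_le (hb _) h2w
  set u' : ℕ := ∑ t ∈ Finset.range (3 + 2 * K₀), v t * 2 ^ (w * t) with hu'
  have hd : ∀ t < 3 + 2 * K₀, dgt w u' t = v t := fun t ht => dgt_dsum v hvlt ht
  have hd0 : dgt w u' 0 = A n := by
    rw [hd 0 (by omega)]
    simp [hv]
  have hd1 : dgt w u' 1 = J := by
    rw [hd 1 (by omega)]
    simp [hv]
  have hd2 : dgt w u' 2 = j := by
    rw [hd 2 (by omega)]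
    simp [hv]
  have hd3 : ∀ i < K₀, dgt w u' (3 + i) = u i := by
    intro i hi
    rw [hd (3 + i) (by omega)]
    simp only [hv]
    rw [if_neg (by omega), if_neg (by omega), if_neg (by omega), if_pos (by omega)]
    congr 1
    omega
  have hd4 : ∀ i < K₀, dgt w u' (3 + K₀ + i) = b i := by
    intro i hi
    rw [hd (3 + K₀ + i) (by omega)]
    simp only [hv]
    rw [if_neg (by omega), if_neg (by omega), if_neg (by omega), if_neg (by omega)]
    congr 1
    omega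
  refine ⟨u', Nat.size_le.mpr (dsum_lt v hvlt), ?_⟩
  have hQU : ∀ x, QU K k K₀ W e s Q u' x ↔
      mj K₀ fun i => ¬ (C (rd M j (u i) x) ↔ b i = 1) := by
    intro x
    unfold QU
    apply mj_congr
    intro i hi
    rw [← hw, hd0, hd1, hd2, hd3 i hi, hd4 i hi, min_eq_left hj.le]
  have hset2 : ((Finset.range M).filter fun x => ¬ (L x ↔ QU K k K₀ W e s Q u' x)) =
      (Finset.range M).filter fun x =>
        ¬ (L x ↔ mj K₀ fun i => ¬ (C (rd M j (u i) x) ↔ b i = 1)) := by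
    apply Finset.filter_congr
    intro x _
    rw [hQU x]
  rw [hset2]
  exact hfin

end LSA
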