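import Pool.Agent.H69B.FnP
import Pool.Agent.H69B.ParB

/-!
# H69B/FnPar: definability of the parameters

Module `H69B/FnPar`. `s : α → ℕ` with `Fn C s` and `Sm s` (`2 ^ s a` is linear in the length of `a`).
`two_pow_s1`, `dpp_le`, `ll_le`, `MM_le`; `Fn.dd`, `Fn.pp`, `Fn.mm`, `Fn.ww` from `H69A/FnB`. For `MM ^ k` and
`MM ^ min j k`: `Ln (MM ...) (fun _ => k)` (`Nat.size (MM e s) ≤ c * 2 ^ s + 1` by `Nat.size_le`).
-/

set_option autoImplicit false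

namespace LSA

open LSC

variable {C : NClass} [Calc C] {α : Type} [Ctx α]

protected theorem Fn.s1 {s : α → ℕ} (hs : Fn C s) : Fn C (fun a => s1 (s a)) := by
  have h : Fn C (fun a => Nat.size (s a) + 5) := by fun_prop
  exact h

theorem Sm.s1 {s : α → ℕ} (h : Sm s) : Sm (fun a => s1 (s a)) := by
  obtain ⟨c, hc⟩ := h
  refine ⟨64 * c, fun a => ?_⟩
  calc 2 ^ LSA.s1 (s a) ≤ 64 * 2 ^ s a := two_pow_s1 _
    _ ≤ 64 * (c * (sz a + 1)) := Nat.mul_le_mul_left _ (hc a)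
    _ = 64 * c * (sz a + 1) := by ring

protected theorem Fn.b0 (e : ℕ) {s : α → ℕ} (hs : Fn C s) : Fn C (fun a => b0 e (s a)) := by
  have h : Fn C (fun a => 3 * s a + e + 1) := by fun_prop
  exact h

/-- a function of `s` bounded by a multiple of `2 ^ s` is linear -/
theorem Sm.lin' {s : α → ℕ} (h : Sm s) {f : ℕ → ℕ} (hf : ∃ c, ∀ n, f n ≤ c * 2 ^ n) :
    ∃ c, ∀ a, f (s a) ≤ c * (sz a + 1) := by
  obtain ⟨c, hc⟩ := hf
  exact h.lin ⟨c, fun n _ => hc n⟩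

theorem b0_lin (e : ℕ) {s : α → ℕ} (h : Sm s) : ∃ c, ∀ a, b0 e (s a) ≤ c * (sz a + 1) := by
  refine h.lin' ⟨3 + e + 1, fun n => ?_⟩
  have h1 : n ≤ 2 ^ n := Nat.lt_two_pow_self.le
  have h2 : 1 ≤ 2 ^ n := Nat.one_le_two_pow
  unfold b0
  nlinarith

theorem Ln.pd (e : ℕ) {s : α → ℕ} (h : Sm s) : Ln (fun a => pp e (s a)) (fun a => dd e (s a)) :=
  h.lin' (f := fun n => dd e n * Nat.size (pp e n)) (dpp_le e)

theorem sd_lin (e : ℕ) {s : α → ℕ} (h : Sm s) : ∃ c, ∀ a, s a * dd e (s a) ≤ c * (sz a + 1) :=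
  h.lin' (f := fun n => n * dd e n) (sdd_le e)

theorem ll_lin (e : ℕ) {s : α → ℕ} (h : Sm s) : ∃ c, ∀ a, ll e (s a) ≤ c * (sz a + 1) :=
  h.lin' (f := fun n => ll e n) (ll_le e)

protected theorem Fn.P0 (e : ℕ) {s : α → ℕ} (hs : Fn C s) (h : Sm s) : Fn C (fun a => P0 e (s a)) := by
  have h1 : Fn C (fun a => pp e (s a) ^ dd e (s a)) :=
    Fn.powLn (Fn.pp e hs h) (Fn.dd e hs h) (Ln.pd e h) (fun a => le_rfl)
  exact h1

protected theorem Fn.P1 (e : ℕ) {s : α → ℕ} (hs : Fn C s) (h : Sm s) : Fn C (fun a => P1 e (s a)) := by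
  have h1 : Fn C (fun a => P0 e (LSA.s1 (s a))) := Fn.P0 e (Fn.s1 hs) (Sm.s1 h)
  exact h1

protected theorem Fn.ll (e : ℕ) {s : α → ℕ} (hs : Fn C s) (h : Sm s) : Fn C (fun a => ll e (s a)) := by
  have h1 : Fn C (fun a => b0 e (LSA.s1 (s a))) := Fn.b0 e (Fn.s1 hs)
  have h2 : Fn C (fun a => pp e (LSA.s1 (s a))) := Fn.pp e (Fn.s1 hs) (Sm.s1 h)
  have h3 : Fn C (fun a => b0 e (LSA.s1 (s a)) * pp e (LSA.s1 (s a))) := by fun_prop
  exact h3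

protected theorem Fn.MM (e : ℕ) {s : α → ℕ} (hs : Fn C s) (h : Sm s) : Fn C (fun a => MM e (s a)) := by
  have h0 := Fn.P0 e hs h
  have h1 := Fn.P1 e hs h
  have h2 : Fn C (fun a => 2 ^ ll e (s a)) := by
    obtain ⟨c, hc⟩ := ll_lin e h
    exact Fn.pow2 (Fn.ll e hs h) c hc
  have h3 : Fn C (fun a => P0 e (s a) * P0 e (s a) * (P1 e (s a) * P1 e (s a)) * 2 ^ ll e (s a)) := by
    fun_prop
  exact h3

theorem Ln.MM (e k : ℕ) {s : α → ℕ} (h : Sm s) : Ln (fun a => MM e (s a)) (fun _ => k) := by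
  obtain ⟨c, hc⟩ := MM_le e
  refine h.lin' (f := fun n => k * Nat.size (LSA.MM e n)) ⟨k * (c + 1), fun n => ?_⟩
  have h1 : Nat.size (LSA.MM e n) ≤ c * 2 ^ n + 1 := by
    rw [Nat.size_le, pow_succ]
    have := hc n
    have h2 : 0 < 2 ^ (c * 2 ^ n) := by positivity
    omega
  have h2 : 1 ≤ 2 ^ n := Nat.one_le_two_pow
  calc k * Nat.size (LSA.MM e n) ≤ k * (c * 2 ^ n + 1) := Nat.mul_le_mul_left _ h1
    _ ≤ k * ((c + 1) * 2 ^ n) := Nat.mul_le_mul_left _ (by nlinarith)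
    _ = k * (c + 1) * 2 ^ n := by ring

/-- powers of two with exponents linear in `2 ^ s` -/
protected theorem Fn.pow_mul (K : ℕ) {s : α → ℕ} (hs : Fn C s) (h : Sm s) :
    Fn C (fun a => 2 ^ (K * 2 ^ s a)) := by
  obtain ⟨c, hc⟩ := h.lin' (f := fun n => K * 2 ^ n) ⟨K, fun n => le_rfl⟩
  have h1 : Fn C (fun a => 2 ^ s a) := Fn.two_pow hs h
  exact Fn.pow2 (by fun_prop) c hc

end LSA
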