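import Pool.Agent.H69B.FnD
import Pool.Agent.H69B.FnPar

/-!
# H69B/FnDB: the decoder belongs to every class which contains the answers

Module `H69B/FnDB`. `Pr.hdec`, `Fn.bits`, `Fn.pm`, `Pr.de` and the parameters of `H69B/FnPar`; contexts are
products, `Sm.comp`, `Ln.comp` for the projections. One lemma for each of `S1`, `T1`, `f1`, `T0`, `DB`, each for all
arguments depending on the context `a` (then compose).
-/

set_option autoImplicit false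

namespace LSA

open LSC

variable {C : NClass} [Calc C] {α : Type} [Ctx α]

protected theorem Pr.S1 (e : ℕ) {s a' z v i : α → ℕ} {Q : α → ℕ → Prop} (hs : Fn C s) (h : Sm s)
    (hQ : Pr C (fun q : α × ℕ => Q q.1 q.2)) (ha : Fn C a') (hz : Fn C z) (hv : Fn C v)
    (hi : Fn C i) : Pr C (fun a => S1 e (s a) (Q a) (a' a) (z a) (v a) (i a)) := by
  have hs' : Fn C (fun q : α × ℕ => s q.1) := hs.comp Fn.fst
  have h' : Sm (fun q : α × ℕ => s q.1) := h.comp (Fn.fst (C := C))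
  have hP0 : Fn C (fun q : α × ℕ => P0 e (s q.1)) := Fn.P0 e hs' h'
  have hP1 : Fn C (fun q : α × ℕ => P1 e (s q.1)) := Fn.P1 e hs' h'
  have ha' : Fn C (fun q : α × ℕ => a' q.1) := ha.comp Fn.fst
  have hz' : Fn C (fun q : α × ℕ => z q.1) := hz.comp Fn.fst
  have hv' : Fn C (fun q : α × ℕ => v q.1) := hv.comp Fn.fst
  have hμ : Fn C (fun q : α × ℕ => q.2) := Fn.snd
  have hx : Fn C (fun q : α × ℕ => a' q.1 + P0 e (s q.1) * P0 e (s q.1) *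
      (z q.1 + P1 e (s q.1) * v q.1 + P1 e (s q.1) * P1 e (s q.1) * q.2)) := by
    fun_prop
  have hQ' : Pr C (fun q : α × ℕ => Q q.1 (a' q.1 + P0 e (s q.1) * P0 e (s q.1) *
      (z q.1 + P1 e (s q.1) * v q.1 + P1 e (s q.1) * P1 e (s q.1) * q.2))) :=
    hQ.comp (f := fun q : α × ℕ => (q.1, a' q.1 + P0 e (s q.1) * P0 e (s q.1) *
      (z q.1 + P1 e (s q.1) * v q.1 + P1 e (s q.1) * P1 e (s q.1) * q.2))) (Fn.pair Fn.fst hx)
  unfold LSA.S1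
  exact Pr.hdec (Fn.ll e hs h) (ll_lin e h) hi hQ'

protected theorem Fn.T1 (e : ℕ) {s a' z v τ : α → ℕ} {Q : α → ℕ → Prop} (hs : Fn C s) (h : Sm s)
    (hQ : Pr C (fun q : α × ℕ => Q q.1 q.2)) (ha : Fn C a') (hz : Fn C z) (hv : Fn C v)
    (hτ : Fn C τ) : Fn C (fun a => T1 e (s a) (Q a) (a' a) (z a) (v a) (τ a)) := by
  have hs1 : Fn C (fun a => s1 (s a)) := Fn.s1 hs
  have h1 : Sm (fun a => s1 (s a)) := Sm.s1 h
  have hb : Fn C (fun a => b0 e (s1 (s a))) := Fn.b0 e hs1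
  have hfst : Fn C (fun q : α × ℕ => q.1) := Fn.fst
  have hi : Fn C (fun q : α × ℕ => q.2 + b0 e (s1 (s q.1)) * τ q.1) := by
    have hb' : Fn C (fun q : α × ℕ => b0 e (s1 (s q.1))) := hb.comp Fn.fst
    have hτ' : Fn C (fun q : α × ℕ => τ q.1) := hτ.comp Fn.fst
    have hj : Fn C (fun q : α × ℕ => q.2) := Fn.snd
    fun_prop
  have hQ' : Pr C (fun q : (α × ℕ) × ℕ => Q q.1.1 q.2) :=
    hQ.comp (f := fun q : (α × ℕ) × ℕ => (q.1.1, q.2)) (by fun_prop)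
  have hS : Pr C (fun q : α × ℕ => LSA.S1 e (s q.1) (Q q.1) (a' q.1) (z q.1) (v q.1)
      (q.2 + b0 e (s1 (s q.1)) * τ q.1)) :=
    Pr.S1 (Q := fun q : α × ℕ => Q q.1) e (hs.comp Fn.fst) (h.comp hfst) hQ' (ha.comp Fn.fst)
      (hz.comp Fn.fst) (hv.comp Fn.fst) hi
  unfold LSA.T1
  exact Fn.bits hb (b0_lin e h1) hS

protected theorem Pr.f1 (e : ℕ) {s a' y : α → ℕ} {Q : α → ℕ → Prop} (hs : Fn C s) (h : Sm s)
    (hQ : Pr C (fun q : α × ℕ => Q q.1 q.2)) (ha : Fn C a') (hy : Fn C y) :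
    Pr C (fun a => f1 e (s a) (Q a) (a' a) (y a)) := by
  have hs1 : Fn C (fun a => s1 (s a)) := Fn.s1 hs
  have h1 : Sm (fun a => s1 (s a)) := Sm.s1 h
  have hp : Fn C (fun a => pp e (s1 (s a))) := Fn.pp e hs1 h1
  have hd : Fn C (fun a => dd e (s1 (s a))) := Fn.dd e hs1 h1
  have hm : Fn C (fun a => mm e (s1 (s a))) := Fn.mm e hs1 h1
  have hL : Ln (fun a => pp e (s1 (s a))) (fun a => dd e (s1 (s a))) := Ln.pd e h1
  have hfst : Fn C (fun q : α × ℕ => q.1) := Fn.fst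
  have hc : Fn C (fun q : (α × ℕ) × ℕ × ℕ × ℕ => q.1.1) := by fun_prop
  have hQ' : Pr C (fun q : ((α × ℕ) × ℕ × ℕ × ℕ) × ℕ => Q q.1.1.1 q.2) :=
    hQ.comp (f := fun q : ((α × ℕ) × ℕ × ℕ × ℕ) × ℕ => (q.1.1.1, q.2)) (by fun_prop)
  have hT : Fn C (fun q : (α × ℕ) × ℕ × ℕ × ℕ =>
      LSA.T1 e (s q.1.1) (Q q.1.1) (a' q.1.1) q.2.1 q.2.2.1 q.2.2.2) :=
    Fn.T1 (Q := fun q : (α × ℕ) × ℕ × ℕ × ℕ => Q q.1.1) e (hs.comp hc) (h.comp hc) hQ'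
      (ha.comp hc) (by fun_prop) (by fun_prop) (by fun_prop)
  have hB : Fn C (fun q : α × ℕ => LSA.pm (pp e (s1 (s q.1))) (dd e (s1 (s q.1)))
      (LSA.T1 e (s q.1) (Q q.1) (a' q.1)) q.2) :=
    Fn.pm (T := fun q : α × ℕ => LSA.T1 e (s q.1) (Q q.1) (a' q.1)) (hp.comp hfst) (hd.comp hfst)
      (hL.comp hfst) hT Fn.snd
  unfold LSA.f1
  exact Pr.de (B := fun a => LSA.pm (pp e (s1 (s a))) (dd e (s1 (s a)))
    (LSA.T1 e (s a) (Q a) (a' a))) hp hd hL (fun a => (pp_spec (e := e) (s := s1 (s a))).1.pos)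
    hs1 hm hB hy

protected theorem Fn.T0 (e : ℕ) {s z v τ : α → ℕ} {Q : α → ℕ → Prop} (hs : Fn C s) (h : Sm s)
    (hQ : Pr C (fun q : α × ℕ => Q q.1 q.2)) (hz : Fn C z) (hv : Fn C v) (hτ : Fn C τ) :
    Fn C (fun a => T0 e (s a) (Q a) (z a) (v a) (τ a)) := by
  have hb : Fn C (fun a => b0 e (s a)) := Fn.b0 e hs
  have hfst : Fn C (fun q : α × ℕ => q.1) := Fn.fst
  have hs' : Fn C (fun q : α × ℕ => s q.1) := hs.comp Fn.fst
  have h' : Sm (fun q : α × ℕ => s q.1) := h.comp hfst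
  have hz' : Fn C (fun q : α × ℕ => z q.1) := hz.comp Fn.fst
  have hv' : Fn C (fun q : α × ℕ => v q.1) := hv.comp Fn.fst
  have hτ' : Fn C (fun q : α × ℕ => τ q.1) := hτ.comp Fn.fst
  have hw : Fn C (fun q : α × ℕ => 2 ^ ww e (s q.1)) := Fn.pow_ww e hs' h'
  have hP0 : Fn C (fun q : α × ℕ => P0 e (s q.1)) := Fn.P0 e hs' h'
  have hj : Fn C (fun q : α × ℕ => q.2) := Fn.snd
  have hi : Fn C (fun q : α × ℕ => q.2 + 2 ^ ww e (s q.1) * τ q.1) := by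
    fun_prop
  have hQ' : Pr C (fun q : (α × ℕ) × ℕ => Q q.1.1 q.2) :=
    hQ.comp (f := fun q : (α × ℕ) × ℕ => (q.1.1, q.2)) (by fun_prop)
  have hS : Pr C (fun q : α × ℕ => LSA.f1 e (s q.1) (Q q.1) (z q.1 + P0 e (s q.1) * v q.1)
      (q.2 + 2 ^ ww e (s q.1) * τ q.1)) :=
    Pr.f1 (Q := fun q : α × ℕ => Q q.1) e hs' h' hQ' (by fun_prop) hi
  unfold LSA.T0
  exact Fn.bits hb (b0_lin e h) hS

protected theorem Pr.DB (e : ℕ) {s y : α → ℕ} {Q : α → ℕ → Prop} (hs : Fn C s) (h : Sm s)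
    (hQ : Pr C (fun q : α × ℕ => Q q.1 q.2)) (hy : Fn C y) :
    Pr C (fun a => DB e (s a) (Q a) (y a)) := by
  have hp : Fn C (fun a => pp e (s a)) := Fn.pp e hs h
  have hd : Fn C (fun a => dd e (s a)) := Fn.dd e hs h
  have hm : Fn C (fun a => mm e (s a)) := Fn.mm e hs h
  have hL : Ln (fun a => pp e (s a)) (fun a => dd e (s a)) := Ln.pd e h
  have hfst : Fn C (fun q : α × ℕ => q.1) := Fn.fst
  have hc : Fn C (fun q : (α × ℕ) × ℕ × ℕ × ℕ => q.1.1) := by fun_prop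
  have hQ' : Pr C (fun q : ((α × ℕ) × ℕ × ℕ × ℕ) × ℕ => Q q.1.1.1 q.2) :=
    hQ.comp (f := fun q : ((α × ℕ) × ℕ × ℕ × ℕ) × ℕ => (q.1.1.1, q.2)) (by fun_prop)
  have hT : Fn C (fun q : (α × ℕ) × ℕ × ℕ × ℕ =>
      LSA.T0 e (s q.1.1) (Q q.1.1) q.2.1 q.2.2.1 q.2.2.2) :=
    Fn.T0 (Q := fun q : (α × ℕ) × ℕ × ℕ × ℕ => Q q.1.1) e (hs.comp hc) (h.comp hc) hQ'
      (by fun_prop) (by fun_prop) (by fun_prop)
  have hB : Fn C (fun q : α × ℕ => LSA.pm (pp e (s q.1)) (dd e (s q.1))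
      (LSA.T0 e (s q.1) (Q q.1)) q.2) :=
    Fn.pm (T := fun q : α × ℕ => LSA.T0 e (s q.1) (Q q.1)) (hp.comp hfst) (hd.comp hfst)
      (hL.comp hfst) hT Fn.snd
  unfold LSA.DB
  exact Pr.de (B := fun a => LSA.pm (pp e (s a)) (dd e (s a)) (LSA.T0 e (s a) (Q a))) hp hd hL
    (fun a => (pp_spec (e := e) (s := s a)).1.pos) hs hm hB hy

end LSA
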