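import Pool.Agent.H69B.FnL1

/-!
# H69B/FnLX: the language and the answers computed with the advice

Module `H69B/FnLX`.

* `Pr.LX`: `sB K N` is a `mu` over `s < Nat.size N`; for `s < Nat.size N` the predicate `5 ≤ s ∧ K * 2 ^ s + 1 = Nat.size N`
  is equivalent to `5 ≤ s ∧ K * 2 ^ min s (Nat.size N) + 1 = Nat.size N` (`2 ^ min s (Nat.size N)` has length at most
  `Nat.size N + 1`: `Fn.pow2`). In `LX`, if `sB K N < Nat.size N` then (`LSC.mu_spec`) `K * 2 ^ sB K N < Nat.size N`, so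
  (`K ≥ 1`) `2 ^ sB K N < Nat.size N` and `sB K N < Nat.size (Nat.size N)` (`Nat.lt_size`); replace `sB K N` by
  `s' = min (sB K N) (Nat.size (Nat.size N))`, then `2 ^ s' ≤ 2 * Nat.size N + 1`, so `Sm s'`; `Pr.congr`.
* `Pr.QU`: `mj` is a count over `i < K₀`; `Fn.dgt`; in `rd M j u x` with `j ≤ k`: `M ^ j` and `M ^ (j + 1)` by `Fn.powLn`
  with `Ln.MM e (k + 1)`; `2 ^ (K * 2 ^ s)` by `Fn.pow_mul`, `2 ^ s` by `Fn.two_pow`.
-/

set_option autoImplicit false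

namespace LSA

open LSC

variable {C : NClass} [Calc C]

omit [Calc C] in
theorem mu_congr_lt {n : ℕ} {p q : ℕ → Prop} (h : ∀ i < n, (p i ↔ q i)) : mu n p = mu n q := by
  rcases lt_or_eq_of_le (mu_le n q) with h1 | h1
  · exact mu_eq h1 ((h _ h1).mpr (mu_spec h1)) fun j hj hp =>
      mu_min hj ((h j (hj.trans h1)).mp hp)
  · refine le_antisymm ((mu_le n p).trans h1.ge) ?_
    rw [h1]
    by_contra h2
    have h3 : mu n p < n := by omega
    have h4 := (h _ h3).mp (mu_spec h3)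
    exact mu_min (n := n) (p := q) (i := mu n p) (by omega) h4

theorem fn_sB (K : ℕ) : Fn C (fun N : ℕ => sB K N) := by
  have h1 : Fn C (fun q : ℕ × ℕ => 2 ^ min q.2 (Nat.size q.1)) := by
    refine Fn.pow2 (by fun_prop) 1 fun q => ?_
    obtain ⟨N, s⟩ := q
    simp only [sz_prod, sz_nat]
    have := min_le_right s (Nat.size N)
    omega
  have h2 : Fn C (fun N : ℕ => mu (Nat.size N)
      fun s => 5 ≤ s ∧ K * 2 ^ min s (Nat.size N) + 1 = Nat.size N) := by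
    refine Fn.mu (by fun_prop) ?_
    fun_prop
  refine h2.congr fun N => ?_
  refine mu_congr_lt fun s hs => ?_
  rw [min_eq_left hs.le]

protected theorem Pr.LX {K : ℕ} (hK : 1 ≤ K) (k e : ℕ) {f : ℕ → ℕ → Prop}
    (hf : Pr C (fun q : ℕ × ℕ => f q.1 q.2)) : Pr C (fun N : ℕ => LX K k e f N) := by
  have h0 : Fn C (fun N : ℕ => sB K N) := fn_sB K
  set s' : ℕ → ℕ := fun N => min (sB K N) (Nat.size (Nat.size N)) with hs'
  have h1 : Fn C s' := by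
    have : Fn C (fun N : ℕ => min (sB K N) (Nat.size (Nat.size N))) := by fun_prop
    exact this
  have h2 : Sm s' := by
    refine ⟨2, fun N => ?_⟩
    rw [sz_nat]
    have h3 : 2 ^ s' N ≤ 2 ^ Nat.size (Nat.size N) :=
      Nat.pow_le_pow_right (by norm_num) (min_le_right _ _)
    rcases Nat.eq_zero_or_pos (Nat.size N) with h4 | h4
    · rw [h4] at h3 ⊢
      simp only [Nat.size_zero, pow_zero] at h3
      omega
    · have h5 := pow_size_le (a := Nat.size N) (by omega)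
      omega
  have hP : Fn C (fun N : ℕ => 2 ^ (K * 2 ^ s' N)) := Fn.pow_mul K h1 h2
  have hM : Fn C (fun N : ℕ => MM e (s' N)) := Fn.MM e h1 h2
  have hL : Pr C (fun q : ℕ × ℕ => L1 e (s' q.1) (f (s' q.1)) q.2) := by
    have h3 : Fn C (fun q : ℕ × ℕ => s' q.1) := h1.comp (f := fun q : ℕ × ℕ => q.1) (by fun_prop)
    have h4 : Sm (fun q : ℕ × ℕ => s' q.1) := Sm.comp (C := C) h2 (g := fun q : ℕ × ℕ => q.1) (by fun_prop)
    refine Pr.L1 e (s := fun q : ℕ × ℕ => s' q.1) (x := fun q : ℕ × ℕ => q.2)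
      (f := fun (q : ℕ × ℕ) y => f (s' q.1) y) h3 h4 ?_ (by fun_prop)
    exact hf.comp (f := fun r : (ℕ × ℕ) × ℕ => (s' r.1.1, r.2))
      (Fn.pair (h1.comp (f := fun r : (ℕ × ℕ) × ℕ => r.1.1) (by fun_prop)) (by fun_prop))
  have hX : Pr C (fun N : ℕ => xl k (MM e (s' N)) (L1 e (s' N) (f (s' N)))
      (N - 2 ^ (K * 2 ^ s' N))) :=
    Pr.xl (Fn.const k) hM (Fn.sub Fn.id hP) hL
  have hA : Pr C (fun N : ℕ => sB K N < Nat.size N) := by fun_prop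
  refine (hA.and hX).congr fun N => ?_
  unfold LX
  refine and_congr_right fun hN => ?_
  have h3 := mu_spec hN
  have h4 : s' N = sB K N := by
    refine min_eq_left ?_
    refine le_of_lt (Nat.lt_size.mpr ?_)
    have h5 : K * 2 ^ sB K N + 1 = Nat.size N := h3.2
    have h6 : 1 * 2 ^ sB K N ≤ K * 2 ^ sB K N := Nat.mul_le_mul_right _ hK
    omega
  rw [h4]

protected theorem Pr.QU {α : Type} [Ctx α] (K k K₀ W e : ℕ) {s u x : α → ℕ} {Q : ℕ × ℕ → Prop}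
    (hQ : Pr C Q) (hs : Fn C s) (h : Sm s) (hu : Fn C u) (hx : Fn C x) :
    Pr C (fun a => QU K k K₀ W e (s a) Q (u a) (x a)) := by
  have hfst : Fn C (fun q : α × ℕ => q.1) := by fun_prop
  have hs1 : Fn C (fun q : α × ℕ => s q.1) := hs.comp hfst
  have hS1 : Sm (fun q : α × ℕ => s q.1) := Sm.comp (C := C) h hfst
  have hu1 : Fn C (fun q : α × ℕ => u q.1) := hu.comp hfst
  have hx1 : Fn C (fun q : α × ℕ => x q.1) := hx.comp hfst
  have h2 : Fn C (fun q : α × ℕ => 2 ^ s q.1) := Fn.two_pow hs1 hS1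
  have hW : Fn C (fun q : α × ℕ => W * 2 ^ s q.1) := Fn.mul (Fn.const W) h2
  have hP : Fn C (fun q : α × ℕ => 2 ^ (K * 2 ^ s q.1)) := Fn.pow_mul K hs1 hS1
  have hM : Fn C (fun q : α × ℕ => MM e (s q.1)) := Fn.MM e hs1 hS1
  have hLn : Ln (fun q : α × ℕ => MM e (s q.1)) (fun _ => k + 1) := Ln.MM e (k + 1) hS1
  have hd0 : Fn C (fun q : α × ℕ => dgt (W * 2 ^ s q.1) (u q.1) 0) := Fn.dgt hW hu1 (Fn.const 0)
  have hd1 : Fn C (fun q : α × ℕ => dgt (W * 2 ^ s q.1) (u q.1) 1) := Fn.dgt hW hu1 (Fn.const 1)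
  have hd2 : Fn C (fun q : α × ℕ => dgt (W * 2 ^ s q.1) (u q.1) 2) := Fn.dgt hW hu1 (Fn.const 2)
  have hd3 : Fn C (fun q : α × ℕ => dgt (W * 2 ^ s q.1) (u q.1) (3 + q.2)) :=
    Fn.dgt hW hu1 (by fun_prop)
  have hd4 : Fn C (fun q : α × ℕ => dgt (W * 2 ^ s q.1) (u q.1) (3 + K₀ + q.2)) :=
    Fn.dgt hW hu1 (by fun_prop)
  have hj : Fn C (fun q : α × ℕ => min (dgt (W * 2 ^ s q.1) (u q.1) 2) k) :=
    Fn.min hd2 (Fn.const k)
  have hpj : Fn C (fun q : α × ℕ => MM e (s q.1) ^ min (dgt (W * 2 ^ s q.1) (u q.1) 2) k) :=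
    Fn.powLn hM hj hLn fun q => (min_le_right _ _).trans (Nat.le_succ k)
  have hpj1 : Fn C (fun q : α × ℕ =>
      MM e (s q.1) ^ (min (dgt (W * 2 ^ s q.1) (u q.1) 2) k + 1)) :=
    Fn.powLn hM (Fn.succ hj) hLn fun q => Nat.succ_le_succ (min_le_right _ _)
  have hpk : Fn C (fun q : α × ℕ => MM e (s q.1) ^ k) :=
    Fn.powLn hM (Fn.const k) hLn fun q => Nat.le_succ k
  have hrd : Fn C (fun q : α × ℕ => rd (MM e (s q.1)) (min (dgt (W * 2 ^ s q.1) (u q.1) 2) k)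
      (dgt (W * 2 ^ s q.1) (u q.1) (3 + q.2)) (x q.1)) := by
    have : Fn C (fun q : α × ℕ => dgt (W * 2 ^ s q.1) (u q.1) (3 + q.2) %
        MM e (s q.1) ^ min (dgt (W * 2 ^ s q.1) (u q.1) 2) k +
        MM e (s q.1) ^ min (dgt (W * 2 ^ s q.1) (u q.1) 2) k * (x q.1 + MM e (s q.1) *
          (dgt (W * 2 ^ s q.1) (u q.1) (3 + q.2) /
            MM e (s q.1) ^ (min (dgt (W * 2 ^ s q.1) (u q.1) 2) k + 1)))) :=
      Fn.add (Fn.mod hd3 hpj) (Fn.mul hpj (Fn.add hx1 (Fn.mul hM (Fn.div hd3 hpj1))))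
    exact this
  have hin : Fn C (fun q : α × ℕ => 2 ^ (K * 2 ^ s q.1) +
      (rd (MM e (s q.1)) (min (dgt (W * 2 ^ s q.1) (u q.1) 2) k)
        (dgt (W * 2 ^ s q.1) (u q.1) (3 + q.2)) (x q.1) +
        MM e (s q.1) ^ k * dgt (W * 2 ^ s q.1) (u q.1) 1)) :=
    Fn.add hP (Fn.add hrd (Fn.mul hpk hd1))
  have hbody : Pr C (fun q : α × ℕ => ¬ (Q (2 ^ (K * 2 ^ s q.1) +
      (rd (MM e (s q.1)) (min (dgt (W * 2 ^ s q.1) (u q.1) 2) k)
        (dgt (W * 2 ^ s q.1) (u q.1) (3 + q.2)) (x q.1) +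
        MM e (s q.1) ^ k * dgt (W * 2 ^ s q.1) (u q.1) 1),
      dgt (W * 2 ^ s q.1) (u q.1) 0) ↔ dgt (W * 2 ^ s q.1) (u q.1) (3 + K₀ + q.2) = 1)) :=
    Pr.not (Pr.iff (hQ.comp (Fn.pair hin hd0)) (Pr.eq hd4 (Fn.const 1)))
  have hc := Fn.count (n := fun _ : α => K₀) (p := fun a i => ¬ (Q (2 ^ (K * 2 ^ s a) +
      (rd (MM e (s a)) (min (dgt (W * 2 ^ s a) (u a) 2) k)
        (dgt (W * 2 ^ s a) (u a) (3 + i)) (x a) +
        MM e (s a) ^ k * dgt (W * 2 ^ s a) (u a) 1),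
      dgt (W * 2 ^ s a) (u a) 0) ↔ dgt (W * 2 ^ s a) (u a) (3 + K₀ + i) = 1))
    (Fn.const K₀) hbody
  exact Pr.lt (Fn.const K₀) (Fn.mul (Fn.const 2) hc)

end LSA
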