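import Pool.Agent.H69B.DBok
import Pool.Agent.H69B.Find
import Pool.Agent.H69B.FnDB
import Pool.Agent.H69B.FnLX
import Pool.Agent.H69A.Core

/-!
# H69B/Core: the abstract theorem

Let `P` be a predicate of the class `D`; `LocChk` gives the table `F` and the constant `c`. Put `e = c + 2`,
`s a = Nat.size (Nat.size a) + 5`, and let the message with the parameter `s` be
`f s y = F (y % 2 ^ 2 ^ s, y / 2 ^ 2 ^ s)`. The language `LX K k e f` is in `D`, the hypothesis gives `Q`, `A`, and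
`G (u, a, t) := DB e (s a) (QU ... Q u) (a + 2 ^ 2 ^ s a * t)` is the table `F` for the right `u`.
So `P a` holds if and only if `ok (u, a) ∧ out (u, a)` for some `u` of linear length.
-/

set_option autoImplicit false

namespace LSA

open LSC

/-- the parameter of a number -/
def sb (a : ℕ) : ℕ := Nat.size (Nat.size a) + 5

theorem two_pow_sb (a : ℕ) : 2 ^ sb a ≤ 64 * (Nat.size a + 1) := by
  unfold sb
  rw [pow_add]
  by_cases h : Nat.size a = 0
  · rw [h]; norm_num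
  · have := pow_size_le h
    omega

theorem size_lt_sb (a : ℕ) : Nat.size a + 1 ≤ 2 ^ sb a := by
  unfold sb
  have := Nat.lt_size_self (Nat.size a)
  rw [pow_add]
  omega

theorem core2 {C D : NClass} [Calc C] [Calc D] (hl : LocChk C D) {h : ℕ} (hh : 0 < h)
    (H : AvgInclH h C D) (P : ℕ → Prop) (hP : Pr D P) : Pr C P := by
  classical
  obtain ⟨F, c, hF, hG⟩ := hl P hP
  set e := c + 2 with he
  have he2 : 2 ≤ e := by omega
  obtain ⟨k, K, K₀, hK, hfind⟩ := find_adv hh e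
  obtain ⟨Q, A, c', hQ, hA, hav⟩ := H (LX K k e (msg F)) (Pr.LX hK k e (Pr.msg hF))
  obtain ⟨W, hW⟩ := hfind (msg F) Q A c' hA hav
  have hsb : Fn C sb := by unfold sb; fun_prop
  have hSm : Sm sb := ⟨64, fun a => by rw [sz_nat]; exact two_pow_sb a⟩
  -- the table
  have hGC : Pr C (fun q : ℕ × ℕ × ℕ => DB e (sb q.2.1) (QU K k K₀ W e (sb q.2.1) Q q.1)
      (q.2.1 + 2 ^ 2 ^ sb q.2.1 * q.2.2)) := by
    have hs1 : Fn C (fun q : ℕ × ℕ × ℕ => sb q.2.1) := hsb.comp (by fun_prop)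
    have hSm1 : Sm (fun q : ℕ × ℕ × ℕ => sb q.2.1) :=
      Sm.comp (C := C) hSm (g := fun q : ℕ × ℕ × ℕ => q.2.1) (by fun_prop)
    have hpp := Fn.pow_pow hs1 hSm1
    refine Pr.DB e hs1 hSm1 (Q := fun (q : ℕ × ℕ × ℕ) x => QU K k K₀ W e (sb q.2.1) Q q.1 x) ?_
      (by fun_prop)
    have hs2 : Fn C (fun q : (ℕ × ℕ × ℕ) × ℕ => sb q.1.2.1) := hsb.comp (by fun_prop)
    have hSm2 : Sm (fun q : (ℕ × ℕ × ℕ) × ℕ => sb q.1.2.1) :=
      Sm.comp (C := C) hSm (g := fun q : (ℕ × ℕ × ℕ) × ℕ => q.1.2.1) (by fun_prop)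
    exact Pr.QU K k K₀ W e (s := fun q : (ℕ × ℕ × ℕ) × ℕ => sb q.1.2.1)
      (u := fun q => q.1.1) (x := fun q => q.2) hQ hs2 hSm2 (by fun_prop) (by fun_prop)
  obtain ⟨ok, out, hok, hout, h1, h2⟩ := hG _ hGC
  -- the advice
  have hgood : ∀ a, ∃ u, Nat.size u ≤ W * (64 * (3 + 2 * K₀)) * (Nat.size a + 1) ∧ ok (u, a) := by
    intro a
    obtain ⟨u, hu, hu2⟩ := hW (sb a) (by unfold sb; omega)
    refine ⟨u, hu.trans ?_, ?_⟩
    · calc W * 2 ^ sb a * (3 + 2 * K₀) ≤ W * (64 * (Nat.size a + 1)) * (3 + 2 * K₀) :=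
            Nat.mul_le_mul_right _ (Nat.mul_le_mul_left _ (two_pow_sb a))
        _ = _ := by ring
    · refine h2 _ _ fun t ht => ?_
      show DB e (sb a) (QU K k K₀ W e (sb a) Q u) (a + 2 ^ 2 ^ sb a * t) ↔ F (a, t)
      have h3 := size_lt_sb a
      have ha : a < 2 ^ 2 ^ sb a :=
        (Nat.lt_size_self a).trans_le (Nat.pow_le_pow_right (by norm_num) (by omega))
      have ht' : t < 2 ^ (c * 2 ^ sb a) :=
        ht.trans_le (Nat.pow_le_pow_right (by norm_num) (Nat.mul_le_mul_left _ h3))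
      have hy : a + 2 ^ 2 ^ sb a * t < 2 ^ (sb a * dd e (sb a)) := by
        have h4 : a + 2 ^ 2 ^ sb a * t < 2 ^ 2 ^ sb a * 2 ^ (c * 2 ^ sb a) := by
          have h5 : 2 ^ 2 ^ sb a * (t + 1) ≤ 2 ^ 2 ^ sb a * 2 ^ (c * 2 ^ sb a) :=
            Nat.mul_le_mul_left _ ht'
          have h6 : 2 ^ 2 ^ sb a * (t + 1) = 2 ^ 2 ^ sb a * t + 2 ^ 2 ^ sb a := by ring
          omega
        refine h4.trans_le ?_
        rw [← pow_add]
        refine Nat.pow_le_pow_right (by norm_num) ?_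
        refine le_trans ?_ (msg_le (e := e) (by unfold sb; omega))
        rw [he]
        nlinarith
      rw [DB_iff he2 (by unfold sb; omega) (msg F (sb a)) _ hu2 hy, msg_iff,
        Nat.add_mul_mod_self_left, Nat.mod_eq_of_lt ha, Nat.add_mul_div_left _ _ (by positivity),
        Nat.div_eq_of_lt ha, zero_add]
  -- the search for the advice
  have key : ∀ a, P a ↔ ∃ u < 2 ^ (W * (64 * (3 + 2 * K₀)) * (Nat.size a + 1)),
      ok (u, a) ∧ out (u, a) := by
    intro a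
    constructor
    · intro hPa
      obtain ⟨u, hu, hu2⟩ := hgood a
      exact ⟨u, (Nat.lt_size_self _).trans_le (Nat.pow_le_pow_right (by norm_num) hu), hu2,
        (h1 _ _ hu2).2 hPa⟩
    · rintro ⟨u, -, h3, h4⟩
      exact (h1 _ _ h3).1 h4
  refine Pr.congr ?_ key
  refine Pr.ex (n := fun a => 2 ^ (W * (64 * (3 + 2 * K₀)) * (Nat.size a + 1)))
    (p := fun a u => ok (u, a) ∧ out (u, a)) ?_ ?_
  · exact Fn.pow2 (by fun_prop) (W * (64 * (3 + 2 * K₀))) fun a => by rw [sz_nat]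
  · exact (hok.comp (f := fun p : ℕ × ℕ => (p.2, p.1)) (by fun_prop)).and
      (hout.comp (f := fun p : ℕ × ℕ => (p.2, p.1)) (by fun_prop))

end LSA
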