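import Pool.Agent.H69B.Defs

/-!
# H69B/Had: the Hadamard code

Module `H69B/Had`. For `i < l` the map `fl i` is an involution of the numbers below `2 ^ l`, which changes
exactly the bit `i` (`fl i μ / 2 ^ j % 2 = μ / 2 ^ j % 2` for `j ≠ i`, `≠` for `j = i`; maybe show first
`fl i μ = Nat.xor μ (2 ^ i)`, `μ / 2 ^ j % 2 = 1 ↔ μ.testBit j`, or use `Nat.testBit`). So
`hd l S (fl i μ) ↔ ¬ (hd l S μ ↔ S i)`: the two sets of the `j < l` with the bit `1` and `S j` differ exactly by
`i`, if `S i`. If `hd l S μ ↔ Q μ` and the same at `fl i μ`, then `¬ (Q μ ↔ Q (fl i μ)) ↔ S i`. At most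
`2 * bad < 2 ^ l / 2` numbers `μ` do not have this property.
-/

set_option autoImplicit false

namespace LSA

/-- the last bit flipped -/
def hadF (a : ℕ) : ℕ := if a % 2 = 1 then a - 1 else a + 1

theorem hadF_hadF (a : ℕ) : hadF (hadF a) = a := by
  unfold hadF
  split_ifs <;> omega

theorem hadF_div (a : ℕ) : hadF a / 2 = a / 2 := by
  unfold hadF
  split_ifs <;> omega

theorem hadF_mod (a : ℕ) : hadF a % 2 = 1 ↔ ¬ (a % 2 = 1) := by
  unfold hadF
  split_ifs <;> omega

theorem fl_eq (i μ : ℕ) : fl i μ = 2 ^ i * hadF (μ / 2 ^ i) + μ % 2 ^ i := by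
  have h1 := Nat.div_add_mod μ (2 ^ i)
  unfold fl hadF
  split_ifs with h
  · have hne : μ / 2 ^ i ≠ 0 := by
      intro h0
      rw [h0] at h
      omega
    obtain ⟨c, hc⟩ := Nat.exists_eq_succ_of_ne_zero hne
    rw [hc] at h1 ⊢
    rw [Nat.succ_sub_one]
    rw [Nat.succ_eq_add_one, mul_add, mul_one] at h1
    omega
  · rw [mul_add, mul_one]
    omega

theorem fl_div (i μ : ℕ) : fl i μ / 2 ^ i = hadF (μ / 2 ^ i) := by
  rw [fl_eq, Nat.mul_add_div (by positivity), Nat.div_eq_of_lt (Nat.mod_lt _ (by positivity)),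
    add_zero]

theorem fl_mod (i μ : ℕ) : fl i μ % 2 ^ i = μ % 2 ^ i := by
  rw [fl_eq, Nat.mul_add_mod, Nat.mod_mod]

theorem fl_fl (i μ : ℕ) : fl i (fl i μ) = μ := by
  rw [fl_eq i (fl i μ), fl_div, fl_mod, hadF_hadF]
  exact Nat.div_add_mod μ (2 ^ i)

theorem fl_bit_self (i μ : ℕ) : fl i μ / 2 ^ i % 2 = 1 ↔ ¬ (μ / 2 ^ i % 2 = 1) := by
  rw [fl_div]
  exact hadF_mod _

theorem fl_bit_ne {i j : ℕ} (h : j ≠ i) (μ : ℕ) : fl i μ / 2 ^ j % 2 = μ / 2 ^ j % 2 := by
  rcases Nat.lt_or_gt_of_ne h with h | h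
  · have key : ∀ x : ℕ, x / 2 ^ j % 2 = (x % 2 ^ i) % (2 ^ j * 2) / 2 ^ j := by
      intro x
      rw [Nat.mod_mod_of_dvd, Nat.mod_mul_right_div_self]
      exact ⟨2 ^ (i - j - 1), by rw [← pow_succ, ← pow_add]; congr 1; omega⟩
    rw [key, key, fl_mod]
  · have key : ∀ x : ℕ, x / 2 ^ j = x / 2 ^ i / 2 / 2 ^ (j - i - 1) := by
      intro x
      rw [Nat.div_div_eq_div_mul, Nat.div_div_eq_div_mul, ← pow_succ', ← pow_add]
      congr 2
      omega
    rw [key, key, fl_div, hadF_div]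

theorem fl_lt {i l μ : ℕ} (hi : i < l) (h : μ < 2 ^ l) : fl i μ < 2 ^ l := by
  have e : 2 ^ l = 2 ^ i * (2 * 2 ^ (l - i - 1)) := by
    rw [← pow_succ', ← pow_add]
    congr 1
    omega
  have h1 : μ / 2 ^ i < 2 * 2 ^ (l - i - 1) := by
    rw [Nat.div_lt_iff_lt_mul (by positivity), mul_comm, ← e]
    exact h
  have h2 : hadF (μ / 2 ^ i) < 2 * 2 ^ (l - i - 1) := by
    have := hadF_div (μ / 2 ^ i)
    omega
  rw [fl_eq, e]
  have h3 := Nat.mod_lt μ (show 0 < 2 ^ i by positivity)
  have h4 : 2 ^ i * (hadF (μ / 2 ^ i) + 1) ≤ 2 ^ i * (2 * 2 ^ (l - i - 1)) :=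
    Nat.mul_le_mul_left _ h2
  rw [mul_add, mul_one] at h4
  omega

open Classical in
theorem hd_fl {l i : ℕ} (hi : i < l) (S : ℕ → Prop) (μ : ℕ) :
    hd l S (fl i μ) ↔ ¬ (hd l S μ ↔ S i) := by
  unfold hd
  by_cases hS : S i
  · by_cases hb : μ / 2 ^ i % 2 = 1
    · have e : ((Finset.range l).filter fun j => fl i μ / 2 ^ j % 2 = 1 ∧ S j) =
          ((Finset.range l).filter fun j => μ / 2 ^ j % 2 = 1 ∧ S j).erase i := by
        ext j
        simp only [Finset.mem_filter, Finset.mem_range, Finset.mem_erase]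
        by_cases hj : j = i
        · subst hj
          have := fl_bit_self j μ
          tauto
        · rw [fl_bit_ne hj]
          tauto
      have hmem : i ∈ (Finset.range l).filter fun j => μ / 2 ^ j % 2 = 1 ∧ S j := by
        simp [hi, hb, hS]
      rw [e, Finset.card_erase_of_mem hmem]
      have hpos := Finset.card_pos.2 ⟨i, hmem⟩
      generalize ((Finset.range l).filter fun j => μ / 2 ^ j % 2 = 1 ∧ S j).card = c at hpos ⊢
      constructor
      · intro h1 h2
        have := h2.2 hS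
        omega
      · intro h1
        by_contra h2
        apply h1
        exact ⟨fun _ => hS, fun _ => by omega⟩
    · have e : ((Finset.range l).filter fun j => fl i μ / 2 ^ j % 2 = 1 ∧ S j) =
          insert i ((Finset.range l).filter fun j => μ / 2 ^ j % 2 = 1 ∧ S j) := by
        ext j
        simp only [Finset.mem_filter, Finset.mem_range, Finset.mem_insert]
        by_cases hj : j = i
        · subst hj
          have := fl_bit_self j μ
          tauto
        · rw [fl_bit_ne hj]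
          tauto
      have hmem : i ∉ (Finset.range l).filter fun j => μ / 2 ^ j % 2 = 1 ∧ S j := by
        simp [hb]
      rw [e, Finset.card_insert_of_notMem hmem]
      generalize ((Finset.range l).filter fun j => μ / 2 ^ j % 2 = 1 ∧ S j).card = c
      constructor
      · intro h1 h2
        have := h2.2 hS
        omega
      · intro h1
        by_contra h2
        apply h1
        exact ⟨fun _ => hS, fun _ => by omega⟩
  · have e : ((Finset.range l).filter fun j => fl i μ / 2 ^ j % 2 = 1 ∧ S j) =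
        ((Finset.range l).filter fun j => μ / 2 ^ j % 2 = 1 ∧ S j) := by
      ext j
      simp only [Finset.mem_filter, Finset.mem_range]
      by_cases hj : j = i
      · subst hj
        tauto
      · rw [fl_bit_ne hj]
    rw [e]
    constructor
    · intro h1 h2
      exact hS (h2.1 h1)
    · intro h1
      by_contra h2
      exact h1 ⟨fun h3 => absurd h3 h2, fun h3 => absurd h3 hS⟩

open Classical in
theorem had_ok {l : ℕ} {S Q : ℕ → Prop}
    (h : 4 * ((Finset.range (2 ^ l)).filter fun μ => ¬ (hd l S μ ↔ Q μ)).card < 2 ^ l) {i : ℕ}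
    (hi : i < l) : hdec l Q i ↔ S i := by
  unfold hdec
  rw [min_eq_left hi.le]
  set B := (Finset.range (2 ^ l)).filter fun μ => ¬ (hd l S μ ↔ Q μ) with hB
  set B' := (Finset.range (2 ^ l)).filter fun μ => fl i μ ∈ B with hB'
  set A := (Finset.range (2 ^ l)).filter fun μ => ¬ (Q μ ↔ Q (fl i μ)) with hA
  have hB'card : B'.card ≤ B.card := by
    refine Finset.card_le_card_of_injOn (fl i) ?_ ?_
    · intro μ hμ
      exact (Finset.mem_filter.1 hμ).2
    · intro μ _ ν _ hE
      have := congrArg (fl i) hE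
      rwa [fl_fl, fl_fl] at this
  have hgood : ∀ μ, μ < 2 ^ l → μ ∉ B → μ ∉ B' → (¬ (Q μ ↔ Q (fl i μ)) ↔ S i) := by
    intro μ hμ h1 h2
    have h3 : hd l S μ ↔ Q μ := by
      by_contra hc
      exact h1 (Finset.mem_filter.2 ⟨Finset.mem_range.2 hμ, hc⟩)
    have h4 : hd l S (fl i μ) ↔ Q (fl i μ) := by
      by_contra hc
      exact h2 (Finset.mem_filter.2 ⟨Finset.mem_range.2 hμ,
        Finset.mem_filter.2 ⟨Finset.mem_range.2 (fl_lt hi hμ), hc⟩⟩)
    rw [← h3, ← h4, hd_fl hi]
    tauto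
  have hN : ((Finset.range (2 ^ l)).filter fun μ => μ ∈ B ∨ μ ∈ B').card ≤ 2 * B.card := by
    have h1 : ((Finset.range (2 ^ l)).filter fun μ => μ ∈ B ∨ μ ∈ B') ⊆ B ∪ B' :=
      fun μ hμ => Finset.mem_union.2 (Finset.mem_filter.1 hμ).2
    have h2 := Finset.card_le_card h1
    have h3 := Finset.card_union_le B B'
    omega
  have htot := Finset.card_filter_add_card_filter_not (s := Finset.range (2 ^ l))
    (fun μ => μ ∈ B ∨ μ ∈ B')
  rw [Finset.card_range] at htot
  by_cases hS : S i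
  · have hsub : ((Finset.range (2 ^ l)).filter fun μ => ¬ (μ ∈ B ∨ μ ∈ B')) ⊆ A := by
      intro μ hμ
      rw [Finset.mem_filter, Finset.mem_range, not_or] at hμ
      exact Finset.mem_filter.2 ⟨Finset.mem_range.2 hμ.1,
        (hgood μ hμ.1 hμ.2.1 hμ.2.2).2 hS⟩
    have := Finset.card_le_card hsub
    exact ⟨fun _ => hS, fun _ => by omega⟩
  · have hsub : A ⊆ (Finset.range (2 ^ l)).filter fun μ => μ ∈ B ∨ μ ∈ B' := by
      intro μ hμ
      rw [Finset.mem_filter, Finset.mem_range] at hμ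
      refine Finset.mem_filter.2 ⟨Finset.mem_range.2 hμ.1, ?_⟩
      by_contra hc
      rw [not_or] at hc
      exact hS ((hgood μ hμ.1 hc.1 hc.2).1 hμ.2)
    have := Finset.card_le_card hsub
    exact ⟨fun h1 => by omega, fun h1 => absurd h1 hS⟩

end LSA
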