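import Pool.Agent.H69B.LI
import Pool.Agent.H69B.Avg
import Pool.Agent.H69B.Had
import Pool.Agent.H69B.ParB
import Pool.Agent.H69A.Num

/-!
# H69B/DBok: the decoder corrects a fraction `1 / 64` of errors

Module `H69B/DBok`. Let `A = P0 * P0`, `A' = P1 * P1`, `l = ll e s`, `t = s1 s`.

1. `avg` with `A * A'`, `2 ^ l`, `c = 16`, `t = 4`, for `bad x = ¬ (L1 x ↔ Q x)`: let `bad1 c` be
   `2 ^ l ≤ 4 * #{μ < 2 ^ l | bad (c + A * A' * μ)}`; then `16 * #{c < A * A' | bad1 c} ≤ A * A'`.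
2. `avg` with `A`, `A'`, `c = 4`, `t = 4`: let `bad2 a` be `A' ≤ 4 * #{b < A' | bad1 (a + A * b)}`; then
   `4 * #{a < A | bad2 a} ≤ A`.
3. Let `a < A`, `b < A'` and `¬ bad1 (a + A * b)`. For `x = a + A * (b + A' * μ)` we have `x % A = a`, `x / A % A' = b`,
   `x / A / A' = μ`, so `L1 e s f x = hd l (tb e t (g0 e s f (a % P0) (a / P0)) (b % P1) (b / P1)) μ`, and by `had_ok`
   (with `z = b % P1`, `v = b / P1`, `z + P1 * v = b`) `S1 e s Q a z v i ↔ tb e t (g0 ...) z v i` for `i < l`. For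
   `τ < pp e t`, `i < b0 e t` the index `i + b0 e t * τ` is smaller than `l` and its quotient and remainder by `b0 e t` are
   `τ` and `i`; so `T1 e s Q a z v τ = lq (pp e t) (dd e t) t (g0 ...) (lp ... z v τ)`, because a number
   `w < 2 ^ b` is `∑ i < b, if w / 2 ^ i % 2 = 1 then 2 ^ i else 0` (`sum_dgt` of `H69A/Num` with `b = 1`;
   `lq_lt`, `pp_lt`).
4. Let `a < A` and `¬ bad2 a`. Then `li` with `pp e t, dd e t, t, mm e t` (`pp_spec`, `pow_le_pp`, `pp_ge`, `t ≥ 5`)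
   gives `f1 e s Q a y ↔ g0 e s f (a % P0) (a / P0) y` for `y < 2 ^ (t * dd e t)`.
5. So for `z, v < P0` with `¬ bad2 (z + P0 * v)` and `τ < pp e s`: `T0 e s Q z v τ = lq (pp e s) (dd e s) s f (lp ... z v τ)`
   (`msg2`, `bits_le`: `i < b0 e s ≤ 2 ^ ww e s`, so the quotient and the remainder of `i + 2 ^ ww * τ` by `2 ^ ww` are
   `τ` and `i`), and `li` for the first level.
-/

set_option autoImplicit false

namespace LSA

open Classical in
/-- a number from its bits -/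
theorem sum_bits {b w : ℕ} (h : w < 2 ^ b) :
    (∑ i ∈ Finset.range b, if w / 2 ^ i % 2 = 1 then 2 ^ i else 0) = w := by
  have h1 := sum_dgt (b := 1) (d := b) (Z := w) (by rwa [one_mul])
  refine Eq.trans (Finset.sum_congr rfl fun i _ => ?_) h1
  unfold dgt
  rw [one_mul, pow_one]
  have h2 : w / 2 ^ i % 2 < 2 := Nat.mod_lt _ (by norm_num)
  split_ifs with hc
  · rw [hc, one_mul]
  · have : w / 2 ^ i % 2 = 0 := by omega
    rw [this, zero_mul]

theorem db_idx {A B a b : ℕ} (c : ℕ) (ha : a < A) (hb : b < B) :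
    (a + A * (b + B * c)) % A = a ∧ (a + A * (b + B * c)) / A % B = b ∧
      (a + A * (b + B * c)) / A / B = c := by
  have hA : 0 < A := by omega
  have hB : 0 < B := by omega
  have h1 : (a + A * (b + B * c)) / A = b + B * c := by
    rw [Nat.add_mul_div_left _ _ hA, Nat.div_eq_of_lt ha, zero_add]
  refine ⟨by rw [Nat.add_mul_mod_self_left, Nat.mod_eq_of_lt ha], ?_, ?_⟩
  · rw [h1, Nat.add_mul_mod_self_left, Nat.mod_eq_of_lt hb]
  · rw [h1, Nat.add_mul_div_left _ _ hB, Nat.div_eq_of_lt hb, zero_add]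

theorem db_qr {b i : ℕ} (τ : ℕ) (h : i < b) : (i + b * τ) / b = τ ∧ (i + b * τ) % b = i := by
  have hb : 0 < b := by omega
  exact ⟨by rw [Nat.add_mul_div_left _ _ hb, Nat.div_eq_of_lt h, zero_add],
    by rw [Nat.add_mul_mod_self_left, Nat.mod_eq_of_lt h]⟩

open Classical in
/-- step 3: one line tuple of the second level -/
theorem db_T1 {e s : ℕ} (f Q : ℕ → Prop) {a b : ℕ} (ha : a < P0 e s * P0 e s)
    (hb : b < P1 e s * P1 e s)
    (h : 4 * ((Finset.range (2 ^ ll e s)).filter fun μ =>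
      ¬ (L1 e s f (a + P0 e s * P0 e s * b + P0 e s * P0 e s * (P1 e s * P1 e s) * μ) ↔
        Q (a + P0 e s * P0 e s * b + P0 e s * P0 e s * (P1 e s * P1 e s) * μ))).card < 2 ^ ll e s)
    {τ : ℕ} (hτ : τ < pp e (s1 s)) :
    T1 e s Q a (b % P1 e s) (b / P1 e s) τ =
      lq (pp e (s1 s)) (dd e (s1 s)) (s1 s) (g0 e s f (a % P0 e s) (a / P0 e s))
        (lp (pp e (s1 s)) (dd e (s1 s)) (b % P1 e s) (b / P1 e s) τ) := by
  have ht : 1 ≤ s1 s := by unfold s1; omega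
  set S := tb e (s1 s) (g0 e s f (a % P0 e s) (a / P0 e s)) (b % P1 e s) (b / P1 e s) with hS
  have hL : ∀ μ, L1 e s f (a + P0 e s * P0 e s * b + P0 e s * P0 e s * (P1 e s * P1 e s) * μ) ↔
      hd (ll e s) S μ := by
    intro μ
    have hx : a + P0 e s * P0 e s * b + P0 e s * P0 e s * (P1 e s * P1 e s) * μ =
        a + P0 e s * P0 e s * (b + P1 e s * P1 e s * μ) := by ring
    obtain ⟨e1, e2, e3⟩ := db_idx μ ha hb
    unfold L1
    rw [hx, e1, e2, e3]
  simp only [hL] at h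
  have hdecS : ∀ i < ll e s, S1 e s Q a (b % P1 e s) (b / P1 e s) i ↔ S i := by
    intro i hi
    have h1 := had_ok (l := ll e s) (S := S)
      (Q := fun μ => Q (a + P0 e s * P0 e s * b + P0 e s * P0 e s * (P1 e s * P1 e s) * μ)) h hi
    rw [← h1]
    unfold S1
    have h2 : (fun μ => Q (a + P0 e s * P0 e s *
        (b % P1 e s + P1 e s * (b / P1 e s) + P1 e s * P1 e s * μ))) =
        fun μ => Q (a + P0 e s * P0 e s * b + P0 e s * P0 e s * (P1 e s * P1 e s) * μ) := by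
      funext μ
      rw [Nat.mod_add_div]
      congr 1
      ring
    rw [h2]
  have hw : lq (pp e (s1 s)) (dd e (s1 s)) (s1 s) (g0 e s f (a % P0 e s) (a / P0 e s))
      (lp (pp e (s1 s)) (dd e (s1 s)) (b % P1 e s) (b / P1 e s) τ) < 2 ^ b0 e (s1 s) :=
    (lq_lt (pp_spec.1.pos) _ _ _ _).trans (pp_lt ht)
  rw [← sum_bits hw]
  unfold T1
  refine Finset.sum_congr rfl fun i hi => ?_
  rw [Finset.mem_range] at hi
  have hidx : i + b0 e (s1 s) * τ < ll e s := by
    unfold ll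
    calc i + b0 e (s1 s) * τ < b0 e (s1 s) + b0 e (s1 s) * τ := by omega
      _ = b0 e (s1 s) * (τ + 1) := by ring
      _ ≤ b0 e (s1 s) * pp e (s1 s) := Nat.mul_le_mul_left _ hτ
  have h3 := hdecS _ hidx
  rw [hS] at h3
  unfold tb at h3
  rw [(db_qr τ hi).1, (db_qr τ hi).2] at h3
  simp only [h3]

open Classical in
theorem DB_iff {e s : ℕ} (he : 2 ≤ e) (hs : 5 ≤ s) (f Q : ℕ → Prop)
    (h : 64 * ((Finset.range (MM e s)).filter fun x => ¬ (L1 e s f x ↔ Q x)).card ≤ MM e s)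
    {y : ℕ} (hy : y < 2 ^ (s * dd e s)) : DB e s Q y ↔ f y := by
  have ht : 5 ≤ s1 s := by unfold s1; omega
  have hM := MM_pos e s
  have hMM : MM e s = P0 e s * P0 e s * (P1 e s * P1 e s) * 2 ^ ll e s := rfl
  have hP1 : 0 < P1 e s * P1 e s := by
    rcases Nat.eq_zero_or_pos (P1 e s * P1 e s) with h0 | h0
    · rw [hMM, h0] at hM
      simp at hM
    · exact h0
  -- averaging
  obtain ⟨bad0, hbad0⟩ : ∃ bad0 : ℕ → Prop, ∀ x, bad0 x ↔ ¬ (L1 e s f x ↔ Q x) :=
    ⟨_, fun _ => Iff.rfl⟩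
  obtain ⟨bad1, hbad1⟩ : ∃ bad1 : ℕ → Prop, ∀ c, bad1 c ↔
      2 ^ ll e s ≤ 4 * ((Finset.range (2 ^ ll e s)).filter fun μ =>
    bad0 (c + P0 e s * P0 e s * (P1 e s * P1 e s) * μ)).card := ⟨_, fun _ => Iff.rfl⟩
  obtain ⟨bad2, hbad2⟩ : ∃ bad2 : ℕ → Prop, ∀ a, bad2 a ↔ P1 e s * P1 e s ≤
      4 * ((Finset.range (P1 e s * P1 e s)).filter fun b => bad1 (a + P0 e s * P0 e s * b)).card :=
    ⟨_, fun _ => Iff.rfl⟩
  have hb0 : ((Finset.range (MM e s)).filter fun x => ¬ (L1 e s f x ↔ Q x)) =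
      (Finset.range (MM e s)).filter fun x => bad0 x :=
    Finset.filter_congr fun x _ => (hbad0 x).symm
  rw [hb0, hMM] at h
  have av1 : 16 * ((Finset.range (P0 e s * P0 e s * (P1 e s * P1 e s))).filter
      fun c => bad1 c).card ≤ P0 e s * P0 e s * (P1 e s * P1 e s) := by
    have h1 := avg (A := P0 e s * P0 e s * (P1 e s * P1 e s)) (B := 2 ^ ll e s) (c := 16) (t := 4)
      (by positivity) bad0 (by norm_num; exact h)
    refine le_trans (le_of_eq ?_) h1
    congr 2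
    exact Finset.filter_congr fun c _ => hbad1 c
  have av2 : 4 * ((Finset.range (P0 e s * P0 e s)).filter fun c => bad2 c).card ≤
      P0 e s * P0 e s := by
    have h1 := avg (A := P0 e s * P0 e s) (B := P1 e s * P1 e s) (c := 4) (t := 4) hP1 bad1
      (by norm_num; exact av1)
    refine le_trans (le_of_eq ?_) h1
    congr 2
    exact Finset.filter_congr fun c _ => hbad2 c
  -- the second level
  have key : ∀ a < P0 e s * P0 e s, ¬ bad2 a → ∀ y < 2 ^ (s1 s * dd e (s1 s)),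
      (f1 e s Q a y ↔ g0 e s f (a % P0 e s) (a / P0 e s) y) := by
    intro a ha hna y hy
    unfold f1
    refine li pp_spec.1 (pow_le_pp _ _) (Nat.lt_succ_self _) (pp_ge he ht) _ _ ?_ hy
    have hP : P1 e s = pp e (s1 s) ^ dd e (s1 s) := rfl
    rw [← hP]
    rw [hbad2, not_le] at hna
    refine le_trans (Nat.mul_le_mul_left 4 (Finset.card_le_card fun b hb => ?_)) hna.le
    rw [Finset.mem_filter, Finset.mem_range] at hb ⊢
    refine ⟨hb.1, ?_⟩
    by_contra hc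
    obtain ⟨τ, hτ, hne⟩ := hb.2
    have hc2 : ¬ bad1 (a + P0 e s * P0 e s * b) := hc
    rw [hbad1, not_le] at hc2
    have h5 : ((Finset.range (2 ^ ll e s)).filter fun μ =>
      ¬ (L1 e s f (a + P0 e s * P0 e s * b + P0 e s * P0 e s * (P1 e s * P1 e s) * μ) ↔
        Q (a + P0 e s * P0 e s * b + P0 e s * P0 e s * (P1 e s * P1 e s) * μ))) =
        (Finset.range (2 ^ ll e s)).filter fun μ =>
          bad0 (a + P0 e s * P0 e s * b + P0 e s * P0 e s * (P1 e s * P1 e s) * μ) :=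
      Finset.filter_congr fun c _ => (hbad0 _).symm
    rw [← h5] at hc2
    exact hne (db_T1 f Q ha hb.1 hc2 hτ)
  -- the first level
  unfold DB
  refine li pp_spec.1 (pow_le_pp _ _) (Nat.lt_succ_self _) (pp_ge he hs) _ _ ?_ hy
  have hP : P0 e s = pp e s ^ dd e s := rfl
  rw [← hP]
  refine le_trans (Nat.mul_le_mul_left 4 (Finset.card_le_card fun a hm => ?_)) av2
  rw [Finset.mem_filter, Finset.mem_range] at hm ⊢
  refine ⟨hm.1, ?_⟩
  by_contra hc
  obtain ⟨τ, hτ, hne⟩ := hm.2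
  apply hne
  have hw : lq (pp e s) (dd e s) s f (lp (pp e s) (dd e s) (a % P0 e s) (a / P0 e s) τ) <
      2 ^ b0 e s :=
    (lq_lt (pp_spec.1.pos) _ _ _ _).trans (pp_lt (by omega))
  rw [← sum_bits hw]
  unfold T0
  refine Finset.sum_congr rfl fun i hi => ?_
  rw [Finset.mem_range] at hi
  have hi' : i < 2 ^ ww e s := lt_of_lt_of_le hi (bits_le he (by omega))
  have h3 := key a hm.1 hc (i + 2 ^ ww e s * τ) (msg2 he hs hi hτ)
  have h4 : a % P0 e s + P0 e s * (a / P0 e s) = a := Nat.mod_add_div _ _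
  unfold g0 at h3
  rw [(db_qr τ hi').1, (db_qr τ hi').2] at h3
  rw [h4]
  simp only [h3]

end LSA
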