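import Pool.Agent.H69A.Defs

/-!
# H69B: agreement `1 / 2 + ε` (MP_b7da94_lc)

The code: low-degree extension over `F_p ^ d`, line tables, the bits of a line tuple encoded by the same code
on a smaller scale, the Hadamard code, and the XOR of `k` copies; everything on natural numbers.
-/

set_option autoImplicit false

namespace LSA

open LSC

/-- the digit `j` of `Z` in base `p` -/
def dg (p Z j : ℕ) : ℕ := Z / p ^ j % p

/-- the point `z + τ v` of `F_p ^ d` -/
def lp (p d z v τ : ℕ) : ℕ :=
  ∑ j ∈ Finset.range d, ((dg p z j + τ * dg p v j) % p) * p ^ j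

/-- the point `y + t r`, where the coordinates of `y` are its digits in base `2 ^ s` -/
def ls (p d s y t r : ℕ) : ℕ :=
  ∑ j ∈ Finset.range d, ((dgt s y j + t * dg p r j) % p) * p ^ j

open Classical in
/-- the low-degree extension of the predicate `f` on the numbers below `2 ^ (s * d)`, at the point `Z` -/
noncomputable def lq (p d s : ℕ) (f : ℕ → Prop) (Z : ℕ) : ℕ :=
  (∑ y ∈ Finset.range (2 ^ (s * d)), if f y then
    (∏ j ∈ Finset.range d, del p s (dgt s y j) (dg p Z j)) % p else 0) % p

open Classical in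
/-- the value at the point `z` computed by majority from the line table `T` (`T z v τ` is meant to be the
value at `z + τ v`) -/
noncomputable def pm (p d : ℕ) (T : ℕ → ℕ → ℕ → ℕ) (z : ℕ) : ℕ :=
  mu p fun c => p * p ^ d < 2 * ((Finset.range (p * p ^ d)).filter fun x =>
    T (lp p d z (x / p) (p - x % p)) (x / p) (x % p) = c).card

open Classical in
/-- the message decoded from the values `B` at the points -/
def de (p d s m : ℕ) (B : ℕ → ℕ) (y : ℕ) : Prop :=
  p ^ d < 2 * ((Finset.range (p ^ d)).filter fun r =>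
    (∑ t ∈ Finset.range m, cf p m (t + 1) * B (ls p d s y (t + 1) r)) % p = 1).card

open Classical in
/-- the Hadamard code of a string of `l` bits, at the mask `μ` -/
def hd (l : ℕ) (S : ℕ → Prop) (μ : ℕ) : Prop :=
  ((Finset.range l).filter fun i => μ / 2 ^ i % 2 = 1 ∧ S i).card % 2 = 1

/-- flip the bit `i` -/
def fl (i μ : ℕ) : ℕ := if μ / 2 ^ i % 2 = 1 then μ - 2 ^ i else μ + 2 ^ i

open Classical in
/-- the bit `i` decoded from the answers `Q` -/
def hdec (l : ℕ) (Q : ℕ → Prop) (i : ℕ) : Prop :=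
  2 ^ l < 2 * ((Finset.range (2 ^ l)).filter fun μ => ¬ (Q μ ↔ Q (fl (min i l) μ))).card

/-! ### The two levels -/

/-- the parameter of the second level -/
def s1 (s : ℕ) : ℕ := Nat.size s + 5

/-- the number of bits of a value -/
def b0 (e s : ℕ) : ℕ := 3 * s + e + 1

/-- the number of points -/
noncomputable def P0 (e s : ℕ) : ℕ := pp e s ^ dd e s

/-- the number of points of the second level -/
noncomputable def P1 (e s : ℕ) : ℕ := P0 e (s1 s)

/-- the number of bits of a line tuple of the second level -/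
noncomputable def ll (e s : ℕ) : ℕ := b0 e (s1 s) * pp e (s1 s)

/-- the number of words of the code -/
noncomputable def MM (e s : ℕ) : ℕ := P0 e s * P0 e s * (P1 e s * P1 e s) * 2 ^ ll e s

/-- the bits of the line tuple at `(z, v)`: the message of the second level -/
noncomputable def g0 (e s : ℕ) (f : ℕ → Prop) (z v y : ℕ) : Prop :=
  lq (pp e s) (dd e s) s f (lp (pp e s) (dd e s) z v (y / 2 ^ ww e s)) / 2 ^ (y % 2 ^ ww e s) % 2 = 1

/-- the bits of a line tuple, as a string of `b0 e t * pp e t` bits -/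
noncomputable def tb (e t : ℕ) (f : ℕ → Prop) (z v i : ℕ) : Prop :=
  lq (pp e t) (dd e t) t f (lp (pp e t) (dd e t) z v (i / b0 e t)) / 2 ^ (i % b0 e t) % 2 = 1

/-- the code of the message `f`, at `x = a + P0 ^ 2 * (b + P1 ^ 2 * μ)`, `a = z + P0 * v`,
`b = z' + P1 * v'` -/
noncomputable def L1 (e s : ℕ) (f : ℕ → Prop) (x : ℕ) : Prop :=
  hd (ll e s) (tb e (s1 s)
      (g0 e s f (x % (P0 e s * P0 e s) % P0 e s) (x % (P0 e s * P0 e s) / P0 e s))
      (x / (P0 e s * P0 e s) % (P1 e s * P1 e s) % P1 e s)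
      (x / (P0 e s * P0 e s) % (P1 e s * P1 e s) / P1 e s))
    (x / (P0 e s * P0 e s) / (P1 e s * P1 e s))

/-- the bits of the line tuples of the second level, decoded from the answers `Q` -/
noncomputable def S1 (e s : ℕ) (Q : ℕ → Prop) (a z v i : ℕ) : Prop :=
  hdec (ll e s) (fun μ => Q (a + P0 e s * P0 e s * (z + P1 e s * v + P1 e s * P1 e s * μ))) i

open Classical in
/-- the line table of the second level -/
noncomputable def T1 (e s : ℕ) (Q : ℕ → Prop) (a z v τ : ℕ) : ℕ :=
  ∑ i ∈ Finset.range (b0 e (s1 s)), if S1 e s Q a z v (i + b0 e (s1 s) * τ) then 2 ^ i else 0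

/-- the message of the second level -/
noncomputable def f1 (e s : ℕ) (Q : ℕ → Prop) (a y : ℕ) : Prop :=
  de (pp e (s1 s)) (dd e (s1 s)) (s1 s) (mm e (s1 s)) (pm (pp e (s1 s)) (dd e (s1 s)) (T1 e s Q a)) y

open Classical in
/-- the line table of the first level -/
noncomputable def T0 (e s : ℕ) (Q : ℕ → Prop) (z v τ : ℕ) : ℕ :=
  ∑ i ∈ Finset.range (b0 e s), if f1 e s Q (z + P0 e s * v) (i + 2 ^ ww e s * τ) then 2 ^ i else 0

/-- the decoded message -/
noncomputable def DB (e s : ℕ) (Q : ℕ → Prop) (y : ℕ) : Prop :=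
  de (pp e s) (dd e s) s (mm e s) (pm (pp e s) (dd e s) (T0 e s Q)) y

/-! ### The XOR of `k` copies -/

open Classical in
/-- the XOR of `L` at the `k` digits of `X` in base `M` -/
def xl (k M : ℕ) (L : ℕ → Prop) (X : ℕ) : Prop :=
  ((Finset.range k).filter fun i => L (X / M ^ i % M)).card % 2 = 1

/-- replace the digit `j` of `u` in base `M` by `x` -/
def rd (M j u x : ℕ) : ℕ := u % M ^ j + M ^ j * (x + M * (u / M ^ (j + 1)))

open Classical in
/-- majority -/
def mj (K : ℕ) (φ : ℕ → Prop) : Prop := K < 2 * ((Finset.range K).filter fun i => φ i).card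

/-- the parameter `s` of the word `N` of length `K * 2 ^ s` -/
noncomputable def sB (K N : ℕ) : ℕ := mu (Nat.size N) fun s => 5 ≤ s ∧ K * 2 ^ s + 1 = Nat.size N

/-- the language -/
noncomputable def LX (K k e : ℕ) (f : ℕ → ℕ → Prop) (N : ℕ) : Prop :=
  sB K N < Nat.size N ∧ xl k (MM e (sB K N)) (L1 e (sB K N) (f (sB K N))) (N - 2 ^ (K * 2 ^ sB K N))

/-- The answers for the code, computed from the answers `Q` for the language and the advice
`Q`-advice, padding, position, `K₀` samples and `K₀` labels, which are the digits of `u` in base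
`2 ^ (W * 2 ^ s)`. -/
noncomputable def QU (K k K₀ W e s : ℕ) (Q : ℕ × ℕ → Prop) (u x : ℕ) : Prop :=
  mj K₀ fun i => ¬ (Q (2 ^ (K * 2 ^ s) +
      (rd (MM e s) (min (dgt (W * 2 ^ s) u 2) k) (dgt (W * 2 ^ s) u (3 + i)) x +
        MM e s ^ k * dgt (W * 2 ^ s) u 1), dgt (W * 2 ^ s) u 0) ↔
    dgt (W * 2 ^ s) u (3 + K₀ + i) = 1)

open Classical in
/-- every predicate of the class `D` agrees with a predicate of the class `C` with linear advice on a
fraction of at least `1 / 2 + 1 / h` of the words of every length -/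
def AvgInclH (h : ℕ) (C D : NClass) : Prop := ∀ P : ℕ → Prop, Pr D P →
  ∃ (Q : ℕ × ℕ → Prop) (A : ℕ → ℕ) (c : ℕ), Pr C Q ∧ (∀ n, Nat.size (A n) ≤ c * (n + 1)) ∧
    ∀ n, (h + 2) * 2 ^ n ≤
      2 * h * ((Finset.range (2 ^ n)).filter fun x => P (2 ^ n + x) ↔ Q (2 ^ n + x, A n)).card

end LSA
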