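import Pool.Agent.H69B.FnP
import Pool.Agent.H69A.FnDec

/-!
# H69B/FnD: definability of the decoders

Module `H69B/FnD`. `Fn.mu`, `Fn.count`, `Fn.sum`, `Fn.prodmod`.

* `Fn.pm`: `mu` over `c < p`, the body is a comparison of `p * p ^ d` (`Fn.powLn` with `j = d`) with a count over
  `x < p * p ^ d` in the context `(a, c)`.
* `Pr.de`: count over `r < p ^ d`, sum over `t < m`, `Fn.cf` from `H69A/FnDec`.
* `Pr.hd`: `μ / 2 ^ i % 2 = dgt 1 μ i`.
* `Fn.fl`: `2 ^ i` by `Fn.pow2`. `Pr.hdec`: count over `μ < 2 ^ l`; `min i l ≤ l`.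
* `Fn.bits`: in the body replace `2 ^ i` by `2 ^ min i b`.
-/

set_option autoImplicit false

namespace LSA

open LSC

variable {C : NClass} [Calc C] {α : Type} [Ctx α]

protected theorem Fn.pm {p d z : α → ℕ} {T : α → ℕ → ℕ → ℕ → ℕ} (hp : Fn C p) (hd : Fn C d)
    (h : Ln p d) (hT : Fn C (fun q : α × ℕ × ℕ × ℕ => T q.1 q.2.1 q.2.2.1 q.2.2.2))
    (hz : Fn C z) : Fn C (fun a => pm (p a) (d a) (T a) (z a)) := by
  classical
  have hpow : Fn C (fun a => p a ^ d a) := Fn.powLn hp hd h fun _ => le_rfl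
  have hN : Fn C (fun a => p a * p a ^ d a) := hp.mul hpow
  have hN1 : Fn C (fun q : α × ℕ => p q.1 * p q.1 ^ d q.1) := hN.comp Fn.fst
  have ha2 : Fn C (fun r : (α × ℕ) × ℕ => r.1.1) := by fun_prop
  have hp2 : Fn C (fun r : (α × ℕ) × ℕ => p r.1.1) := hp.comp ha2
  have hd2 : Fn C (fun r : (α × ℕ) × ℕ => d r.1.1) := hd.comp ha2
  have hz2 : Fn C (fun r : (α × ℕ) × ℕ => z r.1.1) := hz.comp ha2
  have hx2 : Fn C (fun r : (α × ℕ) × ℕ => r.2) := Fn.snd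
  have hL2 : Ln (fun r : (α × ℕ) × ℕ => p r.1.1) (fun r : (α × ℕ) × ℕ => d r.1.1) := h.comp ha2
  have hq : Fn C (fun r : (α × ℕ) × ℕ => r.2 / p r.1.1) := hx2.div hp2
  have hm : Fn C (fun r : (α × ℕ) × ℕ => r.2 % p r.1.1) := hx2.mod hp2
  have hlp : Fn C (fun r : (α × ℕ) × ℕ => lp (p r.1.1) (d r.1.1) (z r.1.1) (r.2 / p r.1.1)
      (p r.1.1 - r.2 % p r.1.1)) := Fn.lp hp2 hd2 hL2 hz2 hq (hp2.sub hm)
  have hT2 : Fn C (fun r : (α × ℕ) × ℕ => T r.1.1 (lp (p r.1.1) (d r.1.1) (z r.1.1)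
      (r.2 / p r.1.1) (p r.1.1 - r.2 % p r.1.1)) (r.2 / p r.1.1) (r.2 % p r.1.1)) :=
    hT.comp (f := fun r : (α × ℕ) × ℕ => (r.1.1, lp (p r.1.1) (d r.1.1) (z r.1.1)
      (r.2 / p r.1.1) (p r.1.1 - r.2 % p r.1.1), r.2 / p r.1.1, r.2 % p r.1.1))
      (ha2.pair (hlp.pair (hq.pair hm)))
  have hc2 : Fn C (fun r : (α × ℕ) × ℕ => r.1.2) := by fun_prop
  have hcount := Fn.count (C := C) (n := fun q : α × ℕ => p q.1 * p q.1 ^ d q.1)
    (p := fun (q : α × ℕ) x => T q.1 (lp (p q.1) (d q.1) (z q.1) (x / p q.1)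
      (p q.1 - x % p q.1)) (x / p q.1) (x % p q.1) = q.2) hN1 (Pr.eq hT2 hc2)
  have hbody := Pr.lt hN1 ((Fn.const 2).mul hcount)
  have key := Fn.mu (p := fun a c => p a * p a ^ d a < 2 * ((Finset.range (p a * p a ^ d a)).filter
    fun x => T a (lp (p a) (d a) (z a) (x / p a) (p a - x % p a)) (x / p a) (x % p a) = c).card)
    hp (hbody.congr fun q => by
      refine iff_of_eq ?_
      congr!)
  refine key.congr fun a => ?_
  unfold pm
  congr!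

protected theorem Pr.de {p d s m y : α → ℕ} {B : α → ℕ → ℕ} (hp : Fn C p) (hd : Fn C d)
    (h : Ln p d) (h0 : ∀ a, 0 < p a) (hs : Fn C s) (hm : Fn C m)
    (hB : Fn C (fun q : α × ℕ => B q.1 q.2)) (hy : Fn C y) :
    Pr C (fun a => de (p a) (d a) (s a) (m a) (B a) (y a)) := by
  classical
  have hpow : Fn C (fun a => p a ^ d a) := Fn.powLn hp hd h fun _ => le_rfl
  have ha2 : Fn C (fun r : (α × ℕ) × ℕ => r.1.1) := by fun_prop
  have hp2 : Fn C (fun r : (α × ℕ) × ℕ => p r.1.1) := hp.comp ha2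
  have hd2 : Fn C (fun r : (α × ℕ) × ℕ => d r.1.1) := hd.comp ha2
  have hs2 : Fn C (fun r : (α × ℕ) × ℕ => s r.1.1) := hs.comp ha2
  have hm2 : Fn C (fun r : (α × ℕ) × ℕ => m r.1.1) := hm.comp ha2
  have hy2 : Fn C (fun r : (α × ℕ) × ℕ => y r.1.1) := hy.comp ha2
  have hr2 : Fn C (fun r : (α × ℕ) × ℕ => r.1.2) := by fun_prop
  have ht2 : Fn C (fun r : (α × ℕ) × ℕ => r.2 + 1) := Fn.succ Fn.snd
  have hL2 : Ln (fun r : (α × ℕ) × ℕ => p r.1.1) (fun r : (α × ℕ) × ℕ => d r.1.1) := h.comp ha2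
  have hcf : Fn C (fun r : (α × ℕ) × ℕ => cf (p r.1.1) (m r.1.1) (r.2 + 1)) :=
    Fn.cf hp2 hm2 ht2 fun r => h0 r.1.1
  have hls : Fn C (fun r : (α × ℕ) × ℕ => ls (p r.1.1) (d r.1.1) (s r.1.1) (y r.1.1) (r.2 + 1)
      r.1.2) := Fn.ls hp2 hd2 hL2 hs2 hy2 ht2 hr2
  have hB2 : Fn C (fun r : (α × ℕ) × ℕ => B r.1.1 (ls (p r.1.1) (d r.1.1) (s r.1.1) (y r.1.1)
      (r.2 + 1) r.1.2)) :=
    hB.comp (f := fun r : (α × ℕ) × ℕ => (r.1.1, ls (p r.1.1) (d r.1.1) (s r.1.1) (y r.1.1)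
      (r.2 + 1) r.1.2)) (ha2.pair hls)
  have hp1 : Fn C (fun q : α × ℕ => p q.1) := hp.comp Fn.fst
  have hm1 : Fn C (fun q : α × ℕ => m q.1) := hm.comp Fn.fst
  have hsum : Fn C (fun q : α × ℕ => (∑ t ∈ Finset.range (m q.1), cf (p q.1) (m q.1) (t + 1) *
      B q.1 (ls (p q.1) (d q.1) (s q.1) (y q.1) (t + 1) q.2)) % p q.1) := by
    refine Fn.mod ?_ hp1
    exact Fn.sum (f := fun (q : α × ℕ) t => cf (p q.1) (m q.1) (t + 1) *
      B q.1 (ls (p q.1) (d q.1) (s q.1) (y q.1) (t + 1) q.2)) hm1 (hcf.mul hB2)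
  have hcount := Fn.count (C := C) (n := fun a => p a ^ d a)
    (p := fun a r => (∑ t ∈ Finset.range (m a), cf (p a) (m a) (t + 1) *
      B a (ls (p a) (d a) (s a) (y a) (t + 1) r)) % p a = 1) hpow (Pr.eq hsum (Fn.const 1))
  have key := Pr.lt hpow ((Fn.const 2).mul hcount)
  refine key.congr fun a => ?_
  unfold de
  refine iff_of_eq ?_
  congr!

protected theorem Pr.hd {l μ : α → ℕ} {S : α → ℕ → Prop} (hl : Fn C l) (hμ : Fn C μ)
    (hS : Pr C (fun q : α × ℕ => S q.1 q.2)) : Pr C (fun a => hd (l a) (S a) (μ a)) := by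
  classical
  have hμ1 : Fn C (fun q : α × ℕ => μ q.1) := hμ.comp Fn.fst
  have hi1 : Fn C (fun q : α × ℕ => q.2) := Fn.snd
  have hdg : Fn C (fun q : α × ℕ => μ q.1 / 2 ^ q.2 % 2) := by
    have h1 : Fn C (fun q : α × ℕ => dgt 1 (μ q.1) q.2) := Fn.dgt (Fn.const 1) hμ1 hi1
    refine h1.congr fun q => ?_
    unfold dgt
    rw [one_mul, pow_one]
  have hcount := Fn.count (C := C) (n := l) (p := fun a i => μ a / 2 ^ i % 2 = 1 ∧ S a i) hl
    ((Pr.eq hdg (Fn.const 1)).and hS)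
  have key := Pr.eq (hcount.mod (Fn.const 2)) (Fn.const 1)
  refine key.congr fun a => ?_
  unfold hd
  refine iff_of_eq ?_
  congr!

protected theorem Pr.hdec {l i : α → ℕ} {Q : α → ℕ → Prop} (hl : Fn C l)
    (h : ∃ c, ∀ a, l a ≤ c * (sz a + 1)) (hi : Fn C i) (hQ : Pr C (fun q : α × ℕ => Q q.1 q.2)) :
    Pr C (fun a => hdec (l a) (Q a) (i a)) := by
  classical
  obtain ⟨c, hc⟩ := h
  have hpow : Fn C (fun a => 2 ^ l a) := Fn.pow2 hl c hc
  have hpowi : Fn C (fun a => 2 ^ min (i a) (l a)) :=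
    Fn.pow2 (hi.min hl) c fun a => (min_le_right _ _).trans (hc a)
  have hpowi1 : Fn C (fun q : α × ℕ => 2 ^ min (i q.1) (l q.1)) := hpowi.comp Fn.fst
  have ha1 : Fn C (fun q : α × ℕ => q.1) := Fn.fst
  have hx1 : Fn C (fun q : α × ℕ => q.2) := Fn.snd
  have hfl : Fn C (fun q : α × ℕ => fl (min (i q.1) (l q.1)) q.2) := by
    unfold fl
    exact Fn.ite (Pr.eq ((hx1.div hpowi1).mod (Fn.const 2)) (Fn.const 1)) (hx1.sub hpowi1)
      (hx1.add hpowi1)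
  have hQ2 : Pr C (fun q : α × ℕ => Q q.1 (fl (min (i q.1) (l q.1)) q.2)) :=
    hQ.comp (f := fun q : α × ℕ => (q.1, fl (min (i q.1) (l q.1)) q.2)) (ha1.pair hfl)
  have hcount := Fn.count (C := C) (n := fun a => 2 ^ l a)
    (p := fun a μ => ¬ (Q a μ ↔ Q a (fl (min (i a) (l a)) μ))) hpow (hQ.iff hQ2).not
  have key := Pr.lt hpow ((Fn.const 2).mul hcount)
  refine key.congr fun a => ?_
  unfold hdec
  refine iff_of_eq ?_
  congr!

open Classical in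
protected theorem Fn.bits {b : α → ℕ} {S : α → ℕ → Prop} (hb : Fn C b)
    (h : ∃ c, ∀ a, b a ≤ c * (sz a + 1)) (hS : Pr C (fun q : α × ℕ => S q.1 q.2)) :
    Fn C (fun a => ∑ i ∈ Finset.range (b a), if S a i then 2 ^ i else 0) := by
  obtain ⟨c, hc⟩ := h
  have hb1 : Fn C (fun q : α × ℕ => b q.1) := hb.comp Fn.fst
  have hi1 : Fn C (fun q : α × ℕ => q.2) := Fn.snd
  have hpow : Fn C (fun q : α × ℕ => 2 ^ min q.2 (b q.1)) := by
    refine Fn.pow2 (hi1.min hb1) c fun q => ?_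
    have h1 := hc q.1
    have h3 : sz q.1 ≤ sz q := by
      obtain ⟨a, b⟩ := q
      rw [sz_prod]
      exact Nat.le_add_right _ _
    exact (min_le_right _ _).trans (h1.trans (Nat.mul_le_mul_left c (by omega)))
  have h4 := Fn.sum (f := fun a i => if S a i then 2 ^ min i (b a) else 0) hb
    (Fn.ite hS hpow (Fn.const 0))
  refine h4.congr fun a => ?_
  refine Finset.sum_congr rfl fun i hi => ?_
  rw [min_eq_left (Finset.mem_range.1 hi).le]

end LSA
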