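import Pool.Agent.H69B.FnD
import Pool.Agent.H69B.FnPar

/-!
# H69B/FnL1: the code belongs to every class which contains the message

Module `H69B/FnL1`. `Fn.lq`, `Fn.lp`, `Pr.hd` and the parameters of `H69B/FnPar`. The exponent
`y % 2 ^ ww e s < 2 ^ (s + e)` in `g0` is linear (`Sm`), the exponent `i % b0 e t` in `tb` is smaller than `b0 e t`
(or `b0 e t = 0` is impossible). `pp` is positive (`pp_spec`). In `Pr.L1` the message of the second level is the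
predicate `y ↦ g0 e s f ... y`, in the context `(a, i)` of `Pr.hd`; use `Pr.comp`/`Fn.comp` for projections, `Sm.comp`.
`Pr.xl`: the digits `X / M ^ i % M = dg M X i` (`Fn.dg`).
-/

set_option autoImplicit false

namespace LSA

open LSC

variable {C : NClass} [Calc C] {α : Type} [Ctx α]

protected theorem Pr.g0 (e : ℕ) {s z v y : α → ℕ} {f : α → ℕ → Prop} (hs : Fn C s) (h : Sm s)
    (hf : Pr C (fun q : α × ℕ => f q.1 q.2)) (hz : Fn C z) (hv : Fn C v) (hy : Fn C y) :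
    Pr C (fun a => g0 e (s a) (f a) (z a) (v a) (y a)) := by
  have hp := Fn.pp (C := C) e hs h
  have hd := Fn.dd (C := C) e hs h
  have hw := Fn.pow_ww (C := C) e hs h
  have hp0 : ∀ a, 0 < pp e (s a) := fun a => (pp_spec (e := e) (s := s a)).1.pos
  have hτ : Fn C (fun a => y a / 2 ^ ww e (s a)) := hy.div hw
  have hlp := Fn.lp hp hd (Ln.pd e h) hz hv hτ
  have hlq := Fn.lq hp hd hs h (sd_lin e h) hp0 hf hlp
  have hexp : Fn C (fun a => 2 ^ (y a % 2 ^ ww e (s a))) := by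
    obtain ⟨c, hc⟩ := h
    refine Fn.pow2 (hy.mod hw) (c * 2 ^ e) fun a => ?_
    have h1 : y a % 2 ^ ww e (s a) < 2 ^ ww e (s a) := Nat.mod_lt _ (by positivity)
    have h2 : 2 ^ ww e (s a) = 2 ^ s a * 2 ^ e := pow_add _ _ _
    calc y a % 2 ^ ww e (s a) ≤ 2 ^ s a * 2 ^ e := by omega
      _ ≤ (c * (sz a + 1)) * 2 ^ e := Nat.mul_le_mul_right _ (hc a)
      _ = c * 2 ^ e * (sz a + 1) := by ring
  have key := Pr.eq ((hlq.div hexp).mod (Fn.const 2)) (Fn.const 1)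
  exact key.congr fun a => Iff.rfl

protected theorem Pr.tb (e : ℕ) {t z v i : α → ℕ} {f : α → ℕ → Prop} (ht : Fn C t) (h : Sm t)
    (hf : Pr C (fun q : α × ℕ => f q.1 q.2)) (hz : Fn C z) (hv : Fn C v) (hi : Fn C i) :
    Pr C (fun a => tb e (t a) (f a) (z a) (v a) (i a)) := by
  have hp := Fn.pp (C := C) e ht h
  have hd := Fn.dd (C := C) e ht h
  have hb := Fn.b0 (C := C) e ht
  have hp0 : ∀ a, 0 < pp e (t a) := fun a => (pp_spec (e := e) (s := t a)).1.pos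
  have hτ : Fn C (fun a => i a / b0 e (t a)) := hi.div hb
  have hlp := Fn.lp hp hd (Ln.pd e h) hz hv hτ
  have hlq := Fn.lq hp hd ht h (sd_lin e h) hp0 hf hlp
  have hexp : Fn C (fun a => 2 ^ (i a % b0 e (t a))) := by
    obtain ⟨c, hc⟩ := b0_lin e h
    refine Fn.pow2 (hi.mod hb) c fun a => ?_
    have h1 : i a % b0 e (t a) < b0 e (t a) := Nat.mod_lt _ (by unfold b0; omega)
    exact h1.le.trans (hc a)
  have key := Pr.eq ((hlq.div hexp).mod (Fn.const 2)) (Fn.const 1)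
  exact key.congr fun a => Iff.rfl

protected theorem Pr.L1 (e : ℕ) {s x : α → ℕ} {f : α → ℕ → Prop} (hs : Fn C s) (h : Sm s)
    (hf : Pr C (fun q : α × ℕ => f q.1 q.2)) (hx : Fn C x) :
    Pr C (fun a => L1 e (s a) (f a) (x a)) := by
  have hP0 := Fn.P0 (C := C) e hs h
  have hP1 := Fn.P1 (C := C) e hs h
  have hl := Fn.ll (C := C) e hs h
  have hz1 : Fn C (fun a => x a % (P0 e (s a) * P0 e (s a)) % P0 e (s a)) :=
    (hx.mod (hP0.mul hP0)).mod hP0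
  have hv1 : Fn C (fun a => x a % (P0 e (s a) * P0 e (s a)) / P0 e (s a)) :=
    (hx.mod (hP0.mul hP0)).div hP0
  have hz2 : Fn C (fun a => x a / (P0 e (s a) * P0 e (s a)) % (P1 e (s a) * P1 e (s a)) %
      P1 e (s a)) := ((hx.div (hP0.mul hP0)).mod (hP1.mul hP1)).mod hP1
  have hv2 : Fn C (fun a => x a / (P0 e (s a) * P0 e (s a)) % (P1 e (s a) * P1 e (s a)) /
      P1 e (s a)) := ((hx.div (hP0.mul hP0)).mod (hP1.mul hP1)).div hP1
  have hμ : Fn C (fun a => x a / (P0 e (s a) * P0 e (s a)) / (P1 e (s a) * P1 e (s a))) :=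
    (hx.div (hP0.mul hP0)).div (hP1.mul hP1)
  have hfst : Fn C (fun q : α × ℕ => q.1) := Fn.fst
  have hfst2 : Fn C (fun q : (α × ℕ) × ℕ => q.1) := Fn.fst
  have hsq : Fn C (fun q : α × ℕ => s q.1) := hs.comp hfst
  have hSq : Sm (fun q : α × ℕ => s q.1) := h.comp hfst
  have hsr : Fn C (fun q : (α × ℕ) × ℕ => s q.1.1) := hsq.comp hfst2
  have hSr : Sm (fun q : (α × ℕ) × ℕ => s q.1.1) := hSq.comp hfst2
  have hfr : Pr C (fun q : ((α × ℕ) × ℕ) × ℕ => f q.1.1.1 q.2) := by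
    have h1 : Fn C (fun q : ((α × ℕ) × ℕ) × ℕ => (q.1.1.1, q.2)) :=
      (hfst.comp (hfst2.comp Fn.fst)).pair Fn.snd
    exact hf.comp h1
  have hg : Pr C (fun q : (α × ℕ) × ℕ => g0 e (s q.1.1) (f q.1.1)
      (x q.1.1 % (P0 e (s q.1.1) * P0 e (s q.1.1)) % P0 e (s q.1.1))
      (x q.1.1 % (P0 e (s q.1.1) * P0 e (s q.1.1)) / P0 e (s q.1.1)) q.2) :=
    Pr.g0 (f := fun q : (α × ℕ) × ℕ => f q.1.1) e hsr hSr hfr
      ((hz1.comp hfst).comp hfst2) ((hv1.comp hfst).comp hfst2) Fn.snd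
  have ht : Pr C (fun q : α × ℕ => tb e (s1 (s q.1)) (g0 e (s q.1) (f q.1)
      (x q.1 % (P0 e (s q.1) * P0 e (s q.1)) % P0 e (s q.1))
      (x q.1 % (P0 e (s q.1) * P0 e (s q.1)) / P0 e (s q.1)))
      (x q.1 / (P0 e (s q.1) * P0 e (s q.1)) % (P1 e (s q.1) * P1 e (s q.1)) % P1 e (s q.1))
      (x q.1 / (P0 e (s q.1) * P0 e (s q.1)) % (P1 e (s q.1) * P1 e (s q.1)) / P1 e (s q.1))
      q.2) :=
    Pr.tb (f := fun q : α × ℕ => g0 e (s q.1) (f q.1)
      (x q.1 % (P0 e (s q.1) * P0 e (s q.1)) % P0 e (s q.1))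
      (x q.1 % (P0 e (s q.1) * P0 e (s q.1)) / P0 e (s q.1))) e (Fn.s1 hsq) (Sm.s1 hSq) hg
      (hz2.comp hfst) (hv2.comp hfst) Fn.snd
  have key := Pr.hd (S := fun a => tb e (s1 (s a)) (g0 e (s a) (f a)
      (x a % (P0 e (s a) * P0 e (s a)) % P0 e (s a))
      (x a % (P0 e (s a) * P0 e (s a)) / P0 e (s a)))
      (x a / (P0 e (s a) * P0 e (s a)) % (P1 e (s a) * P1 e (s a)) % P1 e (s a))
      (x a / (P0 e (s a) * P0 e (s a)) % (P1 e (s a) * P1 e (s a)) / P1 e (s a))) hl hμ ht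
  exact key.congr fun a => Iff.rfl

protected theorem Pr.xl {k M X : α → ℕ} {L : α → ℕ → Prop} (hk : Fn C k) (hM : Fn C M)
    (hX : Fn C X) (hL : Pr C (fun q : α × ℕ => L q.1 q.2)) :
    Pr C (fun a => xl (k a) (M a) (L a) (X a)) := by
  have hfst : Fn C (fun q : α × ℕ => q.1) := Fn.fst
  have h1 : Fn C (fun q : α × ℕ => dg (M q.1) (X q.1) q.2) :=
    Fn.dg (hM.comp hfst) (hX.comp hfst) Fn.snd
  have h2 : Pr C (fun q : α × ℕ => L q.1 (X q.1 / M q.1 ^ q.2 % M q.1)) := by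
    have h3 : Fn C (fun q : α × ℕ => (q.1, dg (M q.1) (X q.1) q.2)) := hfst.pair h1
    exact hL.comp h3
  have h4 := Fn.count (p := fun a i => L a (X a / M a ^ i % M a)) hk h2
  have key := Pr.eq (h4.mod (Fn.const 2)) (Fn.const 1)
  exact key.congr fun a => Iff.rfl

end LSA
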