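import Pool.Agent.H69B.Defs
import Pool.Agent.H69A.FnB
import Pool.Agent.H69A.FnLde

/-!
# H69B/FnP: definability of the basic functions

Module `H69B/FnP`. The calculus: `Pool/Agent/H85P/Calc.lean`, `Arith.lean` (`fun_prop`, `Fn.iter`, `Fn.sum`,
`Fn.count`, `Fn.mu`, `Fn.pow`, `Fn.pow2`, `Pr.ex`, `Pr.all`, `Fn.congr`, `Pr.congr`), and `H69A/FnB` (`Fn.prodmod`,
`Fn.dgt`, `Fn.inv`, `Sm`).

* `Fn.powLn`: `Fn.pow` (`Nat.size (p ^ j) ≤ j * Nat.size p + 1`).
* `Fn.cpow`: `Fn.iter` with `F a i = min (p a ^ i) (Z a + 1)`, step `min (r * p a) (Z a + 1)`; if `p a = 0` note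
  `min (p ^ i) (Z + 1) * p`: `min (min (p ^ i) (Z + 1) * p) (Z + 1) = min (p ^ (i + 1)) (Z + 1)` holds for `p = 0` and for
  `p ≥ 1`.
* `Fn.dg`: `dg p Z j = Z / min (p ^ j) (Z + 1) % p` for all `p, Z, j` (both quotients are `0` if `p ^ j > Z`).
* `Fn.lp`, `Fn.ls`: `Fn.sum`, replace `p ^ j` by `p ^ min j d` in the body (`Finset.sum_congr`), `Fn.powLn` in the
  context `(a, j)` (`Ln.comp`).
* `Fn.lq`: as `Fn.ld` in `H69A/FnLde`.
-/

set_option autoImplicit false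

namespace LSA

open LSC

variable {C : NClass} [Calc C] {α β : Type} [Ctx α] [Ctx β]

/-- `p a ^ d a` has linear length -/
def Ln (p d : α → ℕ) : Prop := ∃ c, ∀ a, d a * Nat.size (p a) ≤ c * (sz a + 1)

theorem Ln.comp {p d : β → ℕ} (h : Ln p d) {g : α → β} (hg : Fn C g) :
    Ln (fun a => p (g a)) (fun a => d (g a)) := by
  obtain ⟨c, hc⟩ := h
  obtain ⟨c', hc'⟩ := hg.bd
  exact ⟨c * (c' + 1), fun a => lin_trans (hc (g a)) (hc' a)⟩

theorem size_pow_le_mul (p j : ℕ) : Nat.size (p ^ j) ≤ j * Nat.size p + 1 := by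
  induction j with
  | zero => simp
  | succ j ih =>
    rw [pow_succ]
    have h1 := size_mul_le (p ^ j) p
    have h2 : (j + 1) * Nat.size p = j * Nat.size p + Nat.size p := by ring
    omega

protected theorem Fn.powLn {p d j : α → ℕ} (hp : Fn C p) (hj : Fn C j) (h : Ln p d)
    (hjd : ∀ a, j a ≤ d a) : Fn C (fun a => p a ^ j a) := by
  obtain ⟨c, hc⟩ := h
  refine Fn.pow hp hj ⟨c + 1, fun a => ?_⟩
  show sz (p a ^ j a) ≤ _
  rw [sz_nat]
  have h1 := size_pow_le_mul (p a) (j a)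
  have h2 := Nat.mul_le_mul_right (Nat.size (p a)) (hjd a)
  have h3 := hc a
  have h4 : (c + 1) * (sz a + 1) = c * (sz a + 1) + (sz a + 1) := by ring
  omega

protected theorem Fn.cpow {p j Z : α → ℕ} (hp : Fn C p) (hj : Fn C j) (hZ : Fn C Z) :
    Fn C (fun a => min (p a ^ j a) (Z a + 1)) := by
  obtain ⟨c, hc⟩ := (Fn.succ hZ).bd
  have hp' : Fn C (fun q : α × ℕ × ℕ => p q.1) := hp.comp Fn.fst
  have hZ' : Fn C (fun q : α × ℕ × ℕ => Z q.1) := hZ.comp Fn.fst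
  refine Fn.iter (F := fun a i => min (p a ^ i) (Z a + 1)) (g := fun _ => 1)
    (h := fun q => min (q.2.2 * p q.1) (Z q.1 + 1)) hj (by fun_prop) (by fun_prop)
    (fun a => by simp) (fun a i _ => ?_) ⟨c, fun a i _ => ?_⟩
  · show min (p a ^ (i + 1)) (Z a + 1) = min (min (p a ^ i) (Z a + 1) * p a) (Z a + 1)
    rcases Nat.eq_zero_or_pos (p a) with h0 | h0
    · simp [h0]
    · rw [pow_succ]
      rcases le_total (p a ^ i) (Z a + 1) with h1 | h1
      · rw [min_eq_left h1]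
      · rw [min_eq_right h1, min_eq_right, min_eq_right]
        · nlinarith
        · nlinarith
  · have h2 := hc a
    rw [sz_nat] at h2 ⊢
    exact (size_mono (min_le_right _ _)).trans h2

theorem dg_eq_min (p Z j : ℕ) : dg p Z j = Z / min (p ^ j) (Z + 1) % p := by
  unfold dg
  rcases le_total (p ^ j) (Z + 1) with h | h
  · rw [min_eq_left h]
  · rw [min_eq_right h, Nat.div_eq_of_lt (show Z < p ^ j by omega),
      Nat.div_eq_of_lt (Nat.lt_succ_self Z)]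

@[fun_prop] protected theorem Fn.dg {p Z j : α → ℕ} (hp : Fn C p) (hZ : Fn C Z) (hj : Fn C j) :
    Fn C (fun a => dg (p a) (Z a) (j a)) := by
  have h1 := Fn.cpow hp hj hZ
  have h2 : Fn C (fun a => Z a / min (p a ^ j a) (Z a + 1) % p a) := (hZ.div h1).mod hp
  exact h2.congr fun a => dg_eq_min _ _ _

protected theorem Fn.lp {p d z v τ : α → ℕ} (hp : Fn C p) (hd : Fn C d) (h : Ln p d) (hz : Fn C z)
    (hv : Fn C v) (hτ : Fn C τ) : Fn C (fun a => lp (p a) (d a) (z a) (v a) (τ a)) := by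
  have h1 : Fn C (fun a => ∑ j ∈ Finset.range (d a),
      ((dg (p a) (z a) j + τ a * dg (p a) (v a) j) % p a) * p a ^ min j (d a)) := by
    refine Fn.sum (f := fun a j =>
      ((dg (p a) (z a) j + τ a * dg (p a) (v a) j) % p a) * p a ^ min j (d a)) hd ?_
    have hp' : Fn C (fun q : α × ℕ => p q.1) := hp.comp LSC.Fn.fst
    have hd' : Fn C (fun q : α × ℕ => d q.1) := hd.comp LSC.Fn.fst
    have hz' : Fn C (fun q : α × ℕ => z q.1) := hz.comp LSC.Fn.fst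
    have hv' : Fn C (fun q : α × ℕ => v q.1) := hv.comp LSC.Fn.fst
    have hτ' : Fn C (fun q : α × ℕ => τ q.1) := hτ.comp LSC.Fn.fst
    have h2 : Fn C (fun q : α × ℕ => p q.1 ^ min q.2 (d q.1)) :=
      Fn.powLn (d := fun q : α × ℕ => d q.1) hp' (by fun_prop)
        (Ln.comp (C := C) h LSC.Fn.fst) (fun q => min_le_right _ _)
    fun_prop
  exact h1.congr fun a => by
    unfold lp
    refine Finset.sum_congr rfl fun j hj => ?_
    rw [min_eq_left (Finset.mem_range.mp hj).le]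

protected theorem Fn.ls {p d s y t r : α → ℕ} (hp : Fn C p) (hd : Fn C d) (h : Ln p d)
    (hs : Fn C s) (hy : Fn C y) (ht : Fn C t) (hr : Fn C r) :
    Fn C (fun a => ls (p a) (d a) (s a) (y a) (t a) (r a)) := by
  have h1 : Fn C (fun a => ∑ j ∈ Finset.range (d a),
      ((dgt (s a) (y a) j + t a * dg (p a) (r a) j) % p a) * p a ^ min j (d a)) := by
    refine Fn.sum (f := fun a j =>
      ((dgt (s a) (y a) j + t a * dg (p a) (r a) j) % p a) * p a ^ min j (d a)) hd ?_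
    have hp' : Fn C (fun q : α × ℕ => p q.1) := hp.comp LSC.Fn.fst
    have hd' : Fn C (fun q : α × ℕ => d q.1) := hd.comp LSC.Fn.fst
    have hs' : Fn C (fun q : α × ℕ => s q.1) := hs.comp LSC.Fn.fst
    have hy' : Fn C (fun q : α × ℕ => y q.1) := hy.comp LSC.Fn.fst
    have ht' : Fn C (fun q : α × ℕ => t q.1) := ht.comp LSC.Fn.fst
    have hr' : Fn C (fun q : α × ℕ => r q.1) := hr.comp LSC.Fn.fst
    have h2 : Fn C (fun q : α × ℕ => p q.1 ^ min q.2 (d q.1)) :=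
      Fn.powLn (d := fun q : α × ℕ => d q.1) hp' (by fun_prop)
        (Ln.comp (C := C) h LSC.Fn.fst) (fun q => min_le_right _ _)
    fun_prop
  exact h1.congr fun a => by
    unfold ls
    refine Finset.sum_congr rfl fun j hj => ?_
    rw [min_eq_left (Finset.mem_range.mp hj).le]

protected theorem Fn.lq {p d s Z : α → ℕ} {f : α → ℕ → Prop} (hp : Fn C p) (hd : Fn C d)
    (hs : Fn C s) (hSm : Sm s) (hsd : ∃ c, ∀ a, s a * d a ≤ c * (sz a + 1)) (h0 : ∀ a, 0 < p a)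
    (hf : Pr C (fun q : α × ℕ => f q.1 q.2)) (hZ : Fn C Z) :
    Fn C (fun a => lq (p a) (d a) (s a) (f a) (Z a)) := by
  classical
  unfold lq
  obtain ⟨c, hc⟩ := hsd
  have hpow : Fn C (fun a => 2 ^ (s a * d a)) := Fn.pow2 (hs.mul hd) c hc
  refine LSC.Fn.mod ?_ hp
  refine LSC.Fn.sum (n := fun a => 2 ^ (s a * d a))
    (f := fun a y => if f a y then (∏ j ∈ Finset.range (d a),
      del (p a) (s a) (dgt (s a) y j) (dg (p a) (Z a) j)) % p a else 0)
    hpow ?_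
  refine LSC.Fn.ite hf ?_ (LSC.Fn.const 0)
  have hs1 : Fn C (fun q : α × ℕ => s q.1) := hs.comp LSC.Fn.fst
  have hp1 : Fn C (fun q : α × ℕ => p q.1) := hp.comp LSC.Fn.fst
  have hd1 : Fn C (fun q : α × ℕ => d q.1) := hd.comp LSC.Fn.fst
  have hZ1 : Fn C (fun q : α × ℕ => Z q.1) := hZ.comp LSC.Fn.fst
  have hS1 : Sm (fun q : α × ℕ => s q.1) := Sm.comp (C := C) hSm LSC.Fn.fst
  refine Fn.prodmod (α := α × ℕ) (n := fun q => d q.1)
    (f := fun q j => del (p q.1) (s q.1) (dgt (s q.1) q.2 j) (dg (p q.1) (Z q.1) j))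
    (m := fun q => p q.1) hd1 ?_ hp1 (fun q => h0 q.1)
  have hs2 : Fn C (fun q : (α × ℕ) × ℕ => s q.1.1) := hs1.comp LSC.Fn.fst
  have hp2 : Fn C (fun q : (α × ℕ) × ℕ => p q.1.1) := hp1.comp LSC.Fn.fst
  have hZ2 : Fn C (fun q : (α × ℕ) × ℕ => Z q.1.1) := hZ1.comp LSC.Fn.fst
  have hS2 : Sm (fun q : (α × ℕ) × ℕ => s q.1.1) := Sm.comp (C := C) hS1 LSC.Fn.fst
  exact Fn.del hp2 hs2
    (Fn.dgt hs2 (LSC.Fn.snd.comp LSC.Fn.fst) LSC.Fn.snd)
    (Fn.dg hp2 hZ2 LSC.Fn.snd) hS2 (fun q => h0 q.1.1)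

end LSA
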