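import Pool.Agent.H69B.Defs

/-!
# H69B/Pts: points of `F_p ^ d` as numbers

Module `H69B/Pts`. The digits in base `p`: induction on `d` as for `H69A/Num`. `pt p d` is a bijection from
the numbers below `p ^ d` to `Fin d → ZMod p` (injective by `dg_ext`, `dg_lt`; surjective by `dg_dpsum` with
the digits `(w j).val`). The counting lemmas: `Finset.card_bij` (or `card_nbij`), for pairs the number is
`x = z + p ^ d * v` resp. `x = τ + p * v`.
-/

set_option autoImplicit false

namespace LSA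

theorem dg_lt {p : ℕ} (hp : 0 < p) (Z j : ℕ) : dg p Z j < p :=
  Nat.mod_lt _ hp

theorem dpsum_lt {p d : ℕ} (v : ℕ → ℕ) (hv : ∀ j < d, v j < p) :
    ∑ j ∈ Finset.range d, v j * p ^ j < p ^ d := by
  induction d with
  | zero => simp
  | succ d ih =>
    rw [Finset.sum_range_succ, pow_succ]
    have h1 := ih fun j hj => hv j (by omega)
    have h2 : v d + 1 ≤ p := hv d (by omega)
    have h3 : (v d + 1) * p ^ d ≤ p * p ^ d := Nat.mul_le_mul_right _ h2
    have h4 : (v d + 1) * p ^ d = v d * p ^ d + p ^ d := by ring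
    have h5 : p * p ^ d = p ^ d * p := by ring
    omega

theorem dg_dpsum {p d : ℕ} (v : ℕ → ℕ) (hv : ∀ j < d, v j < p) {i : ℕ} (hi : i < d) :
    dg p (∑ j ∈ Finset.range d, v j * p ^ j) i = v i := by
  have hp : 0 < p := lt_of_le_of_lt (Nat.zero_le _) (hv i hi)
  induction d with
  | zero => omega
  | succ d ih =>
    have h1 := dpsum_lt (d := d) v fun j hj => hv j (by omega)
    rw [Finset.sum_range_succ]
    unfold dg
    rcases Nat.lt_or_ge i d with h | h
    · have h2 : v d * p ^ d = (v d * p ^ (d - i)) * p ^ i := by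
        rw [mul_assoc, ← pow_add]
        congr 2
        omega
      rw [h2, Nat.add_mul_div_right _ _ (pow_pos hp i)]
      have h3 : v d * p ^ (d - i) = p * (v d * p ^ (d - i - 1)) := by
        have h4 : p ^ (d - i) = p ^ (d - i - 1) * p := by
          rw [← pow_succ]
          congr 1
          omega
        rw [h4]
        ring
      rw [h3, Nat.add_mul_mod_self_left]
      exact ih (fun j hj => hv j (by omega)) h
    · have h2 : i = d := by omega
      subst h2
      rw [Nat.add_mul_div_right _ _ (pow_pos hp i), Nat.div_eq_of_lt h1, zero_add]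
      exact Nat.mod_eq_of_lt (hv i (by omega))

private theorem dg_sum (p d Z : ℕ) : ∑ j ∈ Finset.range d, dg p Z j * p ^ j = Z % p ^ d := by
  induction d with
  | zero => simp [Nat.mod_one]
  | succ d ih =>
    rw [Finset.sum_range_succ, ih, Nat.mod_pow_succ]
    unfold dg
    ring

theorem dg_ext {p d Z Z' : ℕ} (h : Z < p ^ d) (h' : Z' < p ^ d)
    (he : ∀ j < d, dg p Z j = dg p Z' j) : Z = Z' := by
  rw [← Nat.mod_eq_of_lt h, ← Nat.mod_eq_of_lt h', ← dg_sum, ← dg_sum]
  refine Finset.sum_congr rfl fun j hj => ?_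
  rw [he j (Finset.mem_range.mp hj)]

/-- the point -/
def pt (p d Z : ℕ) : Fin d → ZMod p := fun j => ((dg p Z j : ℕ) : ZMod p)

theorem pt_inj {p d Z Z' : ℕ} (hp : 0 < p) (h : Z < p ^ d) (h' : Z' < p ^ d)
    (he : pt p d Z = pt p d Z') : Z = Z' := by
  refine dg_ext h h' fun j hj => ?_
  have h1 := congrFun he ⟨j, hj⟩
  simp only [pt] at h1
  rw [ZMod.natCast_eq_natCast_iff', Nat.mod_eq_of_lt (dg_lt hp _ _),
    Nat.mod_eq_of_lt (dg_lt hp _ _)] at h1
  exact h1

theorem pt_surj {p d : ℕ} (hp : 0 < p) (w : Fin d → ZMod p) : ∃ Z < p ^ d, pt p d Z = w := by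
  have : NeZero p := ⟨hp.ne'⟩
  set v : ℕ → ℕ := fun j => if h : j < d then (w ⟨j, h⟩).val else 0 with hv
  have hvl : ∀ j < d, v j < p := by
    intro j hj
    simp only [hv, dif_pos hj]
    exact ZMod.val_lt _
  refine ⟨_, dpsum_lt v hvl, ?_⟩
  funext j
  simp only [pt]
  rw [dg_dpsum v hvl j.2]
  simp only [hv, dif_pos j.2]
  exact ZMod.natCast_zmod_val _

theorem lp_lt {p : ℕ} (hp : 0 < p) (d z v τ : ℕ) : lp p d z v τ < p ^ d :=
  dpsum_lt (fun j => (dg p z j + τ * dg p v j) % p) fun _ _ => Nat.mod_lt _ hp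

theorem pt_lp {p : ℕ} (hp : 0 < p) (d z v τ : ℕ) :
    pt p d (lp p d z v τ) = pt p d z + ((τ : ℕ) : ZMod p) • pt p d v := by
  funext j
  simp only [pt, lp, Pi.add_apply, Pi.smul_apply, smul_eq_mul]
  rw [dg_dpsum (fun j => (dg p z j + τ * dg p v j) % p) (fun _ _ => Nat.mod_lt _ hp) j.2,
    ZMod.natCast_mod]
  push_cast
  rfl

theorem ls_lt {p : ℕ} (hp : 0 < p) (d s y t r : ℕ) : ls p d s y t r < p ^ d :=
  dpsum_lt (fun j => (dgt s y j + t * dg p r j) % p) fun _ _ => Nat.mod_lt _ hp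

theorem pt_ls {p : ℕ} (hp : 0 < p) (d s y t r : ℕ) :
    pt p d (ls p d s y t r) = (fun j : Fin d => ((dgt s y j : ℕ) : ZMod p)) +
      ((t : ℕ) : ZMod p) • pt p d r := by
  funext j
  simp only [pt, ls, Pi.add_apply, Pi.smul_apply, smul_eq_mul]
  rw [dg_dpsum (fun j => (dgt s y j + t * dg p r j) % p) (fun _ _ => Nat.mod_lt _ hp) j.2,
    ZMod.natCast_mod]
  push_cast
  rfl

/-- going back along a line -/
theorem lp_lp {p d z v τ : ℕ} (hp : 0 < p) (hz : z < p ^ d) (hτ : τ ≤ p) :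
    lp p d (lp p d z v (p - τ)) v τ = z := by
  refine pt_inj hp (lp_lt hp _ _ _ _) hz ?_
  rw [pt_lp hp, pt_lp hp, add_assoc, ← add_smul, ← Nat.cast_add, Nat.sub_add_cancel hτ,
    ZMod.natCast_self, zero_smul, add_zero]

open Classical in
theorem card_pt {p d : ℕ} [Fact p.Prime] (φ : (Fin d → ZMod p) → Prop) :
    ((Finset.range (p ^ d)).filter fun Z => φ (pt p d Z)).card =
      (Finset.univ.filter fun w : Fin d → ZMod p => φ w).card := by
  have hp : 0 < p := (Fact.out : p.Prime).pos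
  refine Finset.card_bij (fun Z _ => pt p d Z) ?_ ?_ ?_
  · intro Z hZ
    rw [Finset.mem_filter] at hZ
    exact Finset.mem_filter.mpr ⟨Finset.mem_univ _, hZ.2⟩
  · intro Z hZ Z' hZ' he
    rw [Finset.mem_filter, Finset.mem_range] at hZ hZ'
    exact pt_inj hp hZ.1 hZ'.1 he
  · intro w hw
    obtain ⟨Z, hZ, rfl⟩ := pt_surj hp w
    exact ⟨Z, Finset.mem_filter.mpr ⟨Finset.mem_range.mpr hZ, (Finset.mem_filter.mp hw).2⟩, rfl⟩

open Classical in
theorem card_pt2 {p d : ℕ} [Fact p.Prime] (φ : (Fin d → ZMod p) → (Fin d → ZMod p) → Prop) :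
    ((Finset.range (p ^ d * p ^ d)).filter fun x =>
      φ (pt p d (x % p ^ d)) (pt p d (x / p ^ d))).card =
      (Finset.univ.filter fun w : (Fin d → ZMod p) × (Fin d → ZMod p) => φ w.1 w.2).card := by
  have hp : 0 < p := (Fact.out : p.Prime).pos
  have hP : 0 < p ^ d := pow_pos hp d
  refine Finset.card_bij (fun x _ => (pt p d (x % p ^ d), pt p d (x / p ^ d))) ?_ ?_ ?_
  · intro x hx
    rw [Finset.mem_filter] at hx
    exact Finset.mem_filter.mpr ⟨Finset.mem_univ _, hx.2⟩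
  · intro x hx x' hx' he
    rw [Finset.mem_filter, Finset.mem_range] at hx hx'
    rw [Prod.mk.injEq] at he
    have h1 := pt_inj hp (Nat.mod_lt _ hP) (Nat.mod_lt _ hP) he.1
    have h2 := pt_inj hp (Nat.div_lt_of_lt_mul hx.1) (Nat.div_lt_of_lt_mul hx'.1) he.2
    rw [← Nat.mod_add_div x (p ^ d), ← Nat.mod_add_div x' (p ^ d), h1, h2]
  · intro w hw
    obtain ⟨z, hz, hz'⟩ := pt_surj hp w.1
    obtain ⟨v, hv, hv'⟩ := pt_surj hp w.2
    have h1 : (z + p ^ d * v) % p ^ d = z := by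
      rw [Nat.add_mul_mod_self_left, Nat.mod_eq_of_lt hz]
    have h2 : (z + p ^ d * v) / p ^ d = v := by
      rw [Nat.add_mul_div_left _ _ hP, Nat.div_eq_of_lt hz, zero_add]
    refine ⟨z + p ^ d * v, Finset.mem_filter.mpr ⟨Finset.mem_range.mpr ?_, ?_⟩, ?_⟩
    · calc z + p ^ d * v < p ^ d + p ^ d * v := by omega
        _ = p ^ d * (v + 1) := by ring
        _ ≤ p ^ d * p ^ d := Nat.mul_le_mul_left _ hv
    · rw [h1, h2, hz', hv']
      exact (Finset.mem_filter.mp hw).2
    · rw [h1, h2, hz', hv']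

open Classical in
theorem card_ptF {p d : ℕ} [Fact p.Prime] (φ : ZMod p → (Fin d → ZMod p) → Prop) :
    ((Finset.range (p * p ^ d)).filter fun x =>
      φ ((x % p : ℕ) : ZMod p) (pt p d (x / p))).card =
      (Finset.univ.filter fun w : ZMod p × (Fin d → ZMod p) => φ w.1 w.2).card := by
  have hp : 0 < p := (Fact.out : p.Prime).pos
  refine Finset.card_bij (fun x _ => (((x % p : ℕ) : ZMod p), pt p d (x / p))) ?_ ?_ ?_
  · intro x hx
    rw [Finset.mem_filter] at hx
    exact Finset.mem_filter.mpr ⟨Finset.mem_univ _, hx.2⟩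
  · intro x hx x' hx' he
    rw [Finset.mem_filter, Finset.mem_range] at hx hx'
    rw [Prod.mk.injEq] at he
    have h1 : x % p = x' % p := by
      have h3 := he.1
      rw [ZMod.natCast_eq_natCast_iff', Nat.mod_mod, Nat.mod_mod] at h3
      exact h3
    have h2 := pt_inj hp (Nat.div_lt_of_lt_mul hx.1) (Nat.div_lt_of_lt_mul hx'.1) he.2
    rw [← Nat.mod_add_div x p, ← Nat.mod_add_div x' p, h1, h2]
  · intro w hw
    have : NeZero p := ⟨hp.ne'⟩
    obtain ⟨v, hv, hv'⟩ := pt_surj hp w.2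
    have hz : w.1.val < p := ZMod.val_lt _
    have h1 : (w.1.val + p * v) % p = w.1.val := by
      rw [Nat.add_mul_mod_self_left, Nat.mod_eq_of_lt hz]
    have h2 : (w.1.val + p * v) / p = v := by
      rw [Nat.add_mul_div_left _ _ hp, Nat.div_eq_of_lt hz, zero_add]
    have h3 : ((w.1.val : ℕ) : ZMod p) = w.1 := ZMod.natCast_zmod_val _
    refine ⟨w.1.val + p * v, Finset.mem_filter.mpr ⟨Finset.mem_range.mpr ?_, ?_⟩, ?_⟩
    · calc w.1.val + p * v < p + p * v := by omega
        _ = p * (v + 1) := by ring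
        _ ≤ p * p ^ d := Nat.mul_le_mul_left _ hv
    · rw [h1, h2, hv', h3]
      exact (Finset.mem_filter.mp hw).2
    · rw [h1, h2, hv', h3]

end LSA
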