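import Pool.Agent.H69B.Samp
import Pool.Agent.H69B.Pts
import Pool.Agent.H69A.Line
import Pool.Agent.H69A.Coef

/-!
# H69B/LI: from line tables to the message

Module `H69B/LI`.

* `cast_lq`: as `cast_lde` in `H69A/Line`.
* `pm_bad`: apply `samp` with `F = ZMod p`, `V = Fin d → ZMod p` and the set `Bs` of the pairs `(a, v)` such that
  the line is bad, i.e. for the numbers `z, v' < p ^ d` with `pt z = a`, `pt v' = v` there is `τ < p` with
  `T z v' τ ≠ P (lp p d z v' τ)` (`card_pt2`; write `Bs` as the set of the `(a, v)` with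
  `∃ z < p ^ d, ∃ v' < p ^ d, pt z = a ∧ pt v' = v ∧ ∃ τ < p, ...`, unique by `pt_inj`). Let `z < p ^ d` with
  `pm p d T z ≠ P z`. Then at least half of the `x < p * p ^ d` have
  `T (lp p d z (x / p) (p - x % p)) (x / p) (x % p) ≠ P z`: otherwise more than half have the value `c = P z`, and no
  other value has a majority, so `pm p d T z = P z` (`LSC.mu_eq`, `hP`). For these `x`, with `τ = x % p`,
  `v = x / p`, the line `(lp p d z v (p - τ), v)` is bad (`lp_lp`, `lp_lt`), and
  `pt (lp p d z v (p - τ)) = pt z - τ • pt v` (`pt_lp`, `((p - τ : ℕ) : ZMod p) = - τ`); `card_ptF`, `card_pt`.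
* `de_iff`: as `dec_iff` in `H69A/DecOk` (which has another encoding of the points): for fixed `0 < t < p`
  the map `r ↦ ls p d s y t r` is injective on the numbers below `p ^ d` (`pt_ls`, `pt_inj`), so at most
  `m * bad` numbers `r < p ^ d` have some `t ∈ {1, ..., m}` with `B (ls ...) ≠ lq ... (ls ...)`; for all others the
  sum is in `ZMod p` equal to `∑ t < m, - (-1) ^ (t + 1) * (m choose (t + 1)) * g.eval (t + 1) = g.eval 0`, where `g`
  is the polynomial of `line_poly` for `x j = dgt s y j` and `z j = x j + dg p r j` (`cast_cf`, `cast_lq`,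
  `diff_sum`, `ext_point`), that is `1` or `0`.
* `li`: `p * bad ≤ 4 * p ^ d`, so `2 * m * bad * p ≤ 8 * m * p ^ d < p * p ^ d`.
-/

set_option autoImplicit false

namespace LSA

theorem lq_lt {p : ℕ} (hp : 0 < p) (d s : ℕ) (f : ℕ → Prop) (Z : ℕ) : lq p d s f Z < p := by
  unfold lq
  exact Nat.mod_lt _ hp

theorem cast_lq {p : ℕ} [Fact p.Prime] {s : ℕ} (hs : 2 ^ s ≤ p) (d : ℕ) (f : ℕ → Prop) (Z : ℕ) :
    ((lq p d s f Z : ℕ) : ZMod p) = ext p s d f (fun j => ((dg p Z j : ℕ) : ZMod p)) := by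
  classical
  unfold lq ext
  rw [ZMod.natCast_mod, Nat.cast_sum]
  apply Finset.sum_congr rfl
  intro y _
  by_cases hf : f y
  · rw [if_pos hf, if_pos hf, ZMod.natCast_mod, Nat.cast_prod]
    apply Finset.prod_congr rfl
    intro j _
    exact cast_del hs (dgt_lt s y j) _
  · rw [if_neg hf, if_neg hf, Nat.cast_zero]

open Classical in
/-- a value with a strict majority is the value `pm` -/
private theorem pm_eq {p d : ℕ} (T : ℕ → ℕ → ℕ → ℕ) (z c : ℕ) (hc : c < p)
    (h : p * p ^ d < 2 * ((Finset.range (p * p ^ d)).filter fun x =>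
      T (lp p d z (x / p) (p - x % p)) (x / p) (x % p) = c).card) : pm p d T z = c := by
  unfold pm
  apply LSC.mu_eq hc h
  intro j hj hj'
  have hdis : Disjoint ((Finset.range (p * p ^ d)).filter fun x =>
      T (lp p d z (x / p) (p - x % p)) (x / p) (x % p) = j)
      ((Finset.range (p * p ^ d)).filter fun x =>
      T (lp p d z (x / p) (p - x % p)) (x / p) (x % p) = c) := by
    rw [Finset.disjoint_left]
    intro x hx hx'
    have h1 := (Finset.mem_filter.1 hx).2
    have h2 := (Finset.mem_filter.1 hx').2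
    omega
  have h3 := Finset.card_union_of_disjoint hdis
  have h4 := Finset.card_le_card (Finset.union_subset
    (Finset.filter_subset (fun x => T (lp p d z (x / p) (p - x % p)) (x / p) (x % p) = j)
      (Finset.range (p * p ^ d)))
    (Finset.filter_subset (fun x => T (lp p d z (x / p) (p - x % p)) (x / p) (x % p) = c)
      (Finset.range (p * p ^ d))))
  rw [Finset.card_range] at h4
  omega

open Classical in
private theorem samp' {F V : Type} [Field F] [Fintype F] [AddCommGroup V] [Module F V] [Fintype V]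
    (B : Finset (V × V)) (hB : 4 * B.card ≤ Fintype.card V * Fintype.card V) (S : Finset ℕ)
    (u : ℕ → V) (hu : Set.InjOn u S)
    (hS : ∀ z ∈ S, ∃ (R : Finset ℕ) (e : ℕ → F × V), Set.InjOn e R ∧
      (∀ x ∈ R, (u z - (e x).1 • (e x).2, (e x).2) ∈ B) ∧
      Fintype.card F * Fintype.card V ≤ 2 * R.card) :
    Fintype.card F * S.card ≤ 4 * Fintype.card V := by
  refine le_trans (Nat.mul_le_mul_left _ ?_) (samp B hB)
  apply Finset.card_le_card_of_injOn u _ hu
  intro z hz
  obtain ⟨R, e, he, hR, hc⟩ := hS z (Finset.mem_coe.1 hz)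
  refine Finset.mem_coe.2 (Finset.mem_filter.2 ⟨Finset.mem_univ _, ?_⟩)
  refine hc.trans (Nat.mul_le_mul_left 2 ?_)
  apply Finset.card_le_card_of_injOn e _ he
  intro x hx
  exact Finset.mem_coe.2 (Finset.mem_filter.2 ⟨Finset.mem_univ _, hR x (Finset.mem_coe.1 hx)⟩)

open Classical in
theorem pm_bad {p d : ℕ} (hp : p.Prime) (T : ℕ → ℕ → ℕ → ℕ) (P : ℕ → ℕ) (hP : ∀ Z, P Z < p)
    (hT : 4 * ((Finset.range (p ^ d * p ^ d)).filter fun x => ∃ τ < p,
      T (x % p ^ d) (x / p ^ d) τ ≠ P (lp p d (x % p ^ d) (x / p ^ d) τ)).card ≤ p ^ d * p ^ d) :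
    p * ((Finset.range (p ^ d)).filter fun z => pm p d T z ≠ P z).card ≤ 4 * p ^ d := by
  have hfact := Fact.mk hp
  have hp0 : 0 < p := hp.pos
  have hn0 : 0 < p ^ d := pow_pos hp0 d
  have hcV : Fintype.card (Fin d → ZMod p) = p ^ d := by
    rw [Fintype.card_fun, ZMod.card, Fintype.card_fin]
  have hcF : Fintype.card (ZMod p) = p := ZMod.card p
  set bad : ℕ → ℕ → Prop := fun z v => ∃ τ < p, T z v τ ≠ P (lp p d z v τ) with hbad
  obtain ⟨φ, hφ⟩ : ∃ φ : (Fin d → ZMod p) → (Fin d → ZMod p) → Prop, ∀ a w, φ a w ↔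
      ∃ z < p ^ d, ∃ v < p ^ d, pt p d z = a ∧ pt p d v = w ∧ bad z v :=
    ⟨_, fun _ _ => Iff.rfl⟩
  obtain ⟨Bs, hBm, hBs⟩ : ∃ Bs : Finset ((Fin d → ZMod p) × (Fin d → ZMod p)),
      (∀ a w, (a, w) ∈ Bs ↔ φ a w) ∧ Bs.card = ((Finset.range (p ^ d * p ^ d)).filter fun x =>
      φ (pt p d (x % p ^ d)) (pt p d (x / p ^ d))).card := by
    refine ⟨_, fun a w => ?_, (card_pt2 (p := p) (d := d) φ).symm⟩
    simp
  have hBcard : 4 * Bs.card ≤ Fintype.card (Fin d → ZMod p) * Fintype.card (Fin d → ZMod p) := by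
    rw [hcV, hBs]
    refine le_trans (Nat.mul_le_mul_left 4 (Finset.card_le_card ?_)) hT
    intro x hx
    rw [Finset.mem_filter] at hx ⊢
    refine ⟨hx.1, ?_⟩
    obtain ⟨z, hz, v, hv, h1, h2, h3⟩ := (hφ _ _).1 hx.2
    have hx1 : x % p ^ d < p ^ d := Nat.mod_lt _ hn0
    have hx2 : x / p ^ d < p ^ d := Nat.div_lt_of_lt_mul (Finset.mem_range.1 hx.1)
    have e1 : z = x % p ^ d := pt_inj hp0 hz hx1 h1
    have e2 : v = x / p ^ d := pt_inj hp0 hv hx2 h2
    subst e1
    subst e2
    exact h3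
  have key := samp' (F := ZMod p) (V := Fin d → ZMod p) Bs hBcard
    ((Finset.range (p ^ d)).filter fun z => pm p d T z ≠ P z) (fun z => pt p d z) ?_ ?_
  · rwa [hcF, hcV] at key
  · intro z hz z' hz' he
    have h1 := Finset.mem_filter.1 (Finset.mem_coe.1 hz)
    have h2 := Finset.mem_filter.1 (Finset.mem_coe.1 hz')
    exact pt_inj hp0 (Finset.mem_range.1 h1.1) (Finset.mem_range.1 h2.1) he
  · intro z hz
    have hz' := Finset.mem_filter.1 hz
    have hzn : z < p ^ d := Finset.mem_range.1 hz'.1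
    -- the number of `x` with the right value
    have h1 : 2 * ((Finset.range (p * p ^ d)).filter fun x =>
        T (lp p d z (x / p) (p - x % p)) (x / p) (x % p) = P z).card ≤ p * p ^ d := by
      by_contra hc
      push Not at hc
      exact hz'.2 (pm_eq T z (P z) (hP z) hc)
    have h2 := Finset.card_filter_add_card_filter_not (s := Finset.range (p * p ^ d))
      (fun x => T (lp p d z (x / p) (p - x % p)) (x / p) (x % p) = P z)
    rw [Finset.card_range] at h2
    have h4 : p * p ^ d ≤ 2 * ((Finset.range (p * p ^ d)).filter fun x =>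
        ¬ T (lp p d z (x / p) (p - x % p)) (x / p) (x % p) = P z).card := by omega
    refine ⟨_, fun x : ℕ => (((x % p : ℕ) : ZMod p), pt p d (x / p)), ?_, ?_,
      (by rw [hcF, hcV]; exact h4)⟩
    · intro x hx x' hx' he
      have g1 := Finset.mem_filter.1 (Finset.mem_coe.1 hx)
      have g2 := Finset.mem_filter.1 (Finset.mem_coe.1 hx')
      have e1 : ((x % p : ℕ) : ZMod p) = ((x' % p : ℕ) : ZMod p) := congrArg Prod.fst he
      have e2 : pt p d (x / p) = pt p d (x' / p) := congrArg Prod.snd he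
      rw [ZMod.natCast_eq_natCast_iff', Nat.mod_mod, Nat.mod_mod] at e1
      have e3 : x / p = x' / p := pt_inj hp0
        (Nat.div_lt_of_lt_mul (Finset.mem_range.1 g1.1))
        (Nat.div_lt_of_lt_mul (Finset.mem_range.1 g2.1)) e2
      rw [← Nat.div_add_mod x p, ← Nat.div_add_mod x' p, e1, e3]
    · intro x hx
      have hx' := Finset.mem_filter.1 hx
      have hxr := Finset.mem_range.1 hx'.1
      have hv : x / p < p ^ d := Nat.div_lt_of_lt_mul hxr
      have hτ : x % p < p := Nat.mod_lt _ hp0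
      refine (hBm _ _).2 ((hφ _ _).2 ?_)
      refine ⟨lp p d z (x / p) (p - x % p), lp_lt hp0 _ _ _ _, x / p, hv, ?_, rfl, x % p, hτ, ?_⟩
      · rw [pt_lp hp0, Nat.cast_sub hτ.le]
        simp only [CharP.cast_eq_zero, zero_sub, neg_smul]
        rw [sub_eq_add_neg]
      · rw [lp_lp hp0 hzn hτ.le]
        exact hx'.2

open Classical in
private theorem ext_congr' {p s d : ℕ} (f : ℕ → Prop) {w w' : ℕ → ZMod p}
    (h : ∀ j < d, w j = w' j) : ext p s d f w = ext p s d f w' := by
  unfold ext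
  refine Finset.sum_congr rfl fun y _ => ?_
  by_cases hf : f y
  · rw [if_pos hf, if_pos hf]
    refine Finset.prod_congr rfl fun j hj => ?_
    rw [h j (Finset.mem_range.1 hj)]
  · rw [if_neg hf, if_neg hf]

private theorem ls_inj {p d s y t : ℕ} (hp : p.Prime) (ht0 : 0 < t) (htp : t < p) {r r' : ℕ}
    (hr : r < p ^ d) (hr' : r' < p ^ d) (he : ls p d s y t r = ls p d s y t r') : r = r' := by
  have hfact := Fact.mk hp
  have h1 := congrArg (pt p d) he
  rw [pt_ls hp.pos, pt_ls hp.pos] at h1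
  have h2 := add_left_cancel h1
  have ht : ((t : ℕ) : ZMod p) ≠ 0 := by
    intro h0
    have := (ZMod.natCast_eq_zero_iff _ _).1 h0
    have := Nat.le_of_dvd ht0 this
    omega
  have h3 : pt p d r = pt p d r' := by
    funext j
    have := congrFun h2 j
    simp only [Pi.smul_apply, smul_eq_mul] at this
    exact mul_left_cancel₀ ht this
  exact pt_inj hp.pos hr hr' h3

open Classical in
private theorem de_good {p d s m : ℕ} (hp : p.Prime) (hs : 2 ^ s ≤ p) (hm : d * 2 ^ s < m)
    (hmp : m < p) (f : ℕ → Prop) (B : ℕ → ℕ) {y : ℕ} (hy : y < 2 ^ (s * d)) {r : ℕ}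
    (h : ∀ t, 1 ≤ t → t ≤ m → B (ls p d s y t r) = lq p d s f (ls p d s y t r)) :
    (∑ t ∈ Finset.range m, cf p m (t + 1) * B (ls p d s y (t + 1) r)) % p =
      if f y then 1 else 0 := by
  have hfact := Fact.mk hp
  obtain ⟨g, hg1, hg2⟩ := line_poly (p := p) s d f (fun j => ((dgt s y j : ℕ) : ZMod p))
    (fun j => ((dgt s y j : ℕ) : ZMod p) + ((dg p r j : ℕ) : ZMod p))
  have hval : ∀ t, 1 ≤ t → t ≤ m →
      ((B (ls p d s y t r) : ℕ) : ZMod p) = g.eval ((t : ℕ) : ZMod p) := by
    intro t ht1 ht2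
    rw [h t ht1 ht2, cast_lq hs, hg2]
    refine ext_congr' f fun j hj => ?_
    have h1 := congrFun (pt_ls hp.pos d s y t r) ⟨j, hj⟩
    simp only [pt, Pi.add_apply, Pi.smul_apply, smul_eq_mul] at h1
    rw [h1]
    ring
  have hsum : ((∑ t ∈ Finset.range m, cf p m (t + 1) * B (ls p d s y (t + 1) r) : ℕ) : ZMod p) =
      ((if f y then 1 else 0 : ℕ) : ZMod p) := by
    have h0 : ((if f y then 1 else 0 : ℕ) : ZMod p) = g.eval ((0 : ℕ) : ZMod p) := by
      rw [hg2]
      have := ext_point (p := p) hs d f hy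
      have h1 : ext p s d f (fun j => ((dgt s y j : ℕ) : ZMod p) + ((0 : ℕ) : ZMod p) *
          ((((dgt s y j : ℕ) : ZMod p) + ((dg p r j : ℕ) : ZMod p)) -
            ((dgt s y j : ℕ) : ZMod p))) =
          ext p s d f (fun j => ((dgt s y j : ℕ) : ZMod p)) :=
        ext_congr' f fun j _ => by rw [Nat.cast_zero, zero_mul, add_zero]
      rw [h1, this]
      by_cases hf : f y
      · simp [hf]
      · simp [hf]
    rw [h0]
    have h2 := diff_sum g m (hg1.trans_lt hm)
    rw [Finset.sum_range_succ'] at h2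
    have h3 : ((∑ t ∈ Finset.range m, cf p m (t + 1) * B (ls p d s y (t + 1) r) : ℕ) : ZMod p) =
        - ∑ t ∈ Finset.range m, (-1) ^ (t + 1) * (m.choose (t + 1) : ZMod p) *
          g.eval (((t + 1 : ℕ)) : ZMod p) := by
      rw [Nat.cast_sum, ← Finset.sum_neg_distrib]
      refine Finset.sum_congr rfl fun t ht => ?_
      have ht' := Finset.mem_range.1 ht
      rw [Nat.cast_mul, cast_cf hmp (by omega), hval (t + 1) (by omega) (by omega)]
      ring
    rw [h3]
    have h4 : (-1 : ZMod p) ^ 0 * (m.choose 0 : ZMod p) * g.eval ((0 : ℕ) : ZMod p) =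
        g.eval ((0 : ℕ) : ZMod p) := by simp
    rw [h4] at h2
    linear_combination -h2
  have h5 := (ZMod.natCast_eq_natCast_iff' _ _ _).1 hsum
  rw [h5]
  have hp2 := hp.two_le
  split_ifs
  · exact Nat.mod_eq_of_lt (by omega)
  · exact Nat.zero_mod p

open Classical in
theorem de_iff {p d s m : ℕ} (hp : p.Prime) (hs : 2 ^ s ≤ p) (hm : d * 2 ^ s < m) (hmp : m < p)
    (f : ℕ → Prop) (B : ℕ → ℕ)
    (hB : 2 * m * ((Finset.range (p ^ d)).filter fun Z => B Z ≠ lq p d s f Z).card < p ^ d)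
    {y : ℕ} (hy : y < 2 ^ (s * d)) : de p d s m B y ↔ f y := by
  set U := Finset.range (p ^ d) with hU
  have hUc : U.card = p ^ d := by rw [hU, Finset.card_range]
  set Bad := U.filter (fun Z => B Z ≠ lq p d s f Z) with hBad
  set S' := (Finset.Icc 1 m).biUnion
    (fun t => U.filter (fun r => ls p d s y t r ∈ Bad)) with hS'
  have hcard : S'.card ≤ m * Bad.card := by
    refine Finset.card_biUnion_le.trans ?_
    have h1 : ∀ t ∈ Finset.Icc 1 m,
        (U.filter (fun r => ls p d s y t r ∈ Bad)).card ≤ Bad.card := by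
      intro t ht
      rw [Finset.mem_Icc] at ht
      apply Finset.card_le_card_of_injOn (fun r => ls p d s y t r)
      · intro r hr
        have hr' := Finset.mem_filter.1 (Finset.mem_coe.1 hr)
        exact Finset.mem_coe.2 hr'.2
      · intro r hr r' hr' he
        have h2 := Finset.mem_filter.1 (Finset.mem_coe.1 hr)
        have h3 := Finset.mem_filter.1 (Finset.mem_coe.1 hr')
        exact ls_inj hp (by omega) (by omega) (Finset.mem_range.1 h2.1) (Finset.mem_range.1 h3.1) he
    refine (Finset.sum_le_sum h1).trans ?_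
    rw [Finset.sum_const, Nat.card_Icc, smul_eq_mul, Nat.add_sub_cancel]
  have h2S : 2 * S'.card < p ^ d := by
    have h1 : 2 * S'.card ≤ 2 * (m * Bad.card) := Nat.mul_le_mul_left _ hcard
    have h2 : 2 * (m * Bad.card) = 2 * m * Bad.card := by ring
    omega
  have hgood : ∀ r ∈ U, r ∉ S' →
      (∑ t ∈ Finset.range m, cf p m (t + 1) * B (ls p d s y (t + 1) r)) % p =
        if f y then 1 else 0 := by
    intro r hr hrS
    refine de_good hp hs hm hmp f B hy ?_
    intro t ht1 ht2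
    by_contra hne
    apply hrS
    rw [hS', Finset.mem_biUnion]
    refine ⟨t, Finset.mem_Icc.2 ⟨ht1, ht2⟩, Finset.mem_filter.2 ⟨hr, ?_⟩⟩
    exact Finset.mem_filter.2 ⟨Finset.mem_range.2 (ls_lt hp.pos _ _ _ _ _), hne⟩
  unfold de
  rw [← hU]
  by_cases hf : f y
  · refine iff_of_true ?_ hf
    have h1 : U \ S' ⊆ U.filter (fun r =>
        (∑ t ∈ Finset.range m, cf p m (t + 1) * B (ls p d s y (t + 1) r)) % p = 1) := by
      intro r hr
      rw [Finset.mem_sdiff] at hr
      refine Finset.mem_filter.2 ⟨hr.1, ?_⟩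
      rw [hgood r hr.1 hr.2, if_pos hf]
    have h2 := Finset.card_le_card h1
    have h3 := Finset.le_card_sdiff S' U
    omega
  · refine iff_of_false ?_ hf
    have h1 : U.filter (fun r =>
        (∑ t ∈ Finset.range m, cf p m (t + 1) * B (ls p d s y (t + 1) r)) % p = 1) ⊆ S' := by
      intro r hr
      have hr' := Finset.mem_filter.1 hr
      by_contra hrS
      have h3 := hgood r hr'.1 hrS
      rw [if_neg hf, hr'.2] at h3
      exact one_ne_zero h3
    have h2 := Finset.card_le_card h1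
    omega

open Classical in
theorem li {p d s m : ℕ} (hp : p.Prime) (hs : 2 ^ s ≤ p) (hm : d * 2 ^ s < m) (hmp : 16 * m ≤ p)
    (f : ℕ → Prop) (T : ℕ → ℕ → ℕ → ℕ)
    (hT : 4 * ((Finset.range (p ^ d * p ^ d)).filter fun x => ∃ τ < p,
      T (x % p ^ d) (x / p ^ d) τ ≠ lq p d s f (lp p d (x % p ^ d) (x / p ^ d) τ)).card ≤
      p ^ d * p ^ d) {y : ℕ} (hy : y < 2 ^ (s * d)) : de p d s m (pm p d T) y ↔ f y := by
  have hm0 : 0 < m := by omega
  have hp0 := hp.pos
  have hn0 : 0 < p ^ d := pow_pos hp0 d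
  refine de_iff hp hs hm (by omega) f _ ?_ hy
  have h1 := pm_bad hp T (lq p d s f) (lq_lt hp0 d s f) hT
  set b := ((Finset.range (p ^ d)).filter fun Z => pm p d T Z ≠ lq p d s f Z).card with hb
  by_contra hc
  push Not at hc
  have h2 : p * p ^ d ≤ p * (2 * m * b) := Nat.mul_le_mul_left _ hc
  have h3 : p * (2 * m * b) = 2 * m * (p * b) := by ring
  have h4 : 2 * m * (p * b) ≤ 2 * m * (4 * p ^ d) := Nat.mul_le_mul_left _ h1
  have h5 : 2 * m * (4 * p ^ d) = 8 * m * p ^ d := by ring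
  have h6 : 8 * m * p ^ d < p * p ^ d := Nat.mul_lt_mul_of_pos_right (by omega) hn0
  omega

end LSA
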