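import Mathlib

/-!
# H69B/Samp: sampling with lines

Module `H69B/Samp` (pure algebra and Cauchy-Schwarz). `V` is a finite vector space over the finite field `F`,
a line is a pair `(a, v)`, with the points `a + τ • v`. If at most a quarter of all lines are bad, then at
most `4 |V| / |F|` points `z` have the property that at least half of the pairs `(τ, v)` give a bad line
`(z - τ • v, v)` (with the point `z` at the parameter `τ`).

Proof (over the reals). Let `n = |V|`, `q = |F|`, `δ = B.card / n ^ 2 ≤ 1 / 4`, `g (a, v) = 1_B - δ`, and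
`h z = (∑ (τ, v), g (z - τ • v, v)) / (q * n)`. Then `∑ z, h z = 0` and `∑ (a, v), g ^ 2 = n ^ 2 * δ * (1 - δ)`.
Let `H = ∑ z, h z ^ 2`. By the substitution `z = a + τ • v`,
`q * n * H = ∑ z, h z * ∑ (τ, v), g (z - τ • v, v) = ∑ (a, v), g (a, v) * ∑ τ, h (a + τ • v)`, so by
Cauchy-Schwarz `(q * n * H) ^ 2 ≤ (∑ g ^ 2) * ∑ (a, v), (∑ τ, h (a + τ • v)) ^ 2`. Here
`∑ (a, v), (∑ τ, h (a + τ • v)) ^ 2 = ∑ (τ, τ'), ∑ (a, v), h (a + τ • v) * h (a + τ' • v)`; for `τ ≠ τ'` the map
`(a, v) ↦ (a + τ • v, a + τ' • v)` is a bijection of `V × V`, so the inner sum is `(∑ h) ^ 2 = 0`; for `τ = τ'` it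
is `n * H`. Together `(q * n * H) ^ 2 ≤ n ^ 2 * δ * (1 - δ) * (q * n * H)`, so
`H ≤ n * δ * (1 - δ) / q ≤ 3 * n / (16 * q)`. A point with `q * n ≤ 2 * #{...}` has
`h z ≥ 1 / 2 - δ ≥ 1 / 4`, so there are at most `16 * H ≤ 3 * n / q` such points.
-/

set_option autoImplicit false

namespace LSA

theorem samp_shift {V : Type} [AddCommGroup V] [Fintype V] (f : V → ℝ) (w : V) :
    ∑ z, f (z - w) = ∑ z, f z :=
  Fintype.sum_equiv (Equiv.subRight w) _ _ (fun _ => rfl)

theorem samp_shift' {V : Type} [AddCommGroup V] [Fintype V] (f : V → ℝ) (w : V) :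
    ∑ z, f (z + w) = ∑ z, f z :=
  Fintype.sum_equiv (Equiv.addRight w) _ _ (fun _ => rfl)

/-- the second moment of the sums over lines -/
theorem samp_lines {F V : Type} [Field F] [Fintype F] [AddCommGroup V] [Module F V] [Fintype V]
    (h : V → ℝ) (h0 : ∑ z, h z = 0) :
    ∑ p : V × V, (∑ τ : F, h (p.1 + τ • p.2)) ^ 2 =
      Fintype.card F * (Fintype.card V * ∑ z, h z ^ 2) := by
  classical
  have hpair : ∀ τ τ' : F, ∑ p : V × V, h (p.1 + τ • p.2) * h (p.1 + τ' • p.2) =
      if τ = τ' then (Fintype.card V : ℝ) * ∑ z, h z ^ 2 else 0 := by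
    intro τ τ'
    by_cases hτ : τ = τ'
    · subst hτ
      rw [if_pos rfl, Fintype.sum_prod_type_right]
      simp only
      have h1 : ∀ v : V, ∑ a : V, h (a + τ • v) * h (a + τ • v) = ∑ z, h z ^ 2 := by
        intro v
        rw [samp_shift' (fun z => h z * h z) (τ • v)]
        exact Finset.sum_congr rfl fun z _ => (sq (h z)).symm
      rw [Finset.sum_congr rfl fun v _ => h1 v, Finset.sum_const, Finset.card_univ,
        nsmul_eq_mul]
    · rw [if_neg hτ]
      have hbij : Function.Bijective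
          (fun p : V × V => ((p.1 + τ • p.2, p.1 + τ' • p.2) : V × V)) := by
        rw [← Finite.injective_iff_bijective]
        rintro ⟨a, v⟩ ⟨a', v'⟩ hp
        simp only [Prod.mk.injEq] at hp
        obtain ⟨e1, e2⟩ := hp
        have e3 : (τ - τ') • (v - v') = 0 := by
          have : (a + τ • v) - (a + τ' • v) = (a' + τ • v') - (a' + τ' • v') := by
            rw [e1, e2]
          rw [smul_sub, sub_smul, sub_smul]
          have h2 : τ • v - τ' • v = τ • v' - τ' • v' := by
            simpa [add_sub_add_left_eq_sub] using this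
          rw [h2, sub_self]
        rcases smul_eq_zero.1 e3 with h3 | h3
        · exact absurd (sub_eq_zero.1 h3) hτ
        · have hv : v = v' := sub_eq_zero.1 h3
          subst hv
          have ha : a = a' := by simpa using e1
          rw [ha]
      rw [hbij.sum_comp (fun p : V × V => h p.1 * h p.2), Fintype.sum_prod_type]
      simp only
      rw [← Finset.sum_mul_sum, h0, zero_mul]
  have h1 : ∀ p : V × V, (∑ τ : F, h (p.1 + τ • p.2)) ^ 2 =
      ∑ τ : F, ∑ τ' : F, h (p.1 + τ • p.2) * h (p.1 + τ' • p.2) := by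
    intro p
    rw [sq, Finset.sum_mul_sum]
  rw [Finset.sum_congr rfl fun p _ => h1 p, Finset.sum_comm]
  have h2 : ∀ τ : F, ∑ p : V × V, ∑ τ' : F, h (p.1 + τ • p.2) * h (p.1 + τ' • p.2) =
      (Fintype.card V : ℝ) * ∑ z, h z ^ 2 := by
    intro τ
    rw [Finset.sum_comm, Finset.sum_congr rfl fun τ' _ => hpair τ τ', Finset.sum_ite_eq]
    simp
  rw [Finset.sum_congr rfl fun τ _ => h2 τ, Finset.sum_const, Finset.card_univ, nsmul_eq_mul]

open Classical in
theorem samp {F V : Type} [Field F] [Fintype F] [AddCommGroup V] [Module F V] [Fintype V]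
    (B : Finset (V × V)) (hB : 4 * B.card ≤ Fintype.card V * Fintype.card V) :
    Fintype.card F * (Finset.univ.filter fun z : V => Fintype.card F * Fintype.card V ≤
      2 * (Finset.univ.filter fun x : F × V => (z - x.1 • x.2, x.2) ∈ B).card).card ≤
      4 * Fintype.card V := by
  set n : ℝ := (Fintype.card V : ℝ) with hn
  set q : ℝ := (Fintype.card F : ℝ) with hq
  have hn0 : 0 < n := by
    rw [hn]
    exact_mod_cast Fintype.card_pos
  have hq0 : 0 < q := by
    rw [hq]
    exact_mod_cast Fintype.card_pos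
  have hBr : 4 * (B.card : ℝ) ≤ n * n := by
    rw [hn]
    exact_mod_cast hB
  set δ : ℝ := (B.card : ℝ) / (n * n) with hδ
  have hδn : δ * (n * n) = B.card := by
    rw [hδ]
    field_simp
  have hδ4 : δ ≤ 1 / 4 := by
    rw [hδ, div_le_iff₀ (by positivity)]
    linarith
  have hδ0 : 0 ≤ δ := by positivity
  set g : V × V → ℝ := fun p => (if p ∈ B then (1 : ℝ) else 0) - δ with hg
  have hgsum : ∑ p, g p = 0 := by
    rw [hg]
    simp only [Finset.sum_sub_distrib, Finset.sum_const, Finset.card_univ, Fintype.card_prod,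
      nsmul_eq_mul]
    rw [Finset.sum_ite_mem, Finset.univ_inter, Finset.sum_const, nsmul_eq_mul, mul_one]
    push_cast
    rw [← hn]
    linarith
  have hgsq : ∑ p, g p ^ 2 ≤ n * n / 4 := by
    have h1 : ∀ p, g p ^ 2 = (1 - 2 * δ) * (if p ∈ B then (1 : ℝ) else 0) + δ ^ 2 := by
      intro p
      rw [hg]
      simp only
      split_ifs <;> ring
    rw [Finset.sum_congr rfl fun p _ => h1 p, Finset.sum_add_distrib, ← Finset.mul_sum,
      Finset.sum_ite_mem, Finset.univ_inter, Finset.sum_const, nsmul_eq_mul, mul_one,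
      Finset.sum_const, Finset.card_univ, Fintype.card_prod, nsmul_eq_mul]
    push_cast
    rw [← hn, ← hδn]
    nlinarith [mul_pos hn0 hn0, mul_nonneg hδ0 (mul_pos hn0 hn0).le,
      mul_nonneg (mul_nonneg hδ0 hδ0) (mul_pos hn0 hn0).le]
  set h : V → ℝ := fun z => ∑ x : F × V, g (z - x.1 • x.2, x.2) with hh
  have hsum : ∑ z, h z = 0 := by
    rw [hh]
    simp only
    rw [Finset.sum_comm]
    have h1 : ∀ x : F × V, ∑ z, g (z - x.1 • x.2, x.2) = ∑ a, g (a, x.2) := fun x =>
      samp_shift (fun a => g (a, x.2)) (x.1 • x.2)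
    rw [Finset.sum_congr rfl fun x _ => h1 x, Fintype.sum_prod_type]
    simp only
    have h2 : ∑ v : V, ∑ a : V, g (a, v) = 0 := by
      rw [← hgsum, Fintype.sum_prod_type_right]
    rw [Finset.sum_congr rfl fun τ _ => h2]
    simp
  set S : ℝ := ∑ z, h z ^ 2 with hS
  have hS0 : 0 ≤ S := Finset.sum_nonneg fun z _ => sq_nonneg _
  have hSeq : S = ∑ p : V × V, g p * ∑ τ : F, h (p.1 + τ • p.2) := by
    have h1 : S = ∑ z, ∑ x : F × V, h z * g (z - x.1 • x.2, x.2) := by
      rw [hS]
      refine Finset.sum_congr rfl fun z _ => ?_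
      rw [sq, ← Finset.mul_sum]
    rw [h1, Finset.sum_comm]
    have h2 : ∀ x : F × V, ∑ z, h z * g (z - x.1 • x.2, x.2) =
        ∑ a, h (a + x.1 • x.2) * g (a, x.2) := by
      intro x
      rw [← samp_shift (fun a => h (a + x.1 • x.2) * g (a, x.2)) (x.1 • x.2)]
      refine Finset.sum_congr rfl fun z _ => ?_
      rw [sub_add_cancel]
    rw [Finset.sum_congr rfl fun x _ => h2 x, Fintype.sum_prod_type, Fintype.sum_prod_type]
    simp only
    rw [Finset.sum_comm]
    have h3 : ∀ v : V, ∑ τ : F, ∑ a, h (a + τ • v) * g (a, v) =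
        ∑ a, ∑ τ : F, h (a + τ • v) * g (a, v) := fun v => Finset.sum_comm
    rw [Finset.sum_congr rfl fun v _ => h3 v, Finset.sum_comm]
    refine Finset.sum_congr rfl fun a _ => Finset.sum_congr rfl fun v _ => ?_
    rw [Finset.mul_sum]
    exact Finset.sum_congr rfl fun τ _ => mul_comm _ _
  have hCS := Finset.sum_mul_sq_le_sq_mul_sq Finset.univ g
    (fun p : V × V => ∑ τ : F, h (p.1 + τ • p.2))
  rw [← hSeq, samp_lines h hsum, ← hq, ← hn, ← hS] at hCS
  have hS1 : S ≤ n * n / 4 * (q * n) := by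
    rcases hS0.eq_or_lt with h0 | hpos
    · rw [← h0]
      positivity
    · have h1 : S * S ≤ (n * n / 4 * (q * n)) * S := by
        calc S * S = S ^ 2 := (sq S).symm
          _ ≤ (∑ p, g p ^ 2) * (q * (n * S)) := hCS
          _ ≤ (n * n / 4) * (q * (n * S)) :=
            mul_le_mul_of_nonneg_right hgsq (by positivity)
          _ = _ := by ring
      exact le_of_mul_le_mul_right h1 hpos
  set Z : Finset V := Finset.univ.filter fun z : V => Fintype.card F * Fintype.card V ≤
      2 * (Finset.univ.filter fun x : F × V => (z - x.1 • x.2, x.2) ∈ B).card with hZ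
  have hZh : ∀ z ∈ Z, (q * n / 4) ^ 2 ≤ h z ^ 2 := by
    intro z hz
    rw [hZ, Finset.mem_filter] at hz
    have h1 : q * n ≤ 2 * ((Finset.univ.filter fun x : F × V =>
        (z - x.1 • x.2, x.2) ∈ B).card : ℝ) := by
      rw [hq, hn]
      exact_mod_cast hz.2
    have h2 : h z = ((Finset.univ.filter fun x : F × V =>
        (z - x.1 • x.2, x.2) ∈ B).card : ℝ) - δ * (q * n) := by
      rw [hh, hg]
      simp only [Finset.sum_sub_distrib, Finset.sum_const, Finset.card_univ, Fintype.card_prod,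
        nsmul_eq_mul]
      rw [← Finset.sum_filter, Finset.sum_const, nsmul_eq_mul, mul_one]
      push_cast
      rw [← hn, ← hq]
      ring
    have h3 : q * n / 4 ≤ h z := by
      rw [h2]
      have := mul_le_mul_of_nonneg_right hδ4 (mul_pos hq0 hn0).le
      linarith
    exact pow_le_pow_left₀ (by positivity) h3 2
  have hZS : (Z.card : ℝ) * (q * n / 4) ^ 2 ≤ S := by
    calc (Z.card : ℝ) * (q * n / 4) ^ 2 = ∑ z ∈ Z, (q * n / 4) ^ 2 := by
          rw [Finset.sum_const, nsmul_eq_mul]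
      _ ≤ ∑ z ∈ Z, h z ^ 2 := Finset.sum_le_sum hZh
      _ ≤ S := Finset.sum_le_univ_sum_of_nonneg fun z => sq_nonneg _
  have hfin : q * (Z.card : ℝ) ≤ 4 * n := by
    have h1 : (Z.card : ℝ) * (q * n / 4) ^ 2 ≤ n * n / 4 * (q * n) := hZS.trans hS1
    have h2 : (q * (Z.card : ℝ)) * (q * n * n / 16) ≤ (4 * n) * (q * n * n / 16) := by
      nlinarith
    exact le_of_mul_le_mul_right h2 (by positivity)
  rw [hq, hn] at hfin
  exact_mod_cast hfin

end LSA
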