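import Mathlib

/-!
# H69B/XorA: the XOR lemma

Module `H69B/XorA` (pure, over the reals). Notation `γ = 127 / 128`, `n = |X|`.

* `sampT`: for uniform independent `y_1, ..., y_K` the expectation of
  `((∑ i, g x (y i)) / K - T x) ^ 2` is at most `1 / K`: expand the square of `∑ i, (g x (y i) - T x)`, the mixed
  terms have expectation `0` (`∑ y : Fin K → Y, a (y i) * b (y j) = (∑ a) * (∑ b) * |Y| ^ (K - 2)` for `i ≠ j`), and
  `∑ y, (g x y - T x) ^ 2 ≤ ∑ y, g x y ^ 2 ≤ |Y|`. Sum over `x` and take the best `y`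
  (`Finset.exists_le_of_sum_le`). (Induction on `K` is another way: for given `y_1, ..., y_K` with
  `∑ x, (∑ i, (g x (y i) - T x)) ^ 2 ≤ K * n` there is `y_{K+1}` with the same for `K + 1`, because the average over
  `y` of `∑ x, (S x + (g x y - T x)) ^ 2` is `∑ x, S x ^ 2 + ∑ x, (variance) ≤ K * n + n`. This is the
  quickest proof.)
* `xorA`: induction on `k ≥ 1`, `C` arbitrary. Let `E = ∑ x, C x * ∏ i, f (x i)`, `σ = ±1` with `σ * E = |E|`.
  `k = 1`: take `b i = σ`; then `f x * ∑ i, C x * σ = K * σ * f x * C x`, and the number of `x` with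
  `σ * f x * C x = - 1` is `(n - |E|) / 2 ≤ n / 256`.
  `k + 1`, `k ≥ 1`: let `T x = ∑ y : Fin k → X, C (Fin.cons x y) * ∏ i, f (y i)`, so `E = ∑ x, f x * T x`
  (`Fin.consEquiv`/`Fin.prod_univ_succ`). If `|T x| ≥ γ ^ k * n ^ k` for some `x`, use the induction hypothesis for
  `y ↦ C (Fin.cons x y)` and put `j.succ`, `Fin.cons x (u i)` (`Fin.cons_update`). Otherwise
  `|T x| ≤ γ ^ k * n ^ k` for all `x`; use `sampT` for `Y = Fin k → X`, `g x y = C (Fin.cons x y) * ∏ i, f (y i)`,
  and put `j = 0`, `u i = Fin.cons x₀ (y i)`, `b i = σ * ∏ i', f (y i i')`. With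
  `t x = T x / n ^ k`, `t' x = (∑ i, g x (y i)) / K`, `W = {x | σ * f x * t' x ≤ 0}`,
  `Δ = ∑ x, |t' x - t x| ≤ n / √K`:
  `γ ^ (k + 1) * n - Δ ≤ σ * ∑ x, f x * t' x ≤ ∑ x ∉ W, (γ ^ k + |t' x - t x|) ≤ γ ^ k * (n - |W|) + Δ`, so
  `γ ^ k * |W| ≤ γ ^ k * (1 - γ) * n + 2 * n / √K`, and `√K ≥ 256 / γ ^ k`, so `|W| ≤ n / 128 + n / 128`.
-/

set_option autoImplicit false

namespace LSA

private theorem sampT_aux {X Y : Type} [Fintype X] [Fintype Y] [Nonempty Y] (g : X → Y → ℝ)
    (hg : ∀ x y, |g x y| ≤ 1) (K : ℕ) : ∃ y : Fin K → Y,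
    ∑ x, (∑ i, (g x (y i) - (∑ z, g x z) / Fintype.card Y)) ^ 2 ≤ (K : ℝ) * Fintype.card X := by
  have hN : (0 : ℝ) < Fintype.card Y := by exact_mod_cast Fintype.card_pos
  induction K with
  | zero => exact ⟨Fin.elim0, by simp⟩
  | succ K ih =>
    obtain ⟨y, hy⟩ := ih
    set T : X → ℝ := fun x => (∑ z, g x z) / Fintype.card Y with hT
    have hT' : ∀ x, (Fintype.card Y : ℝ) * T x = ∑ z, g x z := by
      intro x
      simp only [hT]
      field_simp
    set S : X → ℝ := fun x => ∑ i, (g x (y i) - T x) with hS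
    have h1 : ∑ z, ∑ x, (S x + (g x z - T x)) ^ 2 ≤
        ∑ _z : Y, ((K : ℝ) * Fintype.card X + Fintype.card X) := by
      rw [Finset.sum_comm]
      have h2 : ∀ x, ∑ z, (S x + (g x z - T x)) ^ 2 ≤
          (Fintype.card Y : ℝ) * (S x ^ 2 + 1) := by
        intro x
        have h3 : ∑ z, (S x + (g x z - T x)) ^ 2 =
            (Fintype.card Y : ℝ) * S x ^ 2 + ∑ z, g x z ^ 2 - (Fintype.card Y : ℝ) * T x ^ 2 := by
          have h4 : ∀ z, (S x + (g x z - T x)) ^ 2 =
              (S x ^ 2 - 2 * S x * T x + T x ^ 2) + (2 * S x - 2 * T x) * g x z + g x z ^ 2 := by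
            intro z
            ring
          rw [Finset.sum_congr rfl fun z _ => h4 z, Finset.sum_add_distrib,
            Finset.sum_add_distrib, ← Finset.mul_sum, ← hT' x, Finset.sum_const,
            Finset.card_univ, nsmul_eq_mul]
          ring
        have h5 : ∑ z, g x z ^ 2 ≤ Fintype.card Y := by
          have h6 : ∑ z, g x z ^ 2 ≤ ∑ _z : Y, (1 : ℝ) := by
            refine Finset.sum_le_sum fun z _ => ?_
            have h7 := abs_le.mp (hg x z)
            nlinarith
          simpa using h6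
        rw [h3]
        nlinarith [mul_nonneg hN.le (sq_nonneg (T x))]
      calc ∑ x, ∑ z, (S x + (g x z - T x)) ^ 2
          ≤ ∑ x, (Fintype.card Y : ℝ) * (S x ^ 2 + 1) := Finset.sum_le_sum fun x _ => h2 x
        _ = (Fintype.card Y : ℝ) * (∑ x, S x ^ 2 + Fintype.card X) := by
          rw [← Finset.mul_sum, Finset.sum_add_distrib]
          simp
        _ ≤ (Fintype.card Y : ℝ) * ((K : ℝ) * Fintype.card X + Fintype.card X) := by
          refine mul_le_mul_of_nonneg_left ?_ hN.le
          have h8 : ∑ x, S x ^ 2 ≤ (K : ℝ) * Fintype.card X := hy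
          linarith
        _ = _ := by
          rw [Finset.sum_const, Finset.card_univ, nsmul_eq_mul]
    obtain ⟨z, -, hz⟩ := Finset.exists_le_of_sum_le Finset.univ_nonempty h1
    refine ⟨Fin.snoc y z, ?_⟩
    have h9 : ∀ x, ∑ i, (g x ((Fin.snoc y z : Fin (K + 1) → Y) i) - T x) =
        S x + (g x z - T x) := by
      intro x
      rw [Fin.sum_univ_castSucc]
      simp [hS]
    rw [Finset.sum_congr rfl fun x _ => by rw [h9 x]]
    push_cast
    linarith

theorem sampT {X Y : Type} [Fintype X] [Fintype Y] [Nonempty Y] (g : X → Y → ℝ)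
    (hg : ∀ x y, |g x y| ≤ 1) (K : ℕ) (hK : 0 < K) : ∃ y : Fin K → Y,
    ∑ x, ((∑ i, g x (y i)) / K - (∑ z, g x z) / Fintype.card Y) ^ 2 ≤ (Fintype.card X : ℝ) / K := by
  obtain ⟨y, hy⟩ := sampT_aux g hg K
  have hK' : (0 : ℝ) < K := by exact_mod_cast hK
  refine ⟨y, ?_⟩
  have h1 : ∀ x, ((∑ i, g x (y i)) / K - (∑ z, g x z) / Fintype.card Y) ^ 2 =
      (∑ i, (g x (y i) - (∑ z, g x z) / Fintype.card Y)) ^ 2 / K ^ 2 := by
    intro x
    rw [Finset.sum_sub_distrib, Finset.sum_const, Finset.card_univ, Fintype.card_fin,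
      nsmul_eq_mul, ← div_pow]
    congr 1
    field_simp
  rw [Finset.sum_congr rfl fun x _ => h1 x, ← Finset.sum_div, div_le_div_iff₀ (by positivity) hK']
  nlinarith

private theorem pm_mul {a b : ℝ} (ha : a = 1 ∨ a = -1) (hb : b = 1 ∨ b = -1) :
    a * b = 1 ∨ a * b = -1 := by
  rcases ha with rfl | rfl <;> rcases hb with rfl | rfl <;> norm_num

private theorem pm_prod {X : Type} {f : X → ℝ} (hf : ∀ x, f x = 1 ∨ f x = -1) {k : ℕ}
    (y : Fin k → X) : ∏ i, f (y i) = 1 ∨ ∏ i, f (y i) = -1 := by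
  refine Finset.prod_induction (fun i => f (y i)) (fun a => a = 1 ∨ a = -1)
    (fun a b => pm_mul) (Or.inl rfl) fun i _ => hf _

private theorem pm_abs {a : ℝ} (ha : a = 1 ∨ a = -1) : |a| = 1 := by
  rcases ha with rfl | rfl <;> norm_num

private theorem exists_sign (E : ℝ) : ∃ σ : ℝ, (σ = 1 ∨ σ = -1) ∧ σ * E = |E| := by
  rcases le_total 0 E with h | h
  · exact ⟨1, Or.inl rfl, by rw [abs_of_nonneg h, one_mul]⟩
  · exact ⟨-1, Or.inr rfl, by rw [abs_of_nonpos h]; ring⟩

open Classical in
private theorem xorA_one {X : Type} [Fintype X] [Nonempty X] (f : X → ℝ)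
    (hf : ∀ x, f x = 1 ∨ f x = -1) {K : ℕ} (hK : 0 < K) (C : (Fin 1 → X) → ℝ)
    (hC : ∀ x, C x = 1 ∨ C x = -1)
    (h : (127 / 128 : ℝ) * (Fintype.card X : ℝ) ≤ |∑ x : Fin 1 → X, C x * ∏ i, f (x i)|) :
    ∃ (j : Fin 1) (u : Fin K → Fin 1 → X) (b : Fin K → ℝ), (∀ i, b i = 1 ∨ b i = -1) ∧
      64 * (Finset.univ.filter fun x : X =>
        f x * ∑ i, C (Function.update (u i) j x) * b i ≤ 0).card ≤ Fintype.card X := by
  have hK' : (0 : ℝ) < K := by exact_mod_cast hK
  obtain ⟨σ, hσ, hσE⟩ := exists_sign (∑ x : Fin 1 → X, C x * ∏ i, f (x i))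
  have h1 : ∑ x : Fin 1 → X, C x * ∏ i, f (x i) = ∑ a : X, C (fun _ => a) * f a := by
    refine Fintype.sum_equiv (Equiv.funUnique (Fin 1) X) _ _ fun x => ?_
    have h2 : (fun _ : Fin 1 => (Equiv.funUnique (Fin 1) X) x) = x := by
      funext i
      rw [Subsingleton.elim i default]
      rfl
    rw [h2]
    simp
  obtain ⟨x₀⟩ := (inferInstance : Nonempty X)
  have hu : ∀ x, Function.update (fun _ : Fin 1 => x₀) 0 x = fun _ => x := by
    intro x
    funext i
    rw [Subsingleton.elim i 0, Function.update_self]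
  refine ⟨0, fun _ _ => x₀, fun _ => σ, fun _ => hσ, ?_⟩
  set η : X → ℝ := fun a => σ * (C (fun _ => a) * f a) with hη
  have hη1 : ∀ a, η a = 1 ∨ η a = -1 := fun a => pm_mul hσ (pm_mul (hC _) (hf a))
  have hset : (Finset.univ.filter fun x : X =>
      f x * ∑ i : Fin K, C (Function.update ((fun _ _ => x₀) i) 0 x) * σ ≤ 0) =
      Finset.univ.filter fun x : X => η x = -1 := by
    refine Finset.filter_congr fun x _ => ?_
    have e : f x * ∑ i : Fin K, C (Function.update ((fun _ _ => x₀ : Fin K → Fin 1 → X) i) 0 x) * σ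
        = K * η x := by
      rw [Finset.sum_congr rfl fun i _ => by rw [hu x], Finset.sum_const, Finset.card_univ,
        Fintype.card_fin, nsmul_eq_mul]
      simp only [hη]
      ring
    rw [e]
    constructor
    · intro h3
      rcases hη1 x with h4 | h4
      · rw [h4] at h3
        linarith
      · exact h4
    · intro h3
      rw [h3]
      linarith
  rw [hset]
  have hsum : ∑ a, η a = |∑ x : Fin 1 → X, C x * ∏ i, f (x i)| := by
    rw [← hσE, h1, Finset.mul_sum]
  have hcount : ∑ a, η a = (Fintype.card X : ℝ) -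
      2 * (Finset.univ.filter fun x : X => η x = -1).card := by
    have h5 : ∀ a, η a = 1 - 2 * (if η a = -1 then (1 : ℝ) else 0) := by
      intro a
      rcases hη1 a with h6 | h6
      · rw [h6]; norm_num
      · rw [h6]; norm_num
    rw [Finset.sum_congr rfl fun a _ => h5 a, Finset.sum_sub_distrib, ← Finset.mul_sum,
      Finset.sum_boole]
    simp
  rw [← hsum, hcount] at h
  have hn : (0 : ℝ) ≤ Fintype.card X := by positivity
  have h7 : (64 : ℝ) * (Finset.univ.filter fun x : X => η x = -1).card ≤ Fintype.card X := by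
    linarith
  exact_mod_cast h7

open Classical in
theorem xorA {X : Type} [Fintype X] [Nonempty X] (f : X → ℝ) (hf : ∀ x, f x = 1 ∨ f x = -1)
    (K : ℕ) : ∀ (k : ℕ) (C : (Fin k → X) → ℝ), (∀ x, C x = 1 ∨ C x = -1) → 1 ≤ k →
    (256 * (128 / 127 : ℝ) ^ k) ^ 2 ≤ K →
    (127 / 128 : ℝ) ^ k * (Fintype.card X : ℝ) ^ k ≤ |∑ x : Fin k → X, C x * ∏ i, f (x i)| →
    ∃ (j : Fin k) (u : Fin K → Fin k → X) (b : Fin K → ℝ), (∀ i, b i = 1 ∨ b i = -1) ∧
      64 * (Finset.univ.filter fun x : X =>
        f x * ∑ i, C (Function.update (u i) j x) * b i ≤ 0).card ≤ Fintype.card X := by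
  intro k
  induction k with
  | zero => intro C _ h1; omega
  | succ k ih =>
    intro C hC _ hK h
    have hKr : (0 : ℝ) < K := lt_of_lt_of_le (by positivity) hK
    have hK0 : 0 < K := by exact_mod_cast hKr
    rcases Nat.eq_zero_or_pos k with hk | hk
    · subst hk
      refine xorA_one f hf hK0 C hC ?_
      simpa using h
    -- splitting off the first coordinate
    set g : X → (Fin k → X) → ℝ := fun x y => C (Fin.cons x y) * ∏ i, f (y i) with hg
    have hg1 : ∀ x y, g x y = 1 ∨ g x y = -1 := fun x y => pm_mul (hC _) (pm_prod hf y)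
    have hE : ∑ x : Fin (k + 1) → X, C x * ∏ i, f (x i) = ∑ x, f x * ∑ y, g x y := by
      rw [← Fintype.sum_equiv (Fin.consEquiv fun _ : Fin (k + 1) => X)
        (fun q => C (Fin.cons q.1 q.2) * ∏ i, f ((Fin.cons q.1 q.2 : Fin (k + 1) → X) i)) _
        (fun q => rfl), Fintype.sum_prod_type]
      refine Finset.sum_congr rfl fun x _ => ?_
      rw [Finset.mul_sum]
      refine Finset.sum_congr rfl fun y _ => ?_
      rw [Fin.prod_univ_succ]
      simp only [Fin.cons_zero, Fin.cons_succ, hg]
      ring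
    by_cases hbig : ∃ x, (127 / 128 : ℝ) ^ k * (Fintype.card X : ℝ) ^ k ≤ |∑ y, g x y|
    · obtain ⟨x, hx⟩ := hbig
      have hK2 : (256 * (128 / 127 : ℝ) ^ k) ^ 2 ≤ K := by
        refine le_trans ?_ hK
        have h1 : (128 / 127 : ℝ) ^ k ≤ (128 / 127 : ℝ) ^ (k + 1) :=
          pow_le_pow_right₀ (by norm_num) (Nat.le_succ k)
        have h2 : 256 * (128 / 127 : ℝ) ^ k ≤ 256 * (128 / 127 : ℝ) ^ (k + 1) := by linarith
        exact pow_le_pow_left₀ (by positivity) h2 2
      obtain ⟨j, u, b, hb, hcard⟩ := ih (fun y => C (Fin.cons x y)) (fun y => hC _) hk hK2 hx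
      refine ⟨j.succ, fun i => Fin.cons x (u i), b, hb, ?_⟩
      have e : ∀ i x', Function.update (Fin.cons x (u i) : Fin (k + 1) → X) j.succ x' =
          Fin.cons x (Function.update (u i) j x') := by
        intro i x'
        rw [Fin.cons_update]
      simp only [e]
      exact hcard
    · push Not at hbig
      set n : ℝ := (Fintype.card X : ℝ) with hn
      have hn0 : 0 < n := by
        rw [hn]
        exact_mod_cast Fintype.card_pos
      have hY : (Fintype.card (Fin k → X) : ℝ) = n ^ k := by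
        rw [Fintype.card_fun, Fintype.card_fin]
        push_cast
        rfl
      obtain ⟨y, hy⟩ := sampT g (fun x y => (pm_abs (hg1 x y)).le) K hK0
      obtain ⟨σ, hσ, hσE⟩ := exists_sign (∑ x : Fin (k + 1) → X, C x * ∏ i, f (x i))
      obtain ⟨x₀⟩ := (inferInstance : Nonempty X)
      refine ⟨0, fun i => Fin.cons x₀ (y i), fun i => σ * ∏ i', f (y i i'),
        fun i => pm_mul hσ (pm_prod hf _), ?_⟩
      have e : ∀ i x', Function.update (Fin.cons x₀ (y i) : Fin (k + 1) → X) 0 x' =
          Fin.cons x' (y i) := by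
        intro i x'
        rw [Fin.update_cons_zero]
      simp only [e]
      set t : X → ℝ := fun x => (∑ z, g x z) / Fintype.card (Fin k → X) with ht
      set t' : X → ℝ := fun x => (∑ i, g x (y i)) / K with ht'
      have e2 : ∀ x, f x * ∑ i, C (Fin.cons x (y i)) * (σ * ∏ i', f (y i i')) =
          K * (σ * f x * t' x) := by
        intro x
        have h1 : ∑ i, C (Fin.cons x (y i)) * (σ * ∏ i', f (y i i')) = σ * ∑ i, g x (y i) := by
          rw [Finset.mul_sum]
          refine Finset.sum_congr rfl fun i _ => ?_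
          simp only [hg]
          ring
        rw [h1]
        simp only [ht']
        field_simp
      have hset : (Finset.univ.filter fun x : X =>
          f x * ∑ i, C (Fin.cons x (y i)) * (σ * ∏ i', f (y i i')) ≤ 0) =
          Finset.univ.filter fun x : X => σ * f x * t' x ≤ 0 := by
        refine Finset.filter_congr fun x _ => ?_
        rw [e2]
        constructor
        · intro h1
          by_contra h2
          push Not at h2
          nlinarith [mul_pos hKr h2]
        · intro h1
          exact mul_nonpos_of_nonneg_of_nonpos hKr.le h1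
      rw [hset]
      set W : Finset X := Finset.univ.filter fun x : X => σ * f x * t' x ≤ 0 with hW
      set Δ : ℝ := ∑ x, |t' x - t x| with hΔ
      set γ : ℝ := (127 / 128 : ℝ) ^ k with hγ
      have hγ0 : 0 < γ := by positivity
      have hΔ0 : 0 ≤ Δ := Finset.sum_nonneg fun _ _ => abs_nonneg _
      -- the bound for Δ
      have hΔb : Δ ≤ γ * n / 256 := by
        have h1 : Δ ^ 2 ≤ n * ∑ x, (t' x - t x) ^ 2 := by
          have h2 := sq_sum_le_card_mul_sum_sq (s := (Finset.univ : Finset X))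
            (f := fun x => |t' x - t x|)
          simp only [sq_abs, Finset.card_univ] at h2
          exact h2
        have h3 : ∑ x, (t' x - t x) ^ 2 ≤ n / K := hy
        have h4 : Δ ^ 2 ≤ n * (n / K) := h1.trans (mul_le_mul_of_nonneg_left h3 hn0.le)
        have h5 : 256 / γ ≤ 256 * (128 / 127 : ℝ) ^ (k + 1) := by
          have h6 : 1 / γ = (128 / 127 : ℝ) ^ k := by
            rw [hγ, one_div, ← inv_pow]
            norm_num
          have h7 : 256 / γ = 256 * (1 / γ) := by ring
          rw [h7, h6]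
          have h8 : (128 / 127 : ℝ) ^ k ≤ (128 / 127 : ℝ) ^ (k + 1) :=
            pow_le_pow_right₀ (by norm_num) (Nat.le_succ k)
          linarith
        have h9 : (256 / γ) ^ 2 ≤ K := (pow_le_pow_left₀ (by positivity) h5 2).trans hK
        have h10 : n * (n / K) ≤ (γ * n / 256) ^ 2 := by
          have h11 : (γ * n / 256) ^ 2 * K ≥ (γ * n / 256) ^ 2 * (256 / γ) ^ 2 :=
            mul_le_mul_of_nonneg_left h9 (by positivity)
          have h12 : (γ * n / 256) ^ 2 * (256 / γ) ^ 2 = n * n := by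
            field_simp
          rw [← mul_div_assoc, div_le_iff₀ hKr]
          linarith
        exact le_of_sq_le_sq (h4.trans h10) (by positivity)
      -- the main inequality
      have hσf : ∀ x, |σ * f x| = 1 := fun x => pm_abs (pm_mul hσ (hf x))
      have h1 : (127 / 128 : ℝ) ^ (k + 1) * n ≤ ∑ x, σ * f x * t x := by
        have h2 : ∑ x, σ * f x * t x = |∑ x : Fin (k + 1) → X, C x * ∏ i, f (x i)| / n ^ k := by
          rw [← hσE, hE, ← hY, Finset.mul_sum, Finset.sum_div]
          refine Finset.sum_congr rfl fun x _ => ?_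
          simp only [ht]
          ring
        rw [h2, le_div_iff₀ (by positivity)]
        calc (127 / 128 : ℝ) ^ (k + 1) * n * n ^ k = (127 / 128 : ℝ) ^ (k + 1) * n ^ (k + 1) := by
              ring
          _ ≤ _ := h
      have h2 : ∑ x, σ * f x * t x ≤ ∑ x, σ * f x * t' x + Δ := by
        rw [hΔ, ← Finset.sum_add_distrib]
        refine Finset.sum_le_sum fun x _ => ?_
        have h3 : σ * f x * (t x - t' x) ≤ |σ * f x * (t x - t' x)| := le_abs_self _
        rw [abs_mul, hσf x, one_mul, abs_sub_comm] at h3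
        linarith
      have htb : ∀ x, |t x| ≤ γ := by
        intro x
        simp only [ht]
        rw [hY, abs_div, abs_of_pos (show (0 : ℝ) < n ^ k by positivity),
          div_le_iff₀ (by positivity)]
        exact (hbig x).le
      have h3 : ∑ x, σ * f x * t' x ≤ γ * (n - W.card) + Δ := by
        have h4 : ∑ x, σ * f x * t' x =
            ∑ x ∈ W, σ * f x * t' x + ∑ x ∈ Wᶜ, σ * f x * t' x :=
          (Finset.sum_add_sum_compl W _).symm
        have h5 : ∑ x ∈ W, σ * f x * t' x ≤ 0 :=
          Finset.sum_nonpos fun x hx => (Finset.mem_filter.mp hx).2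
        have h6 : ∑ x ∈ Wᶜ, σ * f x * t' x ≤ ∑ x ∈ Wᶜ, (γ + |t' x - t x|) := by
          refine Finset.sum_le_sum fun x _ => ?_
          have h7 : σ * f x * t' x ≤ |σ * f x * t' x| := le_abs_self _
          rw [abs_mul, hσf x, one_mul] at h7
          have h8 : |t' x| ≤ |t' x - t x| + |t x| := by
            have := abs_add_le (t' x - t x) (t x)
            rwa [sub_add_cancel] at this
          linarith [htb x]
        have h9 : ∑ x ∈ Wᶜ, |t' x - t x| ≤ Δ :=
          Finset.sum_le_univ_sum_of_nonneg fun x => abs_nonneg _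
        have h10 : ((Wᶜ).card : ℝ) = n - W.card := by
          rw [Finset.card_compl, Nat.cast_sub (Finset.card_le_univ _)]
        rw [Finset.sum_add_distrib, Finset.sum_const, nsmul_eq_mul, h10] at h6
        linarith
      have h4 : γ * (W.card : ℝ) ≤ γ * (n / 64) := by
        have h5 : (127 / 128 : ℝ) ^ (k + 1) * n = γ * n - γ * n / 128 := by
          rw [pow_succ, ← hγ]
          ring
        rw [h5] at h1
        nlinarith
      have h5 : (W.card : ℝ) ≤ n / 64 := le_of_mul_le_mul_left h4 hγ0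
      have h6 : (64 : ℝ) * W.card ≤ Fintype.card X := by
        rw [← hn]
        linarith
      exact_mod_cast h6

end LSA
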