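import Pool.Agent.H69B.Defs
import Pool.Agent.H69B.XorA
import Pool.Agent.H69B.Pts

/-!
# H69B/XorN: the XOR lemma for numbers

Module `H69B/XorN`. `xorA` for `X = Fin M`, with `f x = -1` if `L x` and `1` otherwise, and
`C' x = -1` if `C (∑ i, x i * M ^ i)` holds and `1` otherwise; `Fin k → Fin M` corresponds to the numbers below `M ^ k`
(`dpsum_lt`, `dg_dpsum`, `dg_ext` from `H69B/Pts`, or `finFunctionFinEquiv`). The product `C' x * ∏ i, f (x i)` is
`1` if `C X ↔ xl k M L X` and `-1` otherwise (the product of the `f (x i)` is `(-1) ^ #{i | L (x i)}`), so the sum is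
`2 * #{...} - M ^ k`. Updating the component `j` of `u` is `rd M j u x` (for `u < M ^ k`, `x < M`, `j < k`: all digits of
`rd M j u x` are the digits of `u` except the digit `j`, which is `x`, and `rd M j u x < M ^ k`). Put
`b i = 1` (natural number) if the real `b i` is `-1`, and `0` otherwise; for `i ≥ K` put `0`. Then
`¬ (C (rd ...) ↔ b i = 1)` if and only if `C' * b i = -1`, and if `f x * ∑ i, ... > 0` then `L x` if and only if
more than half of these products are `-1`.
-/

set_option autoImplicit false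

namespace LSA

private theorem rd_digit {M x : ℕ} (hM : 0 < M) (hx : x < M) (i j U : ℕ) :
    rd M j U x / M ^ i % M = if i = j then x else U / M ^ i % M := by
  have hpow : ∀ n, 0 < M ^ n := fun n => pow_pos hM n
  unfold rd
  rcases lt_trichotomy i j with h | h | h
  · rw [if_neg h.ne]
    obtain ⟨m, rfl⟩ : ∃ m, j = i + (m + 1) := ⟨j - i - 1, by omega⟩
    have e1 : M ^ (i + (m + 1)) = M ^ i * M ^ (m + 1) := pow_add _ _ _
    have e2 : U % M ^ (i + (m + 1)) / M ^ i = U / M ^ i % M ^ (m + 1) := by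
      rw [e1, Nat.mod_mul_right_div_self]
    have e3 : ∀ A, M ^ (i + (m + 1)) * A = M ^ i * (M * (M ^ m * A)) := by
      intro A; rw [e1, pow_succ]; ring
    rw [e3, Nat.add_mul_div_left _ _ (hpow i), Nat.add_mul_mod_self_left, e2,
      Nat.mod_mod_of_dvd _ (dvd_pow_self M (by omega))]
  · subst h
    rw [if_pos rfl, Nat.add_mul_div_left _ _ (hpow i), Nat.div_eq_of_lt (Nat.mod_lt _ (hpow i)),
      zero_add, Nat.add_mul_mod_self_left, Nat.mod_eq_of_lt hx]
  · rw [if_neg h.ne']
    obtain ⟨m, rfl⟩ : ∃ m, i = (j + 1) + m := ⟨i - j - 1, by omega⟩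
    have e1 : M ^ ((j + 1) + m) = M ^ j * (M * M ^ m) := by rw [pow_add, pow_succ]; ring
    rw [e1, ← Nat.div_div_eq_div_mul, Nat.add_mul_div_left _ _ (hpow j),
      Nat.div_eq_of_lt (Nat.mod_lt _ (hpow j)), zero_add, ← Nat.div_div_eq_div_mul,
      Nat.add_mul_div_left _ _ hM, Nat.div_eq_of_lt hx, zero_add, Nat.div_div_eq_div_mul,
      pow_succ, mul_assoc]

private theorem rd_lt {M x k j U : ℕ} (hM : 0 < M) (hx : x < M) (hj : j < k) (hU : U < M ^ k) :
    rd M j U x < M ^ k := by
  unfold rd
  obtain ⟨m, rfl⟩ : ∃ m, k = (j + 1) + m := ⟨k - j - 1, by omega⟩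
  have e1 : M ^ ((j + 1) + m) = M ^ j * (M * M ^ m) := by rw [pow_add, pow_succ]; ring
  have hB : U / M ^ (j + 1) < M ^ m := by
    apply Nat.div_lt_of_lt_mul
    rw [← pow_add]
    exact hU
  have hA : x + M * (U / M ^ (j + 1)) + 1 ≤ M * M ^ m := by
    calc x + M * (U / M ^ (j + 1)) + 1 ≤ M + M * (U / M ^ (j + 1)) := by omega
      _ = M * (U / M ^ (j + 1) + 1) := by ring
      _ ≤ M * M ^ m := Nat.mul_le_mul_left _ hB
  have hr : U % M ^ j < M ^ j := Nat.mod_lt _ (pow_pos hM j)
  rw [e1]
  calc U % M ^ j + M ^ j * (x + M * (U / M ^ (j + 1)))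
      < M ^ j + M ^ j * (x + M * (U / M ^ (j + 1))) := by omega
    _ = M ^ j * (x + M * (U / M ^ (j + 1)) + 1) := by ring
    _ ≤ M ^ j * (M * M ^ m) := Nat.mul_le_mul_left _ hA

private theorem fe_digit {M k : ℕ} (w : Fin k → Fin M) (i : Fin k) :
    (finFunctionFinEquiv w : ℕ) / M ^ (i : ℕ) % M = w i := by
  rw [← finFunctionFinEquiv_symm_apply_val, Equiv.symm_apply_apply]

private theorem rd_fe {M k : ℕ} (hM : 0 < M) (w : Fin k → Fin M) (j : Fin k) (x : Fin M) :
    rd M j (finFunctionFinEquiv w : ℕ) x = (finFunctionFinEquiv (Function.update w j x) : ℕ) := by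
  refine dg_ext (p := M) (d := k) (rd_lt hM x.2 j.2 (finFunctionFinEquiv w).2)
    (finFunctionFinEquiv (Function.update w j x)).2 ?_
  intro i hi
  unfold dg
  rw [rd_digit hM x.2]
  have h1 := fe_digit w ⟨i, hi⟩
  have h2 := fe_digit (Function.update w j x) ⟨i, hi⟩
  simp only at h1 h2
  rw [h1, h2]
  by_cases h : i = j
  · rw [if_pos h]
    have : (⟨i, hi⟩ : Fin k) = j := Fin.ext h
    rw [this, Function.update_self]
  · rw [if_neg h, Function.update_of_ne]
    intro h3
    exact h (congrArg Fin.val h3)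

private theorem sum_pm {κ : Type} (s : Finset κ) (φ : κ → Prop) [DecidablePred φ] :
    (∑ i ∈ s, if φ i then (1 : ℝ) else -1) = 2 * ((s.filter φ).card : ℝ) - s.card := by
  have h1 : ∀ i ∈ s, (if φ i then (1 : ℝ) else -1) = 2 * (if φ i then (1 : ℝ) else 0) - 1 := by
    intro i _
    split_ifs <;> ring
  rw [Finset.sum_congr rfl h1, Finset.sum_sub_distrib, ← Finset.mul_sum, Finset.sum_const,
    nsmul_eq_mul, mul_one, Finset.card_filter]
  push_cast
  ring

open Classical in
private theorem prod_sign {M k : ℕ} (L : ℕ → Prop) (w : Fin k → Fin M) :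
    ∏ i, (if L (w i) then (-1 : ℝ) else 1) =
      if xl k M L (finFunctionFinEquiv w : ℕ) then -1 else 1 := by
  have hc : ((Finset.range k).filter fun i =>
      L ((finFunctionFinEquiv w : ℕ) / M ^ i % M)).card =
      (Finset.univ.filter fun i : Fin k => L (w i)).card := by
    rw [Finset.card_filter, Finset.card_filter, Finset.sum_range]
    refine Finset.sum_congr rfl fun i _ => ?_
    rw [fe_digit]
  rw [Finset.prod_ite, Finset.prod_const, Finset.prod_const_one, mul_one]
  unfold xl
  rw [hc]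
  by_cases h : (Finset.univ.filter fun i : Fin k => L (w i)).card % 2 = 1
  · rw [if_pos h]
    exact Odd.neg_one_pow (Nat.odd_iff.2 h)
  · rw [if_neg h]
    exact Even.neg_one_pow (Nat.even_iff.2 (by omega))

open Classical in
theorem xor_pred {k M K : ℕ} (hk : 1 ≤ k) (hM : 0 < M)
    (hK : (256 * (128 / 127 : ℝ) ^ k) ^ 2 ≤ K) (L C : ℕ → Prop)
    (hC : ((1 : ℝ) + (127 / 128) ^ k) * (M : ℝ) ^ k ≤
      2 * ((Finset.range (M ^ k)).filter fun X => C X ↔ xl k M L X).card) :
    ∃ j < k, ∃ u b : ℕ → ℕ, (∀ i, u i < M ^ k) ∧ (∀ i, b i < 2) ∧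
      64 * ((Finset.range M).filter fun x =>
        ¬ (L x ↔ mj K fun i => ¬ (C (rd M j (u i) x) ↔ b i = 1))).card ≤ M := by
  have : Nonempty (Fin M) := ⟨⟨0, hM⟩⟩
  let f : Fin M → ℝ := fun x => if L x then -1 else 1
  let C' : (Fin k → Fin M) → ℝ := fun w => if C (finFunctionFinEquiv w : ℕ) then -1 else 1
  have hf : ∀ x, f x = 1 ∨ f x = -1 := by
    intro x
    show (if L x then (-1 : ℝ) else 1) = 1 ∨ (if L x then (-1 : ℝ) else 1) = -1
    split_ifs <;> simp
  have hC' : ∀ x, C' x = 1 ∨ C' x = -1 := by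
    intro w
    show (if C (finFunctionFinEquiv w : ℕ) then (-1 : ℝ) else 1) = 1 ∨
      (if C (finFunctionFinEquiv w : ℕ) then (-1 : ℝ) else 1) = -1
    split_ifs <;> simp
  have hE : ∑ w : Fin k → Fin M, C' w * ∏ i, f (w i) =
      2 * (((Finset.range (M ^ k)).filter fun X => C X ↔ xl k M L X).card : ℝ) - (M : ℝ) ^ k := by
    have h1 : ∀ w : Fin k → Fin M, C' w * ∏ i, f (w i) =
        if (C (finFunctionFinEquiv w : ℕ) ↔ xl k M L (finFunctionFinEquiv w : ℕ)) then 1
          else -1 := by
      intro w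
      have h2 : ∏ i, f (w i) = if xl k M L (finFunctionFinEquiv w : ℕ) then -1 else 1 :=
        prod_sign L w
      rw [h2]
      show (if C (finFunctionFinEquiv w : ℕ) then (-1 : ℝ) else 1) * _ = _
      generalize (finFunctionFinEquiv w : ℕ) = Z
      by_cases a : C Z <;> by_cases b : xl k M L Z <;> simp [a, b]
    rw [Finset.sum_congr rfl fun w _ => h1 w,
      Equiv.sum_comp finFunctionFinEquiv (fun X : Fin (M ^ k) =>
        if (C (X : ℕ) ↔ xl k M L (X : ℕ)) then (1 : ℝ) else -1),
      ← Finset.sum_range (fun X => if (C X ↔ xl k M L X) then (1 : ℝ) else -1), sum_pm,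
      Finset.card_range]
    push_cast
    rfl
  have hbig : (127 / 128 : ℝ) ^ k * (Fintype.card (Fin M) : ℝ) ^ k ≤
      |∑ w : Fin k → Fin M, C' w * ∏ i, f (w i)| := by
    rw [Fintype.card_fin, hE]
    refine le_trans ?_ (le_abs_self _)
    nlinarith [hC]
  obtain ⟨j, u, b, hb, hcard⟩ := xorA f hf K k C' hC' hk hK hbig
  rw [Fintype.card_fin] at hcard
  refine ⟨j, j.2, fun i => if h : i < K then (finFunctionFinEquiv (u ⟨i, h⟩) : ℕ) else 0,
    fun i => if h : i < K then (if b ⟨i, h⟩ = -1 then 1 else 0) else 0, ?_, ?_, ?_⟩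
  · intro i
    dsimp only
    split_ifs with h
    · exact (finFunctionFinEquiv (u ⟨i, h⟩)).2
    · exact pow_pos hM k
  · intro i
    dsimp only
    split_ifs <;> omega
  · refine le_trans (Nat.mul_le_mul_left _ ?_) hcard
    have hsub : ((Finset.range M).filter fun x =>
        ¬ (L x ↔ mj K fun i => ¬ (C (rd M j
          (if h : i < K then (finFunctionFinEquiv (u ⟨i, h⟩) : ℕ) else 0) x) ↔
          (if h : i < K then (if b ⟨i, h⟩ = -1 then 1 else 0) else 0) = 1))) ⊆
        (Finset.univ.filter fun x : Fin M =>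
          f x * ∑ i, C' (Function.update (u i) j x) * b i ≤ 0).image Fin.val := by
      intro x hx
      rw [Finset.mem_filter, Finset.mem_range] at hx
      obtain ⟨hxM, hx2⟩ := hx
      rw [Finset.mem_image]
      refine ⟨⟨x, hxM⟩, ?_, rfl⟩
      rw [Finset.mem_filter]
      refine ⟨Finset.mem_univ _, ?_⟩
      by_contra hpos
      rw [not_le] at hpos
      apply hx2
      have hS : ∑ i, C' (Function.update (u i) j ⟨x, hxM⟩) * b i =
          K - 2 * (((Finset.range K).filter fun i => ¬ (C (rd M j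
          (if h : i < K then (finFunctionFinEquiv (u ⟨i, h⟩) : ℕ) else 0) x) ↔
          (if h : i < K then (if b ⟨i, h⟩ = -1 then 1 else 0) else 0) = 1)).card : ℝ) := by
        have h1 := sum_pm (Finset.range K) (fun i => ¬ (C (rd M j
          (if h : i < K then (finFunctionFinEquiv (u ⟨i, h⟩) : ℕ) else 0) x) ↔
          (if h : i < K then (if b ⟨i, h⟩ = -1 then 1 else 0) else 0) = 1))
        rw [Finset.card_range, Finset.sum_range] at h1
        have h2 : ∀ i : Fin K, C' (Function.update (u i) j ⟨x, hxM⟩) * b i =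
            -(if ¬ (C (rd M j
          (if h : (i : ℕ) < K then (finFunctionFinEquiv (u ⟨i, h⟩) : ℕ) else 0) x) ↔
          (if h : (i : ℕ) < K then (if b ⟨i, h⟩ = -1 then 1 else 0) else 0) = 1) then (1 : ℝ)
            else -1) := by
          intro i
          rw [dif_pos i.2, dif_pos i.2]
          have h3 := rd_fe hM (u i) j ⟨x, hxM⟩
          simp only at h3
          show (if C (finFunctionFinEquiv (Function.update (u i) j ⟨x, hxM⟩) : ℕ) then (-1 : ℝ)
            else 1) * b i = _
          rw [← h3]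
          have h4 : (⟨(i : ℕ), i.2⟩ : Fin K) = i := rfl
          rw [h4]
          generalize (rd M j (finFunctionFinEquiv (u i) : ℕ) x) = Z
          rcases hb i with h5 | h5
          · have h6 : ¬ ((1 : ℝ) = -1) := by norm_num
            by_cases a : C Z <;> simp [a, h5, h6]
          · by_cases a : C Z <;> simp [a, h5]
        rw [Finset.sum_congr rfl fun i _ => h2 i, Finset.sum_neg_distrib, h1]
        ring
      rw [hS] at hpos
      unfold mj
      by_cases hL : L x
      · have hfx : f ⟨x, hxM⟩ = -1 := if_pos hL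
        rw [hfx] at hpos
        constructor
        · intro _
          have h7 : (K : ℝ) < 2 * (((Finset.range K).filter fun i => ¬ (C (rd M j
            (if h : i < K then (finFunctionFinEquiv (u ⟨i, h⟩) : ℕ) else 0) x) ↔
            (if h : i < K then (if b ⟨i, h⟩ = -1 then 1 else 0) else 0) = 1)).card : ℝ) := by
            linarith
          exact_mod_cast h7
        · intro _
          exact hL
      · have hfx : f ⟨x, hxM⟩ = 1 := if_neg hL
        rw [hfx] at hpos
        constructor
        · intro h8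
          exact absurd h8 hL
        · intro h8
          exfalso
          have h7 : (K : ℝ) < 2 * (((Finset.range K).filter fun i => ¬ (C (rd M j
            (if h : i < K then (finFunctionFinEquiv (u ⟨i, h⟩) : ℕ) else 0) x) ↔
            (if h : i < K then (if b ⟨i, h⟩ = -1 then 1 else 0) else 0) = 1)).card : ℝ) := by
            exact_mod_cast h8
          linarith
    exact le_trans (Finset.card_le_card hsub) Finset.card_image_le

end LSA
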